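import Mathlib

set_option autoImplicit false

open Finset

namespace Pool.Agent.Helper274.Cover

/-- Sum of `g (tail) (head)` over all suffixes of a list. -/
noncomputable def stepSum {α : Type*} (g : List α → α → ℝ) : List α → ℝ
  | [] => 0
  | y :: l => g l y + stepSum g l

@[simp] theorem stepSum_nil {α : Type*} (g : List α → α → ℝ) : stepSum g [] = 0 := rfl
@[simp] theorem stepSum_cons {α : Type*} (g : List α → α → ℝ) (y : α) (l : List α) :
    stepSum g (y :: l) = g l y + stepSum g l := rfl

theorem stepSum_add {α : Type*} (g h : List α → α → ℝ) (L : List α) :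
    stepSum (fun l y => g l y + h l y) L = stepSum g L + stepSum h L := by
  induction L with
  | nil => simp
  | cons y l ih => simp [ih]; ring

theorem stepSum_sub {α : Type*} (g h : List α → α → ℝ) (L : List α) :
    stepSum (fun l y => g l y - h l y) L = stepSum g L - stepSum h L := by
  induction L with
  | nil => simp
  | cons y l ih => simp [ih]; ring

theorem stepSum_mul {α : Type*} (c : ℝ) (g : List α → α → ℝ) (L : List α) :
    stepSum (fun l y => c * g l y) L = c * stepSum g L := by
  induction L with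
  | nil => simp
  | cons y l ih => simp [ih]; ring

theorem stepSum_const {α : Type*} (c : ℝ) (L : List α) :
    stepSum (fun _ _ => c) L = c * L.length := by
  induction L with
  | nil => simp
  | cons y l ih => simp [ih]; ring

theorem stepSum_mono {α : Type*} {g h : List α → α → ℝ} {L : List α}
    (H : ∀ l y, (y :: l) <:+ L → g l y ≤ h l y) : stepSum g L ≤ stepSum h L := by
  induction L with
  | nil => simp
  | cons y l ih =>
    simp only [stepSum_cons]
    have h1 := H l y (List.suffix_refl _)
    have h2 := ih (fun l' y' hs => H l' y' (hs.trans (List.suffix_cons y l)))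
    linarith

theorem stepSum_congr {α : Type*} {g h : List α → α → ℝ} {L : List α}
    (H : ∀ l y, (y :: l) <:+ L → g l y = h l y) : stepSum g L = stepSum h L :=
  le_antisymm (stepSum_mono (fun l y hs => (H l y hs).le))
    (stepSum_mono (fun l y hs => (H l y hs).ge))

theorem stepSum_nonneg {α : Type*} {g : List α → α → ℝ} {L : List α}
    (H : ∀ l y, (y :: l) <:+ L → 0 ≤ g l y) : 0 ≤ stepSum g L := by
  have := stepSum_mono (g := fun _ _ => (0:ℝ)) (h := g) (L := L) H
  rw [stepSum_const] at this; simpa using this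

theorem stepSum_sum {α ι : Type*} (s : Finset ι) (g : ι → List α → α → ℝ) (L : List α) :
    stepSum (fun l y => ∑ i ∈ s, g i l y) L = ∑ i ∈ s, stepSum (g i) L := by
  induction L with
  | nil => simp
  | cons y l ih => simp [ih, Finset.sum_add_distrib]

theorem stepSum_map {α : Type*} [DecidableEq α] (h : α → ℝ) (L : List α) (hL : L.Nodup) :
    stepSum (fun _ y => h y) L = ∑ y ∈ L.toFinset, h y := by
  induction L with
  | nil => simp
  | cons y l ih =>
    rw [List.nodup_cons] at hL
    rw [stepSum_cons, ih hL.2, List.toFinset_cons, Finset.sum_insert (by simpa using hL.1)]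

/-- Cauchy-Schwarz for `stepSum`. -/
theorem stepSum_sq_le {α : Type*} (g : List α → α → ℝ) (L : List α) :
    (stepSum g L) ^ 2 ≤ L.length * stepSum (fun l y => (g l y) ^ 2) L := by
  induction L with
  | nil => simp
  | cons y l ih =>
    simp only [stepSum_cons, List.length_cons]
    have hn : 0 ≤ stepSum (fun l y => (g l y) ^ 2) l := stepSum_nonneg (fun _ _ _ => sq_nonneg _)
    set S := stepSum g l
    set Q := stepSum (fun l y => (g l y) ^ 2) l
    set x := g l y
    push_cast
    rcases Nat.eq_zero_or_pos l.length with h0 | h0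
    · have : l = [] := List.length_eq_zero_iff.mp h0
      subst this
      simp [S, Q]
    · have hk : (0:ℝ) < l.length := by exact_mod_cast h0
      -- 2 x S ≤ n x^2 + S^2/n ≤ n x^2 + Q
      have h1 : S ^ 2 / l.length ≤ Q := by
        rw [div_le_iff₀ hk]; linarith
      have h2 : 2 * x * S ≤ l.length * x ^ 2 + S ^ 2 / l.length := by
        have := sq_nonneg (l.length * x - S)
        have h3 : 0 ≤ (l.length * x - S) ^ 2 / l.length := div_nonneg this hk.le
        have h4 : (l.length * x - S) ^ 2 / l.length
            = l.length * x ^ 2 - 2 * x * S + S ^ 2 / l.length := by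
          field_simp
          ring
        linarith
      nlinarith

/-! ### Sequential exponential moment bound -/

theorem sum_exp_stepSum_le {G : Type*} [Fintype G] (ψ : List G → G → ℝ) (c : ℝ) (hc : 0 ≤ c)
    (k : ℕ) (h : ∀ l : List G, l.length < k → ∑ y, Real.exp (ψ l y) ≤ c) :
    ∑ a : Fin k → G, Real.exp (stepSum ψ (List.ofFn a)) ≤ c ^ k := by
  induction k with
  | zero => simp
  | succ k ih =>
    have ih' := ih (fun l hl => h l (by omega))
    have e := (Fin.consEquiv (fun _ : Fin (k+1) => G)).sum_comp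
      (fun a : Fin (k+1) → G => Real.exp (stepSum ψ (List.ofFn a)))
    rw [← e, Fintype.sum_prod_type_right]
    have : ∀ a' : Fin k → G,
        ∑ y : G, Real.exp (stepSum ψ (List.ofFn
          ((Fin.consEquiv (fun _ : Fin (k+1) => G)) (y, a')))) ≤
        c * Real.exp (stepSum ψ (List.ofFn a')) := by
      intro a'
      have hl : ∀ y : G, List.ofFn ((Fin.consEquiv (fun _ : Fin (k+1) => G)) (y, a')) =
          y :: List.ofFn a' := by
        intro y
        rw [List.ofFn_succ]
        simp [Fin.consEquiv]
      simp only [hl, stepSum_cons, Real.exp_add]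
      rw [← Finset.sum_mul]
      apply mul_le_mul_of_nonneg_right _ (Real.exp_pos _).le
      exact h _ (by simp)
    calc _ ≤ ∑ a' : Fin k → G, c * Real.exp (stepSum ψ (List.ofFn a')) :=
          Finset.sum_le_sum (fun a' _ => this a')
      _ = c * ∑ a' : Fin k → G, Real.exp (stepSum ψ (List.ofFn a')) := by rw [Finset.mul_sum]
      _ ≤ c * c ^ k := mul_le_mul_of_nonneg_left ih' hc
      _ = c ^ (k+1) := by ring

/-- Markov version. -/
theorem card_stepSum_ge_le {G : Type*} [Fintype G] (ψ : List G → G → ℝ) (c s : ℝ) (hc : 0 ≤ c)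
    (k : ℕ) (h : ∀ l : List G, l.length < k → ∑ y, Real.exp (ψ l y) ≤ c) :
    ((Finset.univ.filter (fun a : Fin k → G => s ≤ stepSum ψ (List.ofFn a))).card : ℝ)
      ≤ c ^ k * Real.exp (-s) := by
  have h1 := sum_exp_stepSum_le ψ c hc k h
  have h2 : ((Finset.univ.filter (fun a : Fin k → G => s ≤ stepSum ψ (List.ofFn a))).card : ℝ)
      * Real.exp s ≤ ∑ a : Fin k → G, Real.exp (stepSum ψ (List.ofFn a)) := by
    rw [← nsmul_eq_mul, ← Finset.sum_const]
    calc _ ≤ ∑ a ∈ Finset.univ.filter (fun a : Fin k → G => s ≤ stepSum ψ (List.ofFn a)),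
          Real.exp (stepSum ψ (List.ofFn a)) := by
            apply Finset.sum_le_sum
            intro a ha
            exact Real.exp_le_exp.mpr (Finset.mem_filter.mp ha).2
      _ ≤ _ := Finset.sum_le_sum_of_subset_of_nonneg (Finset.filter_subset _ _)
            (fun _ _ _ => (Real.exp_pos _).le)
  rw [Real.exp_neg, ← div_eq_mul_inv, le_div_iff₀ (Real.exp_pos _)]
  linarith

/-- average over the group -/
noncomputable def avg {G : Type*} [Fintype G] (φ : G → ℝ) : ℝ := (∑ y, φ y) / Fintype.card G

theorem sum_exp_center_le {G : Type*} [Fintype G] [Nonempty G] (φ : G → ℝ) (b lam : ℝ)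
    (hlam : 0 ≤ lam) (hlb : lam * b ≤ 1) (h0 : ∀ y, 0 ≤ φ y) (hb : ∀ y, φ y ≤ b) :
    ∑ y, Real.exp (lam * (φ y - avg φ)) ≤ Fintype.card G * Real.exp ((lam * b) ^ 2) := by
  have hN : (0:ℝ) < Fintype.card G := by exact_mod_cast Fintype.card_pos
  have hb0 : 0 ≤ b := (h0 (Classical.arbitrary G)).trans (hb _)
  have havg0 : 0 ≤ avg φ := div_nonneg (Finset.sum_nonneg (fun y _ => h0 y)) hN.le
  have havgb : avg φ ≤ b := by
    unfold avg
    rw [div_le_iff₀ hN]
    calc ∑ y, φ y ≤ ∑ _y : G, b := Finset.sum_le_sum (fun y _ => hb y)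
      _ = b * Fintype.card G := by simp [mul_comm]
  have hsum : ∑ y, (lam * (φ y - avg φ)) = 0 := by
    rw [← Finset.mul_sum, Finset.sum_sub_distrib]
    have : ∑ _y : G, avg φ = ∑ y, φ y := by
      rw [Finset.sum_const, nsmul_eq_mul, Finset.card_univ]
      unfold avg
      field_simp
    rw [this]; ring
  have hpt : ∀ y, Real.exp (lam * (φ y - avg φ)) ≤
      1 + lam * (φ y - avg φ) + (lam * b) ^ 2 := by
    intro y
    have habs : |φ y - avg φ| ≤ b := by
      rw [abs_le]; constructor <;> linarith [h0 y, hb y]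
    have habs2 : |lam * (φ y - avg φ)| ≤ lam * b := by
      rw [abs_mul, abs_of_nonneg hlam]
      exact mul_le_mul_of_nonneg_left habs hlam
    have h1 := Real.abs_exp_sub_one_sub_id_le (habs2.trans hlb)
    have h2 := (abs_le.mp h1).2
    have h3 : (lam * (φ y - avg φ)) ^ 2 ≤ (lam * b) ^ 2 := by
      rw [← sq_abs]
      exact pow_le_pow_left₀ (abs_nonneg _) habs2 2
    linarith
  calc ∑ y, Real.exp (lam * (φ y - avg φ))
      ≤ ∑ y, (1 + lam * (φ y - avg φ) + (lam * b) ^ 2) := Finset.sum_le_sum (fun y _ => hpt y)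
    _ = Fintype.card G * (1 + (lam * b) ^ 2) := by
        rw [Finset.sum_add_distrib, Finset.sum_add_distrib, hsum]
        simp; ring
    _ ≤ _ := by
        apply mul_le_mul_of_nonneg_left _ hN.le
        have := Real.add_one_le_exp ((lam * b) ^ 2)
        linarith

/-- Azuma type bound: `g` takes values in `[0,b]`. -/
theorem azuma {G : Type*} [Fintype G] [Nonempty G] (g : List G → G → ℝ) (b lam s : ℝ) (k : ℕ)
    (hlam : 0 ≤ lam) (hlb : lam * b ≤ 1) (h0 : ∀ l y, 0 ≤ g l y) (hb : ∀ l y, g l y ≤ b) :
    ((Finset.univ.filter (fun a : Fin k → G =>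
        s ≤ stepSum (fun l y => g l y - avg (g l)) (List.ofFn a))).card : ℝ)
      ≤ (Fintype.card G : ℝ) ^ k * Real.exp (k * (lam * b) ^ 2 - lam * s) := by
  have h := card_stepSum_ge_le (fun l y => lam * (g l y - avg (g l)))
    (Fintype.card G * Real.exp ((lam * b) ^ 2)) (lam * s) (by positivity) k
    (fun l _ => sum_exp_center_le (g l) b lam hlam hlb (h0 l) (hb l))
  have hsub : (Finset.univ.filter (fun a : Fin k → G =>
        s ≤ stepSum (fun l y => g l y - avg (g l)) (List.ofFn a))) ⊆
      (Finset.univ.filter (fun a : Fin k → G =>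
        lam * s ≤ stepSum (fun l y => lam * (g l y - avg (g l))) (List.ofFn a))) := by
    intro a ha
    simp only [Finset.mem_filter, Finset.mem_univ, true_and] at ha ⊢
    rw [stepSum_mul]
    exact mul_le_mul_of_nonneg_left ha hlam
  have h' : ((Finset.univ.filter (fun a : Fin k → G =>
        s ≤ stepSum (fun l y => g l y - avg (g l)) (List.ofFn a))).card : ℝ) ≤ _ :=
    (Nat.cast_le.mpr (Finset.card_le_card hsub)).trans h
  refine h'.trans (le_of_eq ?_)
  rw [mul_pow, ← Real.exp_nat_mul, mul_assoc, ← Real.exp_add]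
  ring_nf

end Pool.Agent.Helper274.Cover
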