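import Mathlib

set_option autoImplicit false
set_option linter.unusedSectionVars false

open Finset

namespace Pool.Agent.Helper274.Cover

variable {α : Type*} [DecidableEq α]

/-- Expectation of `φ U` for a random subset `U` of `T` (each element kept with probability `γ`). -/
noncomputable def EB (γ : ℝ) (T : Finset α) (φ : Finset α → ℝ) : ℝ :=
  ∑ U ∈ T.powerset, γ ^ U.card * (1 - γ) ^ (T.card - U.card) * φ U

theorem EB_congr {γ : ℝ} {T : Finset α} {φ ψ : Finset α → ℝ} (h : ∀ U, U ⊆ T → φ U = ψ U) :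
    EB γ T φ = EB γ T ψ := by
  unfold EB
  apply Finset.sum_congr rfl
  intro U hU
  rw [h U (Finset.mem_powerset.mp hU)]

theorem EB_add (γ : ℝ) (T : Finset α) (φ ψ : Finset α → ℝ) :
    EB γ T (fun U => φ U + ψ U) = EB γ T φ + EB γ T ψ := by
  unfold EB; rw [← Finset.sum_add_distrib]
  exact Finset.sum_congr rfl (fun U _ => by ring)

theorem EB_sub (γ : ℝ) (T : Finset α) (φ ψ : Finset α → ℝ) :
    EB γ T (fun U => φ U - ψ U) = EB γ T φ - EB γ T ψ := by
  unfold EB; rw [← Finset.sum_sub_distrib]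
  exact Finset.sum_congr rfl (fun U _ => by ring)

theorem EB_mul_left (γ : ℝ) (T : Finset α) (c : ℝ) (φ : Finset α → ℝ) :
    EB γ T (fun U => c * φ U) = c * EB γ T φ := by
  unfold EB; rw [Finset.mul_sum]
  exact Finset.sum_congr rfl (fun U _ => by ring)

theorem EB_sum {ι : Type*} (γ : ℝ) (T : Finset α) (I : Finset ι) (φ : ι → Finset α → ℝ) :
    EB γ T (fun U => ∑ i ∈ I, φ i U) = ∑ i ∈ I, EB γ T (φ i) := by
  unfold EB
  rw [Finset.sum_comm]
  exact Finset.sum_congr rfl (fun U _ => by rw [Finset.mul_sum])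

theorem EB_insert (γ : ℝ) {T : Finset α} {a : α} (ha : a ∉ T) (φ : Finset α → ℝ) :
    EB γ (insert a T) φ = (1 - γ) * EB γ T φ + γ * EB γ T (fun U => φ (insert a U)) := by
  unfold EB
  rw [Finset.sum_powerset_insert ha, Finset.mul_sum, Finset.mul_sum]
  congr 1
  · apply Finset.sum_congr rfl
    intro U hU
    have hUT := Finset.mem_powerset.mp hU
    have hc := Finset.card_le_card hUT
    rw [Finset.card_insert_of_notMem ha, Nat.succ_sub hc, pow_succ]
    ring
  · apply Finset.sum_congr rfl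
    intro U hU
    have hUT := Finset.mem_powerset.mp hU
    have haU : a ∉ U := fun h => ha (hUT h)
    rw [Finset.card_insert_of_notMem ha, Finset.card_insert_of_notMem haU,
      Nat.add_sub_add_right, pow_succ]
    ring

@[simp] theorem EB_empty (γ : ℝ) (φ : Finset α → ℝ) : EB γ ∅ φ = φ ∅ := by
  simp [EB]

theorem EB_const (γ : ℝ) (T : Finset α) (c : ℝ) : EB γ T (fun _ => c) = c := by
  induction T using Finset.induction_on with
  | empty => simp
  | insert a T ha ih => rw [EB_insert γ ha, ih]; ring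

theorem EB_mono {γ : ℝ} (h0 : 0 ≤ γ) (h1 : γ ≤ 1) {T : Finset α} {φ ψ : Finset α → ℝ}
    (h : ∀ U, U ⊆ T → φ U ≤ ψ U) : EB γ T φ ≤ EB γ T ψ := by
  unfold EB
  apply Finset.sum_le_sum
  intro U hU
  apply mul_le_mul_of_nonneg_left (h U (Finset.mem_powerset.mp hU))
  have : 0 ≤ 1 - γ := by linarith
  positivity

theorem EB_nonneg {γ : ℝ} (h0 : 0 ≤ γ) (h1 : γ ≤ 1) {T : Finset α} {φ : Finset α → ℝ}
    (h : ∀ U, U ⊆ T → 0 ≤ φ U) : 0 ≤ EB γ T φ := by
  have := EB_mono h0 h1 (T := T) (φ := fun _ => 0) (ψ := φ) h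
  rwa [EB_const] at this

theorem exists_lt_of_EB_lt {γ : ℝ} (h0 : 0 ≤ γ) (h1 : γ ≤ 1) {T : Finset α} {φ : Finset α → ℝ}
    {c : ℝ} (h : EB γ T φ < c) : ∃ U, U ⊆ T ∧ φ U < c := by
  by_contra hcon
  push Not at hcon
  have := EB_mono h0 h1 (T := T) (φ := fun _ => c) (ψ := φ) hcon
  rw [EB_const] at this
  linarith

theorem EB_inter (γ : ℝ) (T R : Finset α) (φ : Finset α → ℝ) :
    EB γ T (fun U => φ (U ∩ R)) = EB γ (T ∩ R) φ := by
  induction T using Finset.induction_on generalizing φ with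
  | empty => simp
  | insert a T ha ih =>
    rw [EB_insert γ ha]
    by_cases haR : a ∈ R
    · have h1 : (fun U : Finset α => φ (insert a U ∩ R)) =
          (fun U => (fun V => φ (insert a V)) (U ∩ R)) := by
        funext U
        rw [Finset.insert_inter_of_mem haR]
      have e1 := ih φ
      have e2 := ih (fun V => φ (insert a V))
      rw [h1, e1, e2, Finset.insert_inter_of_mem haR, EB_insert]
      simp [ha]
    · have h1 : (fun U : Finset α => φ (insert a U ∩ R)) = (fun U => φ (U ∩ R)) := by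
        funext U
        rw [Finset.insert_inter_of_notMem haR]
      rw [h1, ih, Finset.insert_inter_of_notMem haR]
      ring

theorem EB_mul_of_disjoint (γ : ℝ) (T R R' : Finset α) (hd : Disjoint R R')
    (φ ψ : Finset α → ℝ) :
    EB γ T (fun U => φ (U ∩ R) * ψ (U ∩ R')) =
      EB γ T (fun U => φ (U ∩ R)) * EB γ T (fun U => ψ (U ∩ R')) := by
  induction T using Finset.induction_on generalizing φ ψ with
  | empty => simp
  | insert a T ha ih =>
    rw [EB_insert γ ha, EB_insert γ ha, EB_insert γ ha]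
    by_cases haR : a ∈ R
    · have haR' : a ∉ R' := fun h => (Finset.disjoint_left.mp hd) haR h
      simp only [Finset.insert_inter_of_mem haR, Finset.insert_inter_of_notMem haR']
      have e1 := ih φ ψ
      have e2 := ih (fun V => φ (insert a V)) ψ
      rw [e1, e2]; ring
    · by_cases haR' : a ∈ R'
      · simp only [Finset.insert_inter_of_notMem haR, Finset.insert_inter_of_mem haR']
        have e1 := ih φ ψ
        have e2 := ih φ (fun V => ψ (insert a V))
        rw [e1, e2]; ring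
      · simp only [Finset.insert_inter_of_notMem haR, Finset.insert_inter_of_notMem haR']
        rw [ih φ ψ]; ring

/-- binomial expectation -/
noncomputable def bin (γ : ℝ) (F : ℕ → ℝ) (r : ℕ) : ℝ :=
  ∑ z ∈ Finset.range (r + 1), (r.choose z : ℝ) * (γ ^ z * (1 - γ) ^ (r - z) * F z)

theorem EB_card_fun (γ : ℝ) (T : Finset α) (F : ℕ → ℝ) :
    EB γ T (fun U => F U.card) = bin γ F T.card := by
  unfold EB bin
  rw [Finset.sum_powerset_apply_card (fun n => γ ^ n * (1 - γ) ^ (T.card - n) * F n)]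
  simp [nsmul_eq_mul]

theorem EB_inter_card (γ : ℝ) (T R : Finset α) (F : ℕ → ℝ) :
    EB γ T (fun U => F (U ∩ R).card) = bin γ F (T ∩ R).card := by
  rw [EB_inter γ T R (fun U => F U.card), EB_card_fun]

theorem EB_card (γ : ℝ) (T : Finset α) : EB γ T (fun U => (U.card : ℝ)) = γ * T.card := by
  induction T using Finset.induction_on with
  | empty => simp
  | insert a T ha ih =>
    rw [EB_insert γ ha, ih]
    have : EB γ T (fun U => ((insert a U).card : ℝ)) = EB γ T (fun U => (U.card : ℝ) + 1) := by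
      apply EB_congr
      intro U hU
      rw [Finset.card_insert_of_notMem (fun h => ha (hU h))]
      push_cast; ring
    rw [this, EB_add, ih, EB_const, Finset.card_insert_of_notMem ha]
    push_cast; ring

theorem EB_meet_le {γ : ℝ} (h0 : 0 ≤ γ) (h1 : γ ≤ 1) (T V : Finset α) :
    EB γ T (fun U => if (U ∩ V).Nonempty then 1 else 0) ≤ γ * (T ∩ V).card := by
  calc EB γ T (fun U => if (U ∩ V).Nonempty then 1 else 0)
      ≤ EB γ T (fun U => ((U ∩ V).card : ℝ)) := by
        apply EB_mono h0 h1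
        intro U _
        split_ifs with h
        · have := Finset.card_pos.mpr h
          exact_mod_cast this
        · positivity
    _ = EB γ (T ∩ V) (fun U => (U.card : ℝ)) := EB_inter γ T V (fun U => (U.card : ℝ))
    _ = γ * (T ∩ V).card := EB_card γ _

theorem EB_var {ι : Type*} {γ : ℝ} (h0 : 0 ≤ γ) (h1 : γ ≤ 1) (T : Finset α) (I : Finset ι)
    (R : ι → Finset α) (h : ι → Finset α → ℝ) (M : ℝ)
    (hM : ∀ i ∈ I, ∀ U, |h i U| ≤ M) :
    EB γ T (fun U => (∑ i ∈ I, (h i (U ∩ R i) - EB γ T (fun V => h i (V ∩ R i)))) ^ 2) ≤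
      4 * M ^ 2 * (((I ×ˢ I).filter (fun p => ¬ Disjoint (R p.1) (R p.2))).card : ℝ) := by
  set μ : ι → ℝ := fun i => EB γ T (fun V => h i (V ∩ R i)) with hμ
  have hμM : ∀ i ∈ I, |μ i| ≤ M := by
    intro i hi
    rw [abs_le]
    constructor
    · have := EB_mono h0 h1 (T := T) (φ := fun _ => -M) (ψ := fun V => h i (V ∩ R i))
        (fun U _ => (abs_le.mp (hM i hi _)).1)
      rwa [EB_const] at this
    · have := EB_mono h0 h1 (T := T) (ψ := fun _ => M) (φ := fun V => h i (V ∩ R i))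
        (fun U _ => (abs_le.mp (hM i hi _)).2)
      rwa [EB_const] at this
  have e1 : EB γ T (fun U => (∑ i ∈ I, (h i (U ∩ R i) - μ i)) ^ 2) =
      ∑ p ∈ I ×ˢ I, EB γ T (fun U => (h p.1 (U ∩ R p.1) - μ p.1) * (h p.2 (U ∩ R p.2) - μ p.2)) := by
    rw [← EB_sum]
    apply EB_congr
    intro U _
    rw [sq, Finset.sum_mul_sum, ← Finset.sum_product']
  rw [e1]
  have e2 : ∀ p ∈ I ×ˢ I, EB γ T (fun U => (h p.1 (U ∩ R p.1) - μ p.1) *
      (h p.2 (U ∩ R p.2) - μ p.2)) ≤ if ¬ Disjoint (R p.1) (R p.2) then 4 * M ^ 2 else 0 := by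
    intro p hp
    rw [Finset.mem_product] at hp
    by_cases hd : ¬ Disjoint (R p.1) (R p.2)
    · rw [if_pos hd]
      have := EB_mono h0 h1 (T := T) (ψ := fun _ => 4 * M ^ 2)
        (φ := fun U => (h p.1 (U ∩ R p.1) - μ p.1) * (h p.2 (U ∩ R p.2) - μ p.2)) (by
          intro U _
          have a1 : |h p.1 (U ∩ R p.1) - μ p.1| ≤ 2 * M := by
            calc _ ≤ |h p.1 (U ∩ R p.1)| + |μ p.1| := abs_sub _ _
              _ ≤ 2 * M := by linarith [hM p.1 hp.1 (U ∩ R p.1), hμM p.1 hp.1]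
          have a2 : |h p.2 (U ∩ R p.2) - μ p.2| ≤ 2 * M := by
            calc _ ≤ |h p.2 (U ∩ R p.2)| + |μ p.2| := abs_sub _ _
              _ ≤ 2 * M := by linarith [hM p.2 hp.2 (U ∩ R p.2), hμM p.2 hp.2]
          calc _ ≤ |(h p.1 (U ∩ R p.1) - μ p.1) * (h p.2 (U ∩ R p.2) - μ p.2)| := le_abs_self _
            _ = |h p.1 (U ∩ R p.1) - μ p.1| * |h p.2 (U ∩ R p.2) - μ p.2| := abs_mul _ _
            _ ≤ (2 * M) * (2 * M) := mul_le_mul a1 a2 (abs_nonneg _) ((abs_nonneg _).trans a1)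
            _ = 4 * M ^ 2 := by ring)
      rwa [EB_const] at this
    · rw [if_neg hd]
      rw [not_not] at hd
      have := EB_mul_of_disjoint γ T (R p.1) (R p.2) hd (fun V => h p.1 V - μ p.1)
        (fun V => h p.2 V - μ p.2)
      rw [this, EB_sub, EB_const]
      simp [hμ]
  calc _ ≤ ∑ p ∈ I ×ˢ I, (if ¬ Disjoint (R p.1) (R p.2) then 4 * M ^ 2 else 0) :=
        Finset.sum_le_sum e2
    _ = _ := by
      rw [← Finset.sum_filter, Finset.sum_const, nsmul_eq_mul]; ring

end Pool.Agent.Helper274.Cover
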