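import Mathlib
import Pool.Agent.Helper274.CoverA
import Pool.Agent.Helper274.CoverB

set_option autoImplicit false
set_option linter.unusedSectionVars false

open Finset

namespace Pool.Agent.Helper274.Cover

variable {G : Type*} [AddCommGroup G] [Fintype G] [DecidableEq G]

/-- the elements `t` of `T` with `x - t ∈ l` -/
def rep (T : Finset G) (l : List G) (x : G) : Finset G := T.filter (fun t => x - t ∈ l)

/-- number of representations of `x` as an element of `T` plus an element of `l` -/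
def cnt (T : Finset G) (l : List G) (x : G) : ℕ := (rep T l x).card

/-- multiplicity of the shift `s` -/
def hs (T A : Finset G) (s : G) : ℕ := (T.filter (fun t => t - s ∈ A)).card

/-- bounded difference multiplicities -/
def DB (D : ℕ) (A : Finset G) : Prop := ∀ d : G, d ≠ 0 → (A.filter (fun y => y - d ∈ A)).card ≤ D

theorem pair_le {D : ℕ} {A : Finset G} (hA : DB D A) {t t' : G} (h : t ≠ t') :
    (univ.filter (fun s => t - s ∈ A ∧ t' - s ∈ A)).card ≤ D := by
  refine le_trans ?_ (hA (t - t') (sub_ne_zero.mpr h))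
  apply Finset.card_le_card_of_injOn (fun s => t - s)
  · intro s hs
    simp only [coe_filter, Set.mem_setOf_eq, mem_univ, true_and] at hs ⊢
    refine ⟨hs.1, ?_⟩
    have : t - s - (t - t') = t' - s := by abel
    rw [this]; exact hs.2
  · intro s _ s' _ hss
    simpa using hss

theorem pair_le' {D : ℕ} {A : Finset G} (hA : DB D A) {s s' : G} (h : s ≠ s') :
    (univ.filter (fun t => t - s ∈ A ∧ t - s' ∈ A)).card ≤ D := by
  refine le_trans ?_ (hA (s' - s) (sub_ne_zero.mpr h.symm))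
  apply Finset.card_le_card_of_injOn (fun t => t - s)
  · intro t ht
    simp only [coe_filter, Set.mem_setOf_eq, mem_univ, true_and] at ht ⊢
    refine ⟨ht.1, ?_⟩
    have : t - s - (s' - s) = t - s' := by abel
    rw [this]; exact ht.2
  · intro s _ s' _ hss
    simpa using hss

theorem sum_hs_sq {D : ℕ} {A : Finset G} (hA : DB D A) (T : Finset G) :
    ∑ s, (hs T A s) ^ 2 ≤ T.card * A.card + T.card ^ 2 * D := by
  have h1 : ∀ s, (hs T A s) ^ 2 = ∑ p ∈ T ×ˢ T, if (p.1 - s ∈ A ∧ p.2 - s ∈ A) then 1 else 0 := by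
    intro s
    rw [sq]
    unfold hs
    rw [← Finset.card_product, ← Finset.card_filter]
    congr 1
    ext p
    simp only [mem_product, mem_filter]
    tauto
  simp_rw [h1]
  rw [Finset.sum_comm]
  have h2 : ∀ p ∈ T ×ˢ T, (∑ s, if (p.1 - s ∈ A ∧ p.2 - s ∈ A) then 1 else 0) ≤
      (if p.1 = p.2 then A.card else 0) + D := by
    intro p _
    rw [← Finset.card_filter]
    split_ifs with hp
    · refine le_trans ?_ (Nat.le_add_right _ _)
      apply Finset.card_le_card_of_injOn (fun s => p.1 - s)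
      · intro s hs
        simp only [coe_filter, Set.mem_setOf_eq, mem_univ, true_and] at hs
        exact hs.1
      · intro s _ s' _ hss
        simpa using hss
    · rw [zero_add]
      exact pair_le hA hp
  refine (Finset.sum_le_sum h2).trans ?_
  rw [Finset.sum_add_distrib, Finset.sum_const, Finset.card_product, smul_eq_mul]
  have h3 : ∑ p ∈ T ×ˢ T, (if p.1 = p.2 then A.card else 0) = T.card * A.card := by
    rw [Finset.sum_product]
    simp
  rw [h3, sq]

theorem sum_hs_subset {D : ℕ} {A : Finset G} (hA : DB D A) (T S : Finset G) :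
    ∑ s ∈ S, hs T A s ≤ T.card + S.card ^ 2 * D := by
  classical
  have h1 : ∑ s ∈ S, hs T A s = ∑ t ∈ T, (S.filter (fun s => t - s ∈ A)).card := by
    unfold hs
    simp_rw [Finset.card_filter]
    exact Finset.sum_comm
  rw [h1]
  have h2 : ∀ t ∈ T, (S.filter (fun s => t - s ∈ A)).card ≤ 1 +
      ((S.offDiag).filter (fun p => t - p.1 ∈ A ∧ t - p.2 ∈ A)).card := by
    intro t _
    have e : (S.offDiag).filter (fun p => t - p.1 ∈ A ∧ t - p.2 ∈ A) =
        (S.filter (fun s => t - s ∈ A)).offDiag := by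
      ext p
      simp only [mem_filter, mem_offDiag]
      tauto
    rw [e, Finset.offDiag_card]
    set m := (S.filter (fun s => t - s ∈ A)).card
    rcases Nat.eq_zero_or_pos m with h0 | h0
    · omega
    · obtain ⟨n, hn⟩ : ∃ n, m = n + 1 := ⟨m - 1, by omega⟩
      rw [hn]
      have : (n+1) * (n+1) - (n+1) = n * (n+1) := by
        rw [Nat.sub_eq_iff_eq_add (by nlinarith)]; ring
      rw [this]
      nlinarith
  refine (Finset.sum_le_sum h2).trans ?_
  rw [Finset.sum_add_distrib]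
  apply Nat.add_le_add
  · simp
  · have h3 : ∑ t ∈ T, ((S.offDiag).filter (fun p => t - p.1 ∈ A ∧ t - p.2 ∈ A)).card ≤
        ∑ t, ((S.offDiag).filter (fun p => t - p.1 ∈ A ∧ t - p.2 ∈ A)).card :=
      Finset.sum_le_sum_of_subset (Finset.subset_univ _)
    refine h3.trans ?_
    simp_rw [Finset.card_filter]
    rw [Finset.sum_comm]
    have h4 : ∀ p ∈ S.offDiag, (∑ t : G, if (t - p.1 ∈ A ∧ t - p.2 ∈ A) then 1 else 0) ≤ D := by
      intro p hp
      rw [← Finset.card_filter]
      exact pair_le' hA (Finset.mem_offDiag.mp hp).2.2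
    refine (Finset.sum_le_sum h4).trans ?_
    rw [Finset.sum_const, smul_eq_mul, Finset.offDiag_card, sq]
    exact Nat.mul_le_mul_right _ (Nat.sub_le _ _)

/-- double counting -/
theorem sum_sum_sub (T A : Finset G) (φ : G → ℝ) :
    ∑ y ∈ A, ∑ t ∈ T, φ (t - y) = ∑ s, (hs T A s : ℝ) * φ s := by
  rw [Finset.sum_comm]
  have h1 : ∀ t ∈ T, ∑ y ∈ A, φ (t - y) = ∑ s, if t - s ∈ A then φ s else 0 := by
    intro t _
    have e : ∑ y ∈ A, φ (t - y) = ∑ y, if y ∈ A then φ (t - y) else 0 := by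
      rw [Finset.sum_ite_mem, Finset.univ_inter]
    rw [e]
    have := (Equiv.subLeft t).sum_comp (fun y => if y ∈ A then φ (t - y) else 0)
    rw [← this]
    apply Finset.sum_congr rfl
    intro s _
    simp
  rw [Finset.sum_congr rfl h1, Finset.sum_comm]
  apply Finset.sum_congr rfl
  intro s _
  unfold hs
  rw [← Finset.sum_filter, Finset.sum_const, nsmul_eq_mul]

/-- heavy shifts -/
noncomputable def heavy (T A : Finset G) (θ : ℝ) : Finset G :=
  univ.filter (fun s => θ ≤ (hs T A s : ℝ))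

theorem heavy_card_lt {D : ℕ} {A : Finset G} (hA : DB D A) (T : Finset G) (θ τ : ℝ)
    (hT : (T.card : ℝ) ≤ τ) (n0 : ℕ) (h1 : 2 * τ ≤ n0 * θ) (h2 : (n0 : ℝ) ^ 2 * D < τ) :
    (heavy T A θ).card < n0 := by
  by_contra hcon
  push Not at hcon
  obtain ⟨S, hS, hSc⟩ := Finset.exists_subset_card_eq hcon
  have h3 := sum_hs_subset hA T S
  have h4 : (n0 : ℝ) * θ ≤ ((∑ s ∈ S, hs T A s : ℕ) : ℝ) := by
    push_cast
    calc (n0 : ℝ) * θ = ∑ _s ∈ S, θ := by rw [Finset.sum_const, nsmul_eq_mul, hSc]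
      _ ≤ _ := by
        apply Finset.sum_le_sum
        intro s hs
        exact (Finset.mem_filter.mp (hS hs)).2
  have h5 : ((∑ s ∈ S, hs T A s : ℕ) : ℝ) ≤ T.card + (n0:ℝ) ^ 2 * D := by
    have : ((∑ s ∈ S, hs T A s : ℕ) : ℝ) ≤ ((T.card + S.card ^ 2 * D : ℕ) : ℝ) := by
      exact_mod_cast h3
    rw [hSc] at this
    push_cast at this ⊢
    exact this
  linarith

theorem heavy_sum_le {D : ℕ} {A : Finset G} (hA : DB D A) (T : Finset G) (θ τ : ℝ)
    (hT : (T.card : ℝ) ≤ τ) (n0 : ℕ) (h1 : 2 * τ ≤ n0 * θ) (h2 : (n0 : ℝ) ^ 2 * D < τ) :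
    ∑ s ∈ heavy T A θ, (hs T A s : ℝ) ≤ 2 * τ := by
  have h3 := heavy_card_lt hA T θ τ hT n0 h1 h2
  have h4 := sum_hs_subset hA T (heavy T A θ)
  have h5 : ((∑ s ∈ heavy T A θ, hs T A s : ℕ) : ℝ) ≤
      ((T.card + (heavy T A θ).card ^ 2 * D : ℕ) : ℝ) := by exact_mod_cast h4
  push_cast at h5
  have h6 : ((heavy T A θ).card : ℝ) ^ 2 * D ≤ (n0 : ℝ) ^ 2 * D := by
    have : ((heavy T A θ).card : ℝ) ≤ n0 := by exact_mod_cast h3.le
    gcongr
  linarith

/-- number of `t0 ∈ T` such that `y + t0 - t ∈ l` -/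
def ct (T : Finset G) (l : List G) (y t : G) : ℕ := (T.filter (fun t0 => y + t0 - t ∈ l)).card

theorem ct_le_hs (T A : Finset G) (l : List G) (hl : ∀ a ∈ l, a ∈ A) (y t : G) :
    ct T l y t ≤ hs T A (t - y) := by
  unfold ct hs
  apply Finset.card_le_card
  intro t0 h
  simp only [mem_filter] at h ⊢
  refine ⟨h.1, ?_⟩
  have : t0 - (t - y) = y + t0 - t := by abel
  rw [this]
  exact hl _ h.2

theorem pairs_le (T T1 : Finset G) (l : List G) (y : G) :
    ((T ×ˢ T).filter (fun p => ¬ Disjoint (rep T1 l (y + p.1)) (rep T1 l (y + p.2)))).card ≤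
      ∑ t ∈ T1, (ct T l y t) ^ 2 := by
  have hsub : (T ×ˢ T).filter (fun p => ¬ Disjoint (rep T1 l (y + p.1)) (rep T1 l (y + p.2))) ⊆
      T1.biUnion (fun t => (T.filter (fun t0 => y + t0 - t ∈ l)) ×ˢ
        (T.filter (fun t0 => y + t0 - t ∈ l))) := by
    intro p hp
    rw [mem_filter, Finset.not_disjoint_iff] at hp
    obtain ⟨hp1, t, ht1, ht2⟩ := hp
    rw [mem_product] at hp1
    unfold rep at ht1 ht2
    rw [mem_filter] at ht1 ht2
    rw [mem_biUnion]
    exact ⟨t, ht1.1, by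
      rw [mem_product, mem_filter, mem_filter]
      exact ⟨⟨hp1.1, ht1.2⟩, ⟨hp1.2, ht2.2⟩⟩⟩
  refine (Finset.card_le_card hsub).trans (Finset.card_biUnion_le.trans ?_)
  apply Finset.sum_le_sum
  intro t _
  rw [Finset.card_product, sq]
  rfl

/-- exceptional points -/
theorem exceptional_le {D : ℕ} {A : Finset G} (hA : DB D A) (T S : Finset G) (l : List G)
    (hl : ∀ a ∈ l, a ∈ A) (y : G) :
    (T.filter (fun t0 => 2 ≤ (T.filter (fun t => t - y ∈ S ∧ y + t0 - t ∈ l)).card)).card ≤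
      S.card ^ 2 * D := by
  have hsub : T.filter (fun t0 => 2 ≤ (T.filter (fun t => t - y ∈ S ∧ y + t0 - t ∈ l)).card) ⊆
      (S.offDiag).biUnion (fun p => univ.filter (fun t0 => t0 - p.1 ∈ A ∧ t0 - p.2 ∈ A)) := by
    intro t0 h
    rw [mem_filter] at h
    obtain ⟨t, ht, t', ht', hne⟩ := Finset.one_lt_card.mp h.2
    rw [mem_filter] at ht ht'
    rw [mem_biUnion]
    refine ⟨(t - y, t' - y), ?_, ?_⟩
    · rw [mem_offDiag]
      exact ⟨ht.2.1, ht'.2.1, fun h => hne (by simpa using h)⟩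
    · rw [mem_filter]
      refine ⟨mem_univ _, ?_, ?_⟩
      · have : t0 - (t - y) = y + t0 - t := by abel
        simp only [this]
        exact hl _ ht.2.2
      · have : t0 - (t' - y) = y + t0 - t' := by abel
        simp only [this]
        exact hl _ ht'.2.2
  refine (Finset.card_le_card hsub).trans (Finset.card_biUnion_le.trans ?_)
  calc ∑ p ∈ S.offDiag, (univ.filter (fun t0 => t0 - p.1 ∈ A ∧ t0 - p.2 ∈ A)).card
      ≤ ∑ _p ∈ S.offDiag, D := by
        apply Finset.sum_le_sum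
        intro p hp
        exact pair_le' hA (Finset.mem_offDiag.mp hp).2.2
    _ ≤ _ := by
      rw [Finset.sum_const, smul_eq_mul, Finset.offDiag_card, sq]
      exact Nat.mul_le_mul_right _ (Nat.sub_le _ _)

end Pool.Agent.Helper274.Cover
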