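import Mathlib
import Pool.Agent.Helper274.CoverA
import Pool.Agent.Helper274.CoverB
import Pool.Agent.Helper274.CoverC

set_option autoImplicit false
set_option linter.unusedSectionVars false

open Finset

namespace Pool.Agent.Helper274.Cover

variable {G : Type*} [AddCommGroup G] [Fintype G] [DecidableEq G]

/-- window estimator -/
noncomputable def est0 (γ : ℝ) (F : ℕ → ℝ) (T0 T' : Finset G) (l : List G) (y : G) : ℝ :=
  γ⁻¹ * ∑ t0 ∈ T0, F (cnt T' l (y + t0))

noncomputable def phi (f : ℕ → ℝ) (T1 T2 : Finset G) (l : List G) (y : G) : ℝ :=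
  ∑ t0 ∈ T1, f (cnt T2 l (y + t0))

theorem EB_indicator {γ : ℝ} {T : Finset G} {t : G} (ht : t ∈ T) (c : ℝ) :
    EB γ T (fun V => c * (if t ∈ V ∩ {t} then 1 else 0)) = γ * c := by
  have := EB_inter γ T {t} (fun V => c * (if t ∈ V then 1 else 0))
  rw [this, Finset.inter_singleton_of_mem ht]
  have h := EB_insert γ (Finset.notMem_empty t) (fun V => c * (if t ∈ V then (1:ℝ) else 0))
  rw [insert_empty_eq] at h
  rw [h]
  simp

theorem EB_sample {γ : ℝ} (h0 : 0 < γ) (h1 : γ ≤ 1) (T : Finset G) (g : G → ℝ) (M : ℝ)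
    (hM : ∀ t, |g t| ≤ M) :
    EB γ T (fun U => (γ⁻¹ * ∑ t ∈ U, g t - ∑ t ∈ T, g t) ^ 2) ≤ 4 * (M / γ) ^ 2 * T.card := by
  have h := EB_var h0.le h1 T T (fun t => ({t} : Finset G))
    (fun t V => (γ⁻¹ * g t) * (if t ∈ V then 1 else 0)) (M / γ) (by
      intro i _ U
      rw [abs_mul, abs_mul, abs_of_pos (inv_pos.mpr h0), div_eq_inv_mul]
      have : |(if i ∈ U then (1:ℝ) else 0)| ≤ 1 := by split_ifs <;> simp
      have hM0 : 0 ≤ M := (abs_nonneg _).trans (hM i)
      calc γ⁻¹ * |g i| * |(if i ∈ U then (1:ℝ) else 0)| ≤ γ⁻¹ * |g i| * 1 := by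
            apply mul_le_mul_of_nonneg_left this
            have := inv_pos.mpr h0
            positivity
        _ = γ⁻¹ * |g i| := by ring
        _ ≤ γ⁻¹ * M := mul_le_mul_of_nonneg_left (hM i) (inv_pos.mpr h0).le)
  refine le_trans (le_of_eq ?_) (h.trans (le_of_eq ?_))
  · apply EB_congr
    intro U hU
    congr 1
    have e1 : ∀ i ∈ T, EB γ T (fun V => (γ⁻¹ * g i) * (if i ∈ V ∩ {i} then 1 else 0)) = g i := by
      intro i hi
      rw [EB_indicator hi]
      field_simp
    rw [Finset.sum_sub_distrib]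
    congr 1
    · rw [Finset.mul_sum]
      have : ∀ i ∈ T, (γ⁻¹ * g i) * (if i ∈ U ∩ {i} then (1:ℝ) else 0) =
          if i ∈ U then γ⁻¹ * g i else 0 := by
        intro i _
        simp
      rw [Finset.sum_congr rfl this, Finset.sum_ite_mem, Finset.inter_eq_right.mpr hU]
    · exact (Finset.sum_congr rfl e1).symm
  · congr 2
    have : (T ×ˢ T).filter (fun p => ¬ Disjoint ({p.1} : Finset G) {p.2}) = T.diag := by
      ext p
      simp only [mem_filter, mem_product, Finset.disjoint_singleton, not_not, mem_diag]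
      constructor
      · rintro ⟨⟨h1, h2⟩, h3⟩; exact ⟨h1, h3⟩
      · rintro ⟨h1, h3⟩; exact ⟨⟨h1, h3 ▸ h1⟩, h3⟩
    rw [this, Finset.diag_card]

theorem cnt_filter_inter (T T' : Finset G) (hT : T' ⊆ T) (p : G → Prop) [DecidablePred p]
    (l : List G) (x : G) :
    cnt (T'.filter p) l x = (T' ∩ rep (T.filter p) l x).card := by
  unfold cnt rep
  congr 1
  ext t
  simp only [mem_filter, mem_inter]
  constructor
  · rintro ⟨⟨h1, h2⟩, h3⟩; exact ⟨h1, ⟨hT h1, h2⟩, h3⟩
  · rintro ⟨h1, ⟨_, h2⟩, h3⟩; exact ⟨⟨h1, h2⟩, h3⟩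

theorem EB_var_est {γ : ℝ} (h0 : 0 < γ) (h1 : γ ≤ 1) (T : Finset G) (p : G → Prop)
    [DecidablePred p] (F : ℕ → ℝ) (M : ℝ) (hM : ∀ z, |F z| ≤ M) (l : List G) (y : G) :
    EB γ T (fun T' => EB γ T (fun T0 => (est0 γ F T0 (T'.filter p) l y -
      phi (bin γ F) T (T.filter p) l y) ^ 2)) ≤
      8 * (M / γ) ^ 2 * T.card + 8 * M ^ 2 * ((∑ t ∈ T.filter p, (ct T l y t) ^ 2 : ℕ) : ℝ) := by
  set Y : Finset G → ℝ := fun T' => ∑ t0 ∈ T, F (cnt (T'.filter p) l (y + t0)) with hY
  set P := phi (bin γ F) T (T.filter p) l y with hP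
  have step1 : ∀ T', T' ⊆ T → EB γ T (fun T0 => (est0 γ F T0 (T'.filter p) l y - P) ^ 2) ≤
      8 * (M / γ) ^ 2 * T.card + 2 * (Y T' - P) ^ 2 := by
    intro T' _
    calc EB γ T (fun T0 => (est0 γ F T0 (T'.filter p) l y - P) ^ 2)
        ≤ EB γ T (fun T0 => 2 * (est0 γ F T0 (T'.filter p) l y - Y T') ^ 2 +
            2 * (Y T' - P) ^ 2) := by
          apply EB_mono h0.le h1
          intro U _
          nlinarith [sq_nonneg (est0 γ F U (T'.filter p) l y - Y T' - (Y T' - P))]
      _ = 2 * EB γ T (fun T0 => (est0 γ F T0 (T'.filter p) l y - Y T') ^ 2) +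
            2 * (Y T' - P) ^ 2 := by
          rw [EB_add, EB_const, EB_mul_left]
      _ ≤ _ := by
          have := EB_sample h0 h1 T (fun t0 => F (cnt (T'.filter p) l (y + t0))) M
            (fun t => hM _)
          have e : EB γ T (fun T0 => (est0 γ F T0 (T'.filter p) l y - Y T') ^ 2) ≤
              4 * (M / γ) ^ 2 * T.card := this
          linarith
  have step2 : EB γ T (fun T' => (Y T' - P) ^ 2) ≤
      4 * M ^ 2 * ((∑ t ∈ T.filter p, (ct T l y t) ^ 2 : ℕ) : ℝ) := by
    have h := EB_var h0.le h1 T T (fun t0 => rep (T.filter p) l (y + t0))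
      (fun _ V => F V.card) M (fun i _ U => hM _)
    refine le_trans (le_of_eq ?_) (h.trans ?_)
    · apply EB_congr
      intro U hU
      congr 1
      rw [Finset.sum_sub_distrib]
      congr 1
      · apply Finset.sum_congr rfl
        intro t0 _
        rw [cnt_filter_inter T U hU]
      · rw [hP]
        unfold phi
        apply Finset.sum_congr rfl
        intro t0 _
        rw [EB_inter_card]
        congr 1
        unfold cnt
        congr 1
        apply (Finset.inter_eq_right.mpr _).symm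
        intro t ht
        unfold rep at ht
        exact (mem_filter.mp (mem_filter.mp ht).1).1
    · have h2 := pairs_le T (T.filter p) l y
      have h3 : ((((T ×ˢ T).filter (fun q => ¬ Disjoint (rep (T.filter p) l (y + q.1))
          (rep (T.filter p) l (y + q.2)))).card : ℕ) : ℝ) ≤
          ((∑ t ∈ T.filter p, (ct T l y t) ^ 2 : ℕ) : ℝ) := by exact_mod_cast h2
      apply mul_le_mul_of_nonneg_left h3 (by positivity)
  calc EB γ T (fun T' => EB γ T (fun T0 => (est0 γ F T0 (T'.filter p) l y - P) ^ 2))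
      ≤ EB γ T (fun T' => 8 * (M / γ) ^ 2 * T.card + 2 * (Y T' - P) ^ 2) :=
        EB_mono h0.le h1 step1
    _ = 8 * (M / γ) ^ 2 * T.card + 2 * EB γ T (fun T' => (Y T' - P) ^ 2) := by
        rw [EB_add, EB_const, EB_mul_left]
    _ ≤ _ := by linarith

theorem EB_stepSum (γ : ℝ) (T : Finset G) (g : Finset G → List G → G → ℝ) (L : List G) :
    EB γ T (fun U => stepSum (g U) L) = stepSum (fun l y => EB γ T (fun U => g U l y)) L := by
  induction L with
  | nil => simp [EB_const]
  | cons y l ih =>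
    simp only [stepSum_cons]
    rw [EB_add, ih]

theorem EB_avg (γ : ℝ) (T : Finset G) (g : Finset G → G → ℝ) :
    EB γ T (fun U => avg (g U)) = avg (fun y => EB γ T (fun U => g U y)) := by
  unfold avg
  have : (fun U : Finset G => (∑ y, g U y) / (Fintype.card G : ℝ)) =
      (fun U => (Fintype.card G : ℝ)⁻¹ * ∑ y, g U y) := by
    funext U; rw [div_eq_inv_mul]
  rw [this, EB_mul_left, EB_sum, div_eq_inv_mul]

theorem EB2_lin (γ : ℝ) (T : Finset G) (a1 a2 a3 a4 a5 : ℝ)
    (g1 g2 g3 g4 g5 : Finset G → Finset G → ℝ) :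
    EB γ T (fun T' => EB γ T (fun T0 => a1 * g1 T' T0 + a2 * g2 T' T0 + a3 * g3 T' T0 +
      a4 * g4 T' T0 + a5 * g5 T' T0)) =
    a1 * EB γ T (fun T' => EB γ T (fun T0 => g1 T' T0)) +
    a2 * EB γ T (fun T' => EB γ T (fun T0 => g2 T' T0)) +
    a3 * EB γ T (fun T' => EB γ T (fun T0 => g3 T' T0)) +
    a4 * EB γ T (fun T' => EB γ T (fun T0 => g4 T' T0)) +
    a5 * EB γ T (fun T' => EB γ T (fun T0 => g5 T' T0)) := by
  have h : ∀ T' : Finset G, EB γ T (fun T0 => a1 * g1 T' T0 + a2 * g2 T' T0 + a3 * g3 T' T0 +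
      a4 * g4 T' T0 + a5 * g5 T' T0) = a1 * EB γ T (fun T0 => g1 T' T0) +
      a2 * EB γ T (fun T0 => g2 T' T0) + a3 * EB γ T (fun T0 => g3 T' T0) +
      a4 * EB γ T (fun T0 => g4 T' T0) + a5 * EB γ T (fun T0 => g5 T' T0) := by
    intro T'
    rw [EB_add, EB_add, EB_add, EB_add, EB_mul_left, EB_mul_left, EB_mul_left, EB_mul_left,
      EB_mul_left]
  simp only [h]
  rw [EB_add, EB_add, EB_add, EB_add, EB_mul_left, EB_mul_left, EB_mul_left, EB_mul_left,
      EB_mul_left]

theorem avg_mono {φ ψ : G → ℝ} (h : ∀ y, φ y ≤ ψ y) : avg φ ≤ avg ψ := by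
  unfold avg
  apply div_le_div_of_nonneg_right _ (by positivity)
  exact Finset.sum_le_sum (fun y _ => h y)

theorem avg_add (φ ψ : G → ℝ) : avg (fun y => φ y + ψ y) = avg φ + avg ψ := by
  unfold avg
  rw [Finset.sum_add_distrib, add_div]

theorem avg_mul_left (c : ℝ) (φ : G → ℝ) : avg (fun y => c * φ y) = c * avg φ := by
  unfold avg
  rw [← Finset.mul_sum, mul_div_assoc]

theorem avg_const (c : ℝ) : avg (fun _ : G => c) = c := by
  unfold avg
  have : (0:ℝ) < Fintype.card G := by exact_mod_cast Fintype.card_pos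
  rw [Finset.sum_const, nsmul_eq_mul, Finset.card_univ]
  field_simp

theorem avg_nonneg {φ : G → ℝ} (h : ∀ y, 0 ≤ φ y) : 0 ≤ avg φ := by
  unfold avg
  exact div_nonneg (Finset.sum_nonneg (fun y _ => h y)) (by positivity)

theorem avg_sq_le (φ : G → ℝ) : (avg φ) ^ 2 ≤ avg (fun y => (φ y) ^ 2) := by
  unfold avg
  have hN : (0:ℝ) < Fintype.card G := by exact_mod_cast Fintype.card_pos
  rw [div_pow, div_le_div_iff₀ (by positivity) hN]
  have h := sq_sum_le_card_mul_sum_sq (s := (univ : Finset G)) (f := φ)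
  rw [Finset.card_univ] at h
  calc (∑ y, φ y) ^ 2 * (Fintype.card G : ℝ) ≤
      (Fintype.card G * ∑ y, φ y ^ 2) * (Fintype.card G : ℝ) := by gcongr
    _ = _ := by ring

theorem avg_phi (f : ℕ → ℝ) (T1 T2 : Finset G) (l : List G) :
    avg (fun y => phi f T1 T2 l y) = (T1.card : ℝ) / Fintype.card G * ∑ x, f (cnt T2 l x) := by
  unfold avg phi
  rw [Finset.sum_comm]
  have : ∀ t0 ∈ T1, ∑ y, f (cnt T2 l (y + t0)) = ∑ x, f (cnt T2 l x) := by
    intro t0 _
    exact Equiv.sum_comp (Equiv.addRight t0) (fun x => f (cnt T2 l x))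
  rw [Finset.sum_congr rfl this, Finset.sum_const, nsmul_eq_mul]
  ring

/-- the set of `t` with `t - y` heavy -/
def hit (S : Finset G) (y : G) : Finset G := univ.filter (fun t => t - y ∈ S)

structure Window (γ : ℝ) (F : ℕ → ℝ) (T S : Finset G) (L : List G) (τ E2 E3 : ℝ)
    (T0 T' : Finset G) : Prop where
  sub0 : T0 ⊆ T
  sub' : T' ⊆ T
  c0 : (T0.card : ℝ) ≤ 8 * (γ * τ)
  c' : (T'.card : ℝ) ≤ 8 * (γ * τ)
  q3 : stepSum (fun _ y => if (T' ∩ hit S y).Nonempty then (1:ℝ) else 0) L ≤ 8 * (2 * (γ * τ))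
  q4 : stepSum (fun l y => (est0 γ F T0 (T'.filter (fun t => t - y ∉ S)) l y -
      phi (bin γ F) T (T.filter (fun t => t - y ∉ S)) l y) ^ 2) L ≤ 8 * E2
  q5 : stepSum (fun l _ => avg (fun y => (est0 γ F T0 T' l y - phi (bin γ F) T T l y) ^ 2)) L
      ≤ 8 * E3

theorem exists_window {γ : ℝ} (h0 : 0 < γ) (h1 : γ ≤ 1) (F : ℕ → ℝ) (M : ℝ) (hM0 : 0 < M)
    (hM : ∀ z, |F z| ≤ M) (L : List G) (hL : L.Nodup) (hLpos : 0 < L.length) (D : ℕ)
    (hA : DB D L.toFinset)
    (T : Finset G) (θ τ : ℝ) (hτ : 0 < τ) (hT : (T.card : ℝ) ≤ τ) (hθ : 0 ≤ θ)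
    (n0 : ℕ) (hn1 : 2 * τ ≤ n0 * θ) (hn2 : (n0 : ℝ) ^ 2 * D < τ) :
    ∃ T0 T', Window γ F T (heavy T L.toFinset θ) L τ
      (8 * (M / γ) ^ 2 * τ * L.length + 8 * M ^ 2 * θ * (τ * L.length + τ ^ 2 * D))
      (8 * (M / γ) ^ 2 * τ * L.length +
        8 * M ^ 2 * (L.length * τ / Fintype.card G) * (τ * L.length + τ ^ 2 * D)) T0 T' := by
  set A := L.toFinset with hAdef
  set S := heavy T A θ with hS
  set k : ℝ := (L.length : ℝ) with hk
  have hkpos : 0 < k := by rw [hk]; exact_mod_cast hLpos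
  have hN : (0:ℝ) < Fintype.card G := by exact_mod_cast Fintype.card_pos
  set W : ℝ := τ * k + τ ^ 2 * D with hW
  have hWpos : 0 < W := by positivity
  set E2 : ℝ := 8 * (M / γ) ^ 2 * τ * k + 8 * M ^ 2 * θ * W with hE2
  set E3 : ℝ := 8 * (M / γ) ^ 2 * τ * k + 8 * M ^ 2 * (k * τ / Fintype.card G) * W with hE3
  have hE2pos : 0 < E2 := by positivity
  have hE3pos : 0 < E3 := by positivity
  have hAcard : (A.card : ℝ) = k := by
    rw [hAdef, List.toFinset_card_of_nodup hL]
  have hsqN := sum_hs_sq hA T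
  have hsq : ∑ s, ((hs T A s : ℝ)) ^ 2 ≤ W := by
    have h2 : ((∑ s, (hs T A s) ^ 2 : ℕ) : ℝ) ≤ ((T.card * A.card + T.card ^ 2 * D : ℕ) : ℝ) := by
      exact_mod_cast hsqN
    push_cast at h2
    refine h2.trans ?_
    rw [hAcard, hW]
    gcongr
  -- c_t facts
  have hsuf : ∀ l y, (y :: l) <:+ L → (∀ a ∈ l, a ∈ A) ∧ y ∈ A := by
    intro l y h
    constructor
    · intro a ha
      rw [hAdef, List.mem_toFinset]
      exact h.subset (List.mem_cons_of_mem _ ha)
    · rw [hAdef, List.mem_toFinset]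
      exact h.subset List.mem_cons_self
  -- E of Q1
  have e1 : EB γ T (fun _ => EB γ T (fun T0 => (T0.card : ℝ))) ≤ γ * τ := by
    rw [EB_const, EB_card]
    exact mul_le_mul_of_nonneg_left hT h0.le
  have e2 : EB γ T (fun T' => EB γ T (fun _ => (T'.card : ℝ))) ≤ γ * τ := by
    have : (fun T' : Finset G => EB γ T (fun _ => (T'.card : ℝ))) = (fun T' => (T'.card : ℝ)) := by
      funext T'; rw [EB_const]
    rw [this, EB_card]
    exact mul_le_mul_of_nonneg_left hT h0.le
  have e3 : EB γ T (fun T' => EB γ T (fun _ => stepSum (fun _ y =>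
      if (T' ∩ hit S y).Nonempty then (1:ℝ) else 0) L)) ≤ 2 * (γ * τ) := by
    have : (fun T' : Finset G => EB γ T (fun _ => stepSum (fun _ y =>
      if (T' ∩ hit S y).Nonempty then (1:ℝ) else 0) L)) = (fun T' => stepSum (fun _ y =>
      if (T' ∩ hit S y).Nonempty then (1:ℝ) else 0) L) := by
      funext T'; rw [EB_const]
    rw [this, EB_stepSum]
    calc stepSum (fun _ y => EB γ T (fun T' => if (T' ∩ hit S y).Nonempty then (1:ℝ) else 0)) L
        ≤ stepSum (fun _ y => γ * ((T ∩ hit S y).card : ℝ)) L :=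
          stepSum_mono (fun l y _ => EB_meet_le h0.le h1 T (hit S y))
      _ = ∑ y ∈ A, γ * ((T ∩ hit S y).card : ℝ) :=
          stepSum_map (fun y => γ * ((T ∩ hit S y).card : ℝ)) L hL
      _ = γ * ∑ y ∈ A, ∑ t ∈ T, (fun s => if s ∈ S then (1:ℝ) else 0) (t - y) := by
          rw [Finset.mul_sum]
          apply Finset.sum_congr rfl
          intro y _
          congr 1
          simp only
          rw [← Finset.sum_filter, Finset.sum_const, nsmul_eq_mul, mul_one]
          congr 2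
          ext t
          simp [hit]
      _ = γ * ∑ s, (hs T A s : ℝ) * (if s ∈ S then (1:ℝ) else 0) := by
          rw [sum_sum_sub T A (fun s => if s ∈ S then (1:ℝ) else 0)]
      _ = γ * ∑ s ∈ S, (hs T A s : ℝ) := by
          congr 1
          simp only [mul_ite, mul_one, mul_zero]
          rw [Finset.sum_ite_mem, Finset.univ_inter]
      _ ≤ γ * (2 * τ) := by
          apply mul_le_mul_of_nonneg_left _ h0.le
          exact heavy_sum_le hA T θ τ hT n0 hn1 hn2
      _ = _ := by ring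
  have e4 : EB γ T (fun T' => EB γ T (fun T0 => stepSum (fun l y =>
      (est0 γ F T0 (T'.filter (fun t => t - y ∉ S)) l y -
      phi (bin γ F) T (T.filter (fun t => t - y ∉ S)) l y) ^ 2) L)) ≤ E2 := by
    have : (fun T' : Finset G => EB γ T (fun T0 => stepSum (fun l y =>
      (est0 γ F T0 (T'.filter (fun t => t - y ∉ S)) l y -
      phi (bin γ F) T (T.filter (fun t => t - y ∉ S)) l y) ^ 2) L)) =
      (fun T' => stepSum (fun l y => EB γ T (fun T0 =>
      (est0 γ F T0 (T'.filter (fun t => t - y ∉ S)) l y -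
      phi (bin γ F) T (T.filter (fun t => t - y ∉ S)) l y) ^ 2)) L) := by
      funext T'; rw [EB_stepSum]
    rw [this, EB_stepSum]
    calc _ ≤ stepSum (fun l y => 8 * (M / γ) ^ 2 * τ + 8 * M ^ 2 * θ *
          (∑ t ∈ T, (hs T A (t - y) : ℝ))) L := by
          apply stepSum_mono
          intro l y hly
          refine (EB_var_est h0 h1 T (fun t => t - y ∉ S) F M hM l y).trans ?_
          have a1 : 8 * (M / γ) ^ 2 * (T.card : ℝ) ≤ 8 * (M / γ) ^ 2 * τ := by gcongr
          have a2 : ((∑ t ∈ T.filter (fun t => t - y ∉ S), (ct T l y t) ^ 2 : ℕ) : ℝ) ≤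
              θ * ∑ t ∈ T, (hs T A (t - y) : ℝ) := by
            push_cast
            calc ∑ t ∈ T.filter (fun t => t - y ∉ S), ((ct T l y t : ℝ)) ^ 2
                ≤ ∑ t ∈ T.filter (fun t => t - y ∉ S), θ * (hs T A (t - y) : ℝ) := by
                  apply Finset.sum_le_sum
                  intro t ht
                  have hc : (ct T l y t : ℝ) ≤ hs T A (t - y) := by
                    exact_mod_cast ct_le_hs T A l (hsuf l y hly).1 y t
                  have hnot : (hs T A (t - y) : ℝ) ≤ θ := by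
                    have := (mem_filter.mp ht).2
                    rw [hS] at this
                    unfold heavy at this
                    simp only [mem_filter, mem_univ, true_and, not_le] at this
                    exact this.le
                  have hc0 : (0:ℝ) ≤ ct T l y t := by positivity
                  nlinarith
              _ = θ * ∑ t ∈ T.filter (fun t => t - y ∉ S), (hs T A (t - y) : ℝ) := by
                  rw [Finset.mul_sum]
              _ ≤ _ := by
                  apply mul_le_mul_of_nonneg_left _ hθ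
                  apply Finset.sum_le_sum_of_subset_of_nonneg (Finset.filter_subset _ _)
                  intros; positivity
          have a3 : 8 * M ^ 2 * ((∑ t ∈ T.filter (fun t => t - y ∉ S), (ct T l y t) ^ 2 : ℕ) : ℝ) ≤
              8 * M ^ 2 * (θ * ∑ t ∈ T, (hs T A (t - y) : ℝ)) :=
            mul_le_mul_of_nonneg_left a2 (by positivity)
          calc _ ≤ 8 * (M / γ) ^ 2 * τ + 8 * M ^ 2 * (θ * ∑ t ∈ T, (hs T A (t - y) : ℝ)) :=
                add_le_add a1 a3
            _ = _ := by ring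
      _ = 8 * (M / γ) ^ 2 * τ * k + 8 * M ^ 2 * θ *
          (∑ y ∈ A, ∑ t ∈ T, (hs T A (t - y) : ℝ)) := by
          rw [stepSum_add, stepSum_const, stepSum_mul,
            stepSum_map (fun y => ∑ t ∈ T, (hs T A (t - y) : ℝ)) L hL]
      _ = 8 * (M / γ) ^ 2 * τ * k + 8 * M ^ 2 * θ * (∑ s, ((hs T A s : ℝ)) ^ 2) := by
          rw [sum_sum_sub T A (fun s => (hs T A s : ℝ))]
          congr 2
          apply Finset.sum_congr rfl
          intro s _
          ring
      _ ≤ E2 := by
          rw [hE2]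
          gcongr
  have e5 : EB γ T (fun T' => EB γ T (fun T0 => stepSum (fun l _ =>
      avg (fun y => (est0 γ F T0 T' l y - phi (bin γ F) T T l y) ^ 2)) L)) ≤ E3 := by
    have : (fun T' : Finset G => EB γ T (fun T0 => stepSum (fun l _ =>
      avg (fun y => (est0 γ F T0 T' l y - phi (bin γ F) T T l y) ^ 2)) L)) =
      (fun T' => stepSum (fun l _ => avg (fun y => EB γ T (fun T0 =>
      (est0 γ F T0 T' l y - phi (bin γ F) T T l y) ^ 2))) L) := by
      funext T'
      rw [EB_stepSum]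
      congr 1
      funext l _
      rw [EB_avg]
    rw [this, EB_stepSum]
    calc _ ≤ stepSum (fun (_ : List G) (_ : G) => 8 * (M / γ) ^ 2 * τ + 8 * M ^ 2 *
          (τ / Fintype.card G * W)) L := by
          apply stepSum_mono
          intro l y0 hly
          rw [EB_avg]
          calc _ ≤ avg (fun y : G => 8 * (M / γ) ^ 2 * τ + 8 * M ^ 2 *
                (∑ t ∈ T, ((hs T A (t - y) : ℝ)) ^ 2)) := by
                apply avg_mono
                intro y
                have b1 := EB_var_est h0 h1 T (fun _ => True) F M hM l y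
                simp only [Finset.filter_true] at b1
                refine b1.trans ?_
                have a1 : 8 * (M / γ) ^ 2 * (T.card : ℝ) ≤ 8 * (M / γ) ^ 2 * τ := by gcongr
                have a2 : ((∑ t ∈ T, (ct T l y t) ^ 2 : ℕ) : ℝ) ≤
                    ∑ t ∈ T, ((hs T A (t - y) : ℝ)) ^ 2 := by
                  push_cast
                  apply Finset.sum_le_sum
                  intro t _
                  have hc : (ct T l y t : ℝ) ≤ hs T A (t - y) := by
                    exact_mod_cast ct_le_hs T A l (hsuf l y0 hly).1 y t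
                  gcongr
                exact add_le_add a1 (mul_le_mul_of_nonneg_left a2 (by positivity))
            _ = 8 * (M / γ) ^ 2 * τ + 8 * M ^ 2 *
                ((T.card : ℝ) / Fintype.card G * ∑ s, ((hs T A s : ℝ)) ^ 2) := by
                rw [avg_add, avg_const, avg_mul_left]
                congr 2
                unfold avg
                rw [Finset.sum_comm]
                have : ∀ t ∈ T, ∑ y, ((hs T A (t - y) : ℝ)) ^ 2 = ∑ s, ((hs T A s : ℝ)) ^ 2 := by
                  intro t _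
                  exact (Equiv.subLeft t).sum_comp (fun s => ((hs T A s : ℝ)) ^ 2)
                rw [Finset.sum_congr rfl this, Finset.sum_const, nsmul_eq_mul]
                ring
            _ ≤ _ := by gcongr
      _ = E3 := by
          rw [stepSum_const, hE3]
          simp only [hk]
          ring
  -- combine
  set Z : Finset G → Finset G → ℝ := fun T' T0 =>
    (8 * (γ * τ))⁻¹ * (T0.card : ℝ) + (8 * (γ * τ))⁻¹ * (T'.card : ℝ) +
    (8 * (2 * (γ * τ)))⁻¹ * stepSum (fun _ y => if (T' ∩ hit S y).Nonempty then (1:ℝ) else 0) L +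
    (8 * E2)⁻¹ * stepSum (fun l y => (est0 γ F T0 (T'.filter (fun t => t - y ∉ S)) l y -
      phi (bin γ F) T (T.filter (fun t => t - y ∉ S)) l y) ^ 2) L +
    (8 * E3)⁻¹ * stepSum (fun l _ => avg (fun y => (est0 γ F T0 T' l y -
      phi (bin γ F) T T l y) ^ 2)) L with hZ
  have hγτ : 0 < γ * τ := by positivity
  have hEZ : EB γ T (fun T' => EB γ T (fun T0 => Z T' T0)) < 1 := by
    have hlin : EB γ T (fun T' => EB γ T (fun T0 => Z T' T0)) =
        (8 * (γ * τ))⁻¹ * EB γ T (fun _ => EB γ T (fun T0 => (T0.card : ℝ))) +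
        (8 * (γ * τ))⁻¹ * EB γ T (fun T' => EB γ T (fun _ => (T'.card : ℝ))) +
        (8 * (2 * (γ * τ)))⁻¹ * EB γ T (fun T' => EB γ T (fun _ => stepSum (fun _ y =>
          if (T' ∩ hit S y).Nonempty then (1:ℝ) else 0) L)) +
        (8 * E2)⁻¹ * EB γ T (fun T' => EB γ T (fun T0 => stepSum (fun l y =>
          (est0 γ F T0 (T'.filter (fun t => t - y ∉ S)) l y -
          phi (bin γ F) T (T.filter (fun t => t - y ∉ S)) l y) ^ 2) L)) +
        (8 * E3)⁻¹ * EB γ T (fun T' => EB γ T (fun T0 => stepSum (fun l _ =>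
          avg (fun y => (est0 γ F T0 T' l y - phi (bin γ F) T T l y) ^ 2)) L)) := by
      exact EB2_lin γ T _ _ _ _ _ (fun _ T0 => (T0.card : ℝ)) (fun T' _ => (T'.card : ℝ))
        (fun T' _ => stepSum (fun _ y =>
          if (T' ∩ hit S y).Nonempty then (1:ℝ) else 0) L)
        (fun T' T0 => stepSum (fun l y =>
          (est0 γ F T0 (T'.filter (fun t => t - y ∉ S)) l y -
          phi (bin γ F) T (T.filter (fun t => t - y ∉ S)) l y) ^ 2) L)
        (fun T' T0 => stepSum (fun l _ =>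
          avg (fun y => (est0 γ F T0 T' l y - phi (bin γ F) T T l y) ^ 2)) L)
    rw [hlin]
    have c1 : (8 * (γ * τ))⁻¹ * EB γ T (fun _ => EB γ T (fun T0 => (T0.card : ℝ))) ≤ 1/8 := by
      rw [inv_mul_le_iff₀ (by positivity)]; linarith
    have c2 : (8 * (γ * τ))⁻¹ * EB γ T (fun T' => EB γ T (fun _ => (T'.card : ℝ))) ≤ 1/8 := by
      rw [inv_mul_le_iff₀ (by positivity)]; linarith
    have c3 : (8 * (2 * (γ * τ)))⁻¹ * EB γ T (fun T' => EB γ T (fun _ => stepSum (fun _ y =>
          if (T' ∩ hit S y).Nonempty then (1:ℝ) else 0) L)) ≤ 1/8 := by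
      rw [inv_mul_le_iff₀ (by positivity)]; linarith
    have c4 : (8 * E2)⁻¹ * EB γ T (fun T' => EB γ T (fun T0 => stepSum (fun l y =>
          (est0 γ F T0 (T'.filter (fun t => t - y ∉ S)) l y -
          phi (bin γ F) T (T.filter (fun t => t - y ∉ S)) l y) ^ 2) L)) ≤ 1/8 := by
      rw [inv_mul_le_iff₀ (by positivity)]; linarith
    have c5 : (8 * E3)⁻¹ * EB γ T (fun T' => EB γ T (fun T0 => stepSum (fun l _ =>
          avg (fun y => (est0 γ F T0 T' l y - phi (bin γ F) T T l y) ^ 2)) L)) ≤ 1/8 := by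
      rw [inv_mul_le_iff₀ (by positivity)]; linarith
    linarith
  obtain ⟨T', hT', hZ'⟩ := exists_lt_of_EB_lt h0.le h1 hEZ
  obtain ⟨T0, hT0, hZ0⟩ := exists_lt_of_EB_lt h0.le h1 hZ'
  refine ⟨T0, T', ?_⟩
  have d1 : 0 ≤ (8 * (γ * τ))⁻¹ * (T0.card : ℝ) := by positivity
  have d2 : 0 ≤ (8 * (γ * τ))⁻¹ * (T'.card : ℝ) := by positivity
  have d3 : 0 ≤ (8 * (2 * (γ * τ)))⁻¹ *
      stepSum (fun _ y => if (T' ∩ hit S y).Nonempty then (1:ℝ) else 0) L := by
    apply mul_nonneg (by positivity)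
    apply stepSum_nonneg
    intro l y _
    split_ifs <;> norm_num
  have d4 : 0 ≤ (8 * E2)⁻¹ * stepSum (fun l y => (est0 γ F T0 (T'.filter (fun t => t - y ∉ S)) l y -
      phi (bin γ F) T (T.filter (fun t => t - y ∉ S)) l y) ^ 2) L :=
    mul_nonneg (by positivity) (stepSum_nonneg (fun _ _ _ => sq_nonneg _))
  have d5 : 0 ≤ (8 * E3)⁻¹ * stepSum (fun l _ => avg (fun y => (est0 γ F T0 T' l y -
      phi (bin γ F) T T l y) ^ 2)) L :=
    mul_nonneg (by positivity) (stepSum_nonneg (fun _ _ _ => avg_nonneg (fun _ => sq_nonneg _)))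
  have hZ0' : (8 * (γ * τ))⁻¹ * (T0.card : ℝ) + (8 * (γ * τ))⁻¹ * (T'.card : ℝ) +
    (8 * (2 * (γ * τ)))⁻¹ * stepSum (fun _ y => if (T' ∩ hit S y).Nonempty then (1:ℝ) else 0) L +
    (8 * E2)⁻¹ * stepSum (fun l y => (est0 γ F T0 (T'.filter (fun t => t - y ∉ S)) l y -
      phi (bin γ F) T (T.filter (fun t => t - y ∉ S)) l y) ^ 2) L +
    (8 * E3)⁻¹ * stepSum (fun l _ => avg (fun y => (est0 γ F T0 T' l y -
      phi (bin γ F) T T l y) ^ 2)) L < 1 := hZ0
  refine ⟨hT0, hT', ?_, ?_, ?_, ?_, ?_⟩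
  · have : (8 * (γ * τ))⁻¹ * (T0.card : ℝ) ≤ 1 := by linarith
    rw [inv_mul_le_iff₀ (by positivity)] at this; linarith
  · have : (8 * (γ * τ))⁻¹ * (T'.card : ℝ) ≤ 1 := by linarith
    rw [inv_mul_le_iff₀ (by positivity)] at this; linarith
  · have : (8 * (2 * (γ * τ)))⁻¹ *
        stepSum (fun _ y => if (T' ∩ hit S y).Nonempty then (1:ℝ) else 0) L ≤ 1 := by linarith
    rw [inv_mul_le_iff₀ (by positivity)] at this; linarith
  · have : (8 * E2)⁻¹ * stepSum (fun l y =>
      (est0 γ F T0 (T'.filter (fun t => t - y ∉ S)) l y -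
      phi (bin γ F) T (T.filter (fun t => t - y ∉ S)) l y) ^ 2) L ≤ 1 := by linarith
    rw [inv_mul_le_iff₀ (by positivity)] at this; linarith
  · have : (8 * E3)⁻¹ * stepSum (fun l _ => avg (fun y => (est0 γ F T0 T' l y -
      phi (bin γ F) T T l y) ^ 2)) L ≤ 1 := by linarith
    rw [inv_mul_le_iff₀ (by positivity)] at this; linarith

end Pool.Agent.Helper274.Cover
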