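import Mathlib
import Pool.Agent.Helper274.CoverA
import Pool.Agent.Helper274.CoverB
import Pool.Agent.Helper274.CoverC
import Pool.Agent.Helper274.CoverD

set_option autoImplicit false
set_option linter.unusedSectionVars false

open Finset

namespace Pool.Agent.Helper274.Cover

variable {G : Type*} [AddCommGroup G] [Fintype G] [DecidableEq G]

/-- clip to `[0,b]` -/
noncomputable def clip (b x : ℝ) : ℝ := max 0 (min x b)

theorem clip_nonneg (b x : ℝ) : 0 ≤ clip b x := le_max_left _ _
theorem clip_le {b : ℝ} (hb : 0 ≤ b) (x : ℝ) : clip b x ≤ b := max_le hb (min_le_right _ _)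
theorem clip_of_nonneg {b x : ℝ} (hb : 0 ≤ b) (hx : 0 ≤ x) : clip b x = min x b :=
  max_eq_right (le_min hx hb)
theorem clip_le_add (b x x' : ℝ) : clip b x ≤ clip b x' + |x' - x| := by
  unfold clip
  have h0 := abs_nonneg (x' - x)
  have h1 := neg_abs_le (x' - x)
  apply max_le
  · have := le_max_left 0 (min x' b); linarith
  · rcases le_total x' b with h | h
    · rw [min_eq_left h]
      have := le_max_right 0 x'
      calc min x b ≤ x := min_le_left _ _
        _ ≤ _ := by linarith
    · rw [min_eq_right h]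
      have := le_max_right 0 b
      calc min x b ≤ b := min_le_right _ _
        _ ≤ _ := by linarith

/-- indicator of a time window -/
noncomputable def ind (i0 j0 : ℕ) (l : List G) : ℝ :=
  if i0 ≤ l.length ∧ l.length < j0 then 1 else 0

theorem ind_nonneg (i0 j0 : ℕ) (l : List G) : 0 ≤ ind i0 j0 l := by
  unfold ind; split_ifs <;> norm_num
theorem ind_le_one (i0 j0 : ℕ) (l : List G) : ind i0 j0 l ≤ 1 := by
  unfold ind; split_ifs <;> norm_num

def AzGood (γ : ℝ) (F : ℕ → ℝ) (w b s : ℝ) (L : List G) : Prop :=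
  ∀ T0 T' : Finset G, (T0.card : ℝ) ≤ w → (T'.card : ℝ) ≤ w →
    ∀ i0 j0 : ℕ, i0 ≤ L.length → j0 ≤ L.length →
    stepSum (fun l y => ind i0 j0 l * clip b (est0 γ F T0 T' l y) -
      avg (fun y => ind i0 j0 l * clip b (est0 γ F T0 T' l y))) L ≤ s

theorem stepSum_abs_le {α : Type*} (g : List α → α → ℝ) (L : List α) :
    stepSum (fun l y => |g l y|) L ≤ √(L.length * stepSum (fun l y => (g l y) ^ 2) L) := by
  apply Real.le_sqrt_of_sq_le
  have := stepSum_sq_le (fun l y => |g l y|) L
  simpa [sq_abs] using this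

theorem transfer {γ : ℝ} {F : ℕ → ℝ} {T S : Finset G} {L : List G} {τ E2 E3 : ℝ}
    {T0 T' : Finset G} (hwin : Window γ F T S L τ E2 E3 T0 T')
    {b s : ℝ} (hgood : AzGood γ F (8 * (γ * τ)) b s L) (hf : ∀ r, 0 ≤ bin γ F r) (hb : 0 ≤ b)
    (i0 j0 : ℕ) (hi0 : i0 ≤ L.length) (hj0 : j0 ≤ L.length) :
    stepSum (fun l y => ind i0 j0 l *
      min (phi (bin γ F) T (T.filter (fun t => t - y ∉ S)) l y) b) L ≤
    stepSum (fun l _ => ind i0 j0 l *
      ((T.card : ℝ) / Fintype.card G * ∑ x, bin γ F (cnt T l x))) L +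
      (s + √(L.length * (8 * E2)) + √(L.length * (8 * E3)) + 8 * (2 * (γ * τ)) * b) := by
  have hpt : ∀ l y, ind i0 j0 l *
      min (phi (bin γ F) T (T.filter (fun t => t - y ∉ S)) l y) b ≤
      (ind i0 j0 l * clip b (est0 γ F T0 T' l y) -
        avg (fun y => ind i0 j0 l * clip b (est0 γ F T0 T' l y))) +
      ind i0 j0 l * ((T.card : ℝ) / Fintype.card G * ∑ x, bin γ F (cnt T l x)) +
      |avg (fun y => |est0 γ F T0 T' l y - phi (bin γ F) T T l y|)| +
      |est0 γ F T0 (T'.filter (fun t => t - y ∉ S)) l y -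
        phi (bin γ F) T (T.filter (fun t => t - y ∉ S)) l y| +
      b * (if (T' ∩ hit S y).Nonempty then (1:ℝ) else 0) := by
    intro l y
    set Pm := phi (bin γ F) T (T.filter (fun t => t - y ∉ S)) l y with hPm
    set Xm := est0 γ F T0 (T'.filter (fun t => t - y ∉ S)) l y with hXm
    set X := est0 γ F T0 T' l y with hX
    have hPm0 : 0 ≤ Pm := Finset.sum_nonneg (fun t _ => hf _)
    have a1 : min Pm b ≤ clip b Xm + |Xm - Pm| := by
      rw [← clip_of_nonneg hb hPm0]
      exact clip_le_add b Pm Xm
    have a2 : clip b Xm ≤ clip b X + b * (if (T' ∩ hit S y).Nonempty then (1:ℝ) else 0) := by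
      split_ifs with h
      · have := clip_le hb Xm
        have := clip_nonneg b X
        linarith
      · have : T'.filter (fun t => t - y ∉ S) = T' := by
          rw [Finset.filter_eq_self]
          intro t ht hts
          apply h
          exact ⟨t, by simp [hit, ht, hts]⟩
        rw [hXm, this]
        simp [hX]
    have a3 : avg (fun y => ind i0 j0 l * clip b (est0 γ F T0 T' l y)) ≤
        ind i0 j0 l * ((T.card : ℝ) / Fintype.card G * ∑ x, bin γ F (cnt T l x)) +
        |avg (fun y => |est0 γ F T0 T' l y - phi (bin γ F) T T l y|)| := by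
      rw [← avg_phi (bin γ F) T T l, ← avg_mul_left]
      calc avg (fun y => ind i0 j0 l * clip b (est0 γ F T0 T' l y)) ≤
          avg (fun y => ind i0 j0 l * phi (bin γ F) T T l y +
            |est0 γ F T0 T' l y - phi (bin γ F) T T l y|) := by
            apply avg_mono
            intro y'
            set P' := phi (bin γ F) T T l y'
            set X' := est0 γ F T0 T' l y'
            have hP'0 : 0 ≤ P' := Finset.sum_nonneg (fun t _ => hf _)
            have b1 : clip b X' ≤ P' + |X' - P'| := by
              have := clip_le_add b X' P'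
              rw [clip_of_nonneg hb hP'0, abs_sub_comm] at this
              have h2 := min_le_left P' b
              linarith
            have b2 := ind_nonneg i0 j0 l
            have b3 := ind_le_one i0 j0 l
            have b4 := abs_nonneg (X' - P')
            calc ind i0 j0 l * clip b X' ≤ ind i0 j0 l * (P' + |X' - P'|) :=
                  mul_le_mul_of_nonneg_left b1 b2
              _ = ind i0 j0 l * P' + ind i0 j0 l * |X' - P'| := by ring
              _ ≤ ind i0 j0 l * P' + 1 * |X' - P'| := by gcongr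
              _ = _ := by ring
        _ = _ + avg (fun y => |est0 γ F T0 T' l y - phi (bin γ F) T T l y|) := by
            rw [avg_add]
        _ ≤ _ := by
            have := le_abs_self (avg (fun y => |est0 γ F T0 T' l y - phi (bin γ F) T T l y|))
            linarith
    have b2 := ind_nonneg i0 j0 l
    have b3 := ind_le_one i0 j0 l
    have c0 : 0 ≤ |Xm - Pm| := abs_nonneg _
    have c1 : 0 ≤ b * (if (T' ∩ hit S y).Nonempty then (1:ℝ) else 0) := by
      split_ifs <;> linarith
    have a4 : ind i0 j0 l * min Pm b ≤ ind i0 j0 l * clip b X + |Xm - Pm| +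
        b * (if (T' ∩ hit S y).Nonempty then (1:ℝ) else 0) := by
      calc ind i0 j0 l * min Pm b ≤ ind i0 j0 l * (clip b X +
            (b * (if (T' ∩ hit S y).Nonempty then (1:ℝ) else 0) + |Xm - Pm|)) :=
            mul_le_mul_of_nonneg_left (by linarith) b2
        _ = ind i0 j0 l * clip b X + ind i0 j0 l *
            (b * (if (T' ∩ hit S y).Nonempty then (1:ℝ) else 0) + |Xm - Pm|) := by ring
        _ ≤ ind i0 j0 l * clip b X + 1 *
            (b * (if (T' ∩ hit S y).Nonempty then (1:ℝ) else 0) + |Xm - Pm|) := by gcongr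
        _ = _ := by ring
    linarith
  refine (stepSum_mono (fun l y _ => hpt l y)).trans ?_
  rw [stepSum_add, stepSum_add, stepSum_add, stepSum_add, stepSum_mul]
  have h1 := hgood T0 T' hwin.c0 hwin.c' i0 j0 hi0 hj0
  have h2 : stepSum (fun l (_ : G) => |avg (fun y => |est0 γ F T0 T' l y -
      phi (bin γ F) T T l y|)|) L ≤ √(L.length * (8 * E3)) := by
    refine (stepSum_abs_le (fun l (_ : G) => avg (fun y => |est0 γ F T0 T' l y -
      phi (bin γ F) T T l y|)) L).trans ?_
    apply Real.sqrt_le_sqrt
    apply mul_le_mul_of_nonneg_left _ (by positivity)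
    refine le_trans ?_ hwin.q5
    apply stepSum_mono
    intro l y _
    refine (avg_sq_le _).trans ?_
    apply avg_mono
    intro y'
    rw [sq_abs]
  have h3 : stepSum (fun l y => |est0 γ F T0 (T'.filter (fun t => t - y ∉ S)) l y -
        phi (bin γ F) T (T.filter (fun t => t - y ∉ S)) l y|) L ≤ √(L.length * (8 * E2)) := by
    refine (stepSum_abs_le (fun l y => est0 γ F T0 (T'.filter (fun t => t - y ∉ S)) l y -
        phi (bin γ F) T (T.filter (fun t => t - y ∉ S)) l y) L).trans ?_
    apply Real.sqrt_le_sqrt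
    apply mul_le_mul_of_nonneg_left _ (by positivity)
    exact hwin.q4
  have h4 : b * stepSum (fun (_ : List G) y => if (T' ∩ hit S y).Nonempty then (1:ℝ) else 0) L ≤
      b * (8 * (2 * (γ * τ))) := mul_le_mul_of_nonneg_left hwin.q3 hb
  linarith

end Pool.Agent.Helper274.Cover
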