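import Mathlib
import Pool.Agent.Helper274.CoverA
import Pool.Agent.Helper274.CoverB
import Pool.Agent.Helper274.CoverC
import Pool.Agent.Helper274.CoverD
import Pool.Agent.Helper274.CoverE

set_option autoImplicit false
set_option linter.unusedSectionVars false

open Finset

namespace Pool.Agent.Helper274.Cover

variable {G : Type*} [AddCommGroup G] [Fintype G] [DecidableEq G]

open Classical in
/-- number of sequences of length `k` violating `P` -/
noncomputable def bad (k : ℕ) (P : List G → Prop) : ℝ :=
  ((univ.filter (fun a : Fin k → G => ¬ P (List.ofFn a))).card : ℝ)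

theorem bad_mono {k : ℕ} {P Q : List G → Prop} (h : ∀ L, L.length = k → P L → Q L) :
    bad k Q ≤ bad k P := by
  classical
  unfold bad
  norm_cast
  apply Finset.card_le_card
  intro a ha
  rw [mem_filter] at ha ⊢
  refine ⟨mem_univ _, fun hP => ha.2 (h _ (by simp) hP)⟩

theorem bad_and (k : ℕ) (P Q : List G → Prop) :
    bad k (fun L => P L ∧ Q L) ≤ bad k P + bad k Q := by
  classical
  unfold bad
  norm_cast
  refine le_trans ?_ (Finset.card_union_le _ _)
  apply Finset.card_le_card
  intro a ha
  simp only [mem_filter, mem_union, mem_univ, true_and] at ha ⊢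
  tauto

theorem bad_forall {ι : Type*} (k : ℕ) (I : Finset ι) (P : ι → List G → Prop) :
    bad k (fun L => ∀ i ∈ I, P i L) ≤ ∑ i ∈ I, bad k (P i) := by
  classical
  unfold bad
  norm_cast
  refine le_trans ?_ Finset.card_biUnion_le
  apply Finset.card_le_card
  intro a ha
  simp only [mem_filter, mem_biUnion, mem_univ, true_and] at ha ⊢
  push Not at ha
  exact ha

theorem bad_forall_le {ι : Type*} (k : ℕ) (I : Finset ι) (P : ι → List G → Prop) (c : ℝ)
    (h : ∀ i ∈ I, bad k (P i) ≤ c) :
    bad k (fun L => ∀ i ∈ I, P i L) ≤ I.card * c := by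
  refine (bad_forall k I P).trans ?_
  refine (Finset.sum_le_sum h).trans ?_
  rw [Finset.sum_const, nsmul_eq_mul]

/-- number of small subsets -/
theorem card_small_subsets (w : ℕ) :
    (((univ : Finset (Finset G)).filter (fun T => T.card ≤ w)).card : ℝ) ≤
      ((Fintype.card G : ℝ) + 1) ^ w := by
  have h1 : ((univ : Finset (Finset G)).filter (fun T => T.card ≤ w)) ⊆
      (Finset.range (w + 1)).biUnion (fun i => powersetCard i (univ : Finset G)) := by
    intro T hT
    rw [mem_filter] at hT
    rw [mem_biUnion]
    exact ⟨T.card, mem_range.mpr (Nat.lt_succ_of_le hT.2), by simp [mem_powersetCard]⟩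
  have h2 := (Finset.card_le_card h1).trans Finset.card_biUnion_le
  simp only [Finset.card_powersetCard, Finset.card_univ] at h2
  have h3 : ∑ i ∈ Finset.range (w + 1), (Fintype.card G).choose i ≤ (Fintype.card G + 1) ^ w := by
    calc ∑ i ∈ Finset.range (w + 1), (Fintype.card G).choose i ≤
        ∑ i ∈ Finset.range (w + 1), (Fintype.card G) ^ i :=
          Finset.sum_le_sum (fun i _ => Nat.choose_le_pow _ _)
      _ ≤ _ := by
        induction w with
        | zero => simp
        | succ w ih =>
          rw [Finset.sum_range_succ]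
          have := ih (by
            intro T hT
            rw [mem_filter] at hT
            rw [mem_biUnion]
            exact ⟨T.card, mem_range.mpr (Nat.lt_succ_of_le hT.2), by simp [mem_powersetCard]⟩)
            (by
              have h1' : ((univ : Finset (Finset G)).filter (fun T => T.card ≤ w)) ⊆
                  (Finset.range (w + 1)).biUnion (fun i => powersetCard i (univ : Finset G)) := by
                intro T hT
                rw [mem_filter] at hT
                rw [mem_biUnion]
                exact ⟨T.card, mem_range.mpr (Nat.lt_succ_of_le hT.2), by simp [mem_powersetCard]⟩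
              have h2' := (Finset.card_le_card h1').trans Finset.card_biUnion_le
              simp only [Finset.card_powersetCard, Finset.card_univ] at h2'
              exact h2')
          calc _ ≤ (Fintype.card G + 1) ^ w + (Fintype.card G) ^ w * Fintype.card G := by
                rw [pow_succ (Fintype.card G) w]; omega
            _ ≤ (Fintype.card G + 1) ^ w + (Fintype.card G + 1) ^ w * Fintype.card G := by
                gcongr; omega
            _ = _ := by ring
  have h4 := h2.trans h3
  exact_mod_cast h4

theorem bad_azGood_le (k : ℕ) (γ : ℝ) (F : ℕ → ℝ) (w b s lam : ℝ) (hb : 0 ≤ b)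
    (hlam : 0 < lam) (hlb : lam * b ≤ 1) :
    bad k (fun L : List G => AzGood γ F w b s L) ≤
      ((Fintype.card G : ℝ) + 1) ^ (2 * ⌊w⌋₊) * ((k : ℝ) + 1) ^ 2 *
        ((Fintype.card G : ℝ) ^ k * Real.exp (k * (lam * b) ^ 2 - lam * s)) := by
  classical
  set I : Finset ((Finset G × Finset G) × (ℕ × ℕ)) :=
    (((univ : Finset (Finset G)).filter (fun T => T.card ≤ ⌊w⌋₊)) ×ˢ
      ((univ : Finset (Finset G)).filter (fun T => T.card ≤ ⌊w⌋₊))) ×ˢ
      ((Finset.range (k + 1)) ×ˢ (Finset.range (k + 1))) with hI
  set g : (Finset G × Finset G) × (ℕ × ℕ) → List G → G → ℝ := fun p l y =>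
    ind p.2.1 p.2.2 l * clip b (est0 γ F p.1.1 p.1.2 l y) with hg
  have h1 : bad k (fun L : List G => AzGood γ F w b s L) ≤
      bad k (fun L : List G => ∀ p ∈ I, stepSum (fun l y => g p l y - avg (g p l)) L < s) := by
    apply bad_mono
    intro L hL hall T0 T' hT0 hT' i0 j0 hi0 hj0
    have hm : ((T0, T'), (i0, j0)) ∈ I := by
      rw [hI]
      simp only [mem_product, mem_filter, mem_univ, true_and, mem_range]
      refine ⟨⟨Nat.le_floor hT0, Nat.le_floor hT'⟩, by omega, by omega⟩
    have := hall _ hm
    exact this.le
  refine h1.trans ?_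
  refine (bad_forall_le k I _ ((Fintype.card G : ℝ) ^ k *
    Real.exp (k * (lam * b) ^ 2 - lam * s)) ?_).trans ?_
  · intro p _
    have haz := azuma (g p) b lam s k hlam.le hlb
      (fun l y => mul_nonneg (ind_nonneg _ _ _) (clip_nonneg _ _))
      (fun l y => by
        calc g p l y ≤ 1 * b := mul_le_mul (ind_le_one _ _ _) (clip_le hb _) (clip_nonneg _ _)
              zero_le_one
          _ = b := one_mul b)
    refine le_trans (le_of_eq ?_) haz
    unfold bad
    congr 2
    ext a
    simp only [mem_filter, mem_univ, true_and, not_lt]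
  · have hc := card_small_subsets (G := G) ⌊w⌋₊
    have hIc : (I.card : ℝ) ≤ ((Fintype.card G : ℝ) + 1) ^ (2 * ⌊w⌋₊) * ((k : ℝ) + 1) ^ 2 := by
      rw [hI, Finset.card_product, Finset.card_product, Finset.card_product]
      push_cast
      rw [Finset.card_range]
      push_cast
      have h0 : (0:ℝ) ≤ (((univ : Finset (Finset G)).filter (fun T => T.card ≤ ⌊w⌋₊)).card : ℝ) := by
        positivity
      calc _ ≤ (((Fintype.card G : ℝ) + 1) ^ ⌊w⌋₊ * ((Fintype.card G : ℝ) + 1) ^ ⌊w⌋₊) *
            (((k:ℝ) + 1) * ((k:ℝ) + 1)) := by gcongr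
        _ = _ := by rw [two_mul, pow_add]; ring
    have : 0 ≤ (Fintype.card G : ℝ) ^ k * Real.exp (k * (lam * b) ^ 2 - lam * s) := by positivity
    exact mul_le_mul_of_nonneg_right hIc this

/-! ### Bounded difference multiplicities -/

/-- increments of the number of pairs with difference `d` -/
noncomputable def psi (d : G) (l : List G) (y : G) : ℝ :=
  (if y - d ∈ l then 1 else 0) + (if y + d ∈ l then 1 else 0)

theorem card_diff_le_stepSum (d : G) (hd : d ≠ 0) (L : List G) (hL : L.Nodup) :
    ((L.toFinset.filter (fun y => y - d ∈ L.toFinset)).card : ℝ) ≤ stepSum (psi d) L := by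
  induction L with
  | nil => simp
  | cons y l ih =>
    rw [List.nodup_cons] at hL
    have ih' := ih hL.2
    rw [stepSum_cons]
    have hsub : ((y :: l).toFinset.filter (fun z => z - d ∈ (y :: l).toFinset)) ⊆
        (l.toFinset.filter (fun z => z - d ∈ l.toFinset)) ∪
        ((if y - d ∈ l then {y} else ∅) ∪ (if y + d ∈ l then {y + d} else ∅)) := by
      intro z hz
      simp only [mem_filter, List.mem_toFinset, List.mem_cons, mem_union] at hz ⊢
      obtain ⟨h1 | h1, h2 | h2⟩ := hz
      · exfalso
        subst h1
        exact hd (by simpa using h2)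
      · right; left
        subst h1
        rw [if_pos h2]; simp
      · right; right
        have : y + d = z := by rw [← h2]; abel
        rw [this, if_pos h1]; simp
      · left; exact ⟨h1, h2⟩
    have hc := (Finset.card_le_card hsub).trans ((Finset.card_union_le _ _).trans
      (Nat.add_le_add_left (Finset.card_union_le _ _) _))
    have hc' : (((y :: l).toFinset.filter (fun z => z - d ∈ (y :: l).toFinset)).card : ℝ) ≤
      ((l.toFinset.filter (fun z => z - d ∈ l.toFinset)).card : ℝ) +
        ((((if y - d ∈ l then ({y} : Finset G) else ∅)).card : ℝ) +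
        (((if y + d ∈ l then ({y + d} : Finset G) else ∅)).card : ℝ)) := by exact_mod_cast hc
    unfold psi
    have e1 : ((((if y - d ∈ l then ({y} : Finset G) else ∅)).card : ℝ)) =
        (if y - d ∈ l then 1 else 0) := by split_ifs <;> simp
    have e2 : (((if y + d ∈ l then ({y + d} : Finset G) else ∅)).card : ℝ) =
        (if y + d ∈ l then 1 else 0) := by split_ifs <;> simp
    rw [e1, e2] at hc'
    have : stepSum (psi d) l = stepSum (fun l y => (if y - d ∈ l then 1 else 0) + (if y + d ∈ l then 1 else 0)) l := rfl
    linarith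

theorem sum_exp_psi_le (d : G) (l : List G) :
    ∑ y, Real.exp (psi d l y) ≤ Fintype.card G + 2 * (Real.exp 2) * l.length := by
  have hpt : ∀ y, Real.exp (psi d l y) ≤ 1 + Real.exp 2 * ((if y - d ∈ l then 1 else 0) +
      (if y + d ∈ l then 1 else 0)) := by
    intro y
    unfold psi
    have e0 := Real.exp_pos 2
    have e1 : Real.exp 1 ≤ Real.exp 2 := Real.exp_le_exp.mpr (by norm_num)
    split_ifs
    · norm_num; linarith
    · norm_num; linarith
    · norm_num; linarith
    · norm_num
  have hcount : ∀ e : G, ∑ y : G, (if y + e ∈ l then (1:ℝ) else 0) ≤ l.length := by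
    intro e
    have h1 : ∑ y : G, (if y + e ∈ l then (1:ℝ) else 0) = ∑ x : G, (if x ∈ l then (1:ℝ) else 0) :=
      Equiv.sum_comp (Equiv.addRight e) (fun x => if x ∈ l then (1:ℝ) else 0)
    rw [h1, ← Finset.sum_filter, Finset.sum_const, nsmul_eq_mul, mul_one]
    have h2 : (univ.filter (fun x => x ∈ l)) = l.toFinset := by ext; simp
    rw [h2]
    exact_mod_cast List.toFinset_card_le l
  calc ∑ y, Real.exp (psi d l y) ≤ ∑ y : G, (1 + Real.exp 2 * ((if y - d ∈ l then 1 else 0) +
      (if y + d ∈ l then 1 else 0))) := Finset.sum_le_sum (fun y _ => hpt y)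
    _ = Fintype.card G + Real.exp 2 * (∑ y : G, (if y + (-d) ∈ l then (1:ℝ) else 0) +
        ∑ y : G, (if y + d ∈ l then (1:ℝ) else 0)) := by
        rw [Finset.sum_add_distrib, ← Finset.mul_sum, Finset.sum_add_distrib]
        simp [sub_eq_add_neg]
    _ ≤ Fintype.card G + Real.exp 2 * (l.length + l.length) := by
        have := hcount (-d)
        have := hcount d
        gcongr
    _ = _ := by ring

theorem bad_DB_le (k D : ℕ) (hk : k ^ 2 ≤ Fintype.card G) :
    bad k (fun L : List G => L.Nodup → DB D L.toFinset) ≤
      (Fintype.card G : ℝ) ^ k * (Fintype.card G * Real.exp (16 - D)) := by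
  classical
  have hN : (0:ℝ) < Fintype.card G := by exact_mod_cast Fintype.card_pos
  have h1 : bad k (fun L : List G => L.Nodup → DB D L.toFinset) ≤
      bad k (fun L : List G => ∀ d ∈ (univ : Finset G), stepSum (psi d) L < D) := by
    apply bad_mono
    intro L _ hall hnd d hd
    have h2 := card_diff_le_stepSum d hd L hnd
    have h3 := hall d (mem_univ _)
    have : ((L.toFinset.filter (fun y => y - d ∈ L.toFinset)).card : ℝ) ≤ D := by linarith
    exact_mod_cast this
  refine h1.trans ?_
  refine (bad_forall_le k univ _ ((Fintype.card G : ℝ) ^ k * Real.exp (16 - D)) ?_).trans ?_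
  · intro d _
    have h := card_stepSum_ge_le (psi d) (Fintype.card G + 2 * (Real.exp 2) * k) D (by positivity) k
      (by
        intro l hl
        refine (sum_exp_psi_le d l).trans ?_
        have : (l.length : ℝ) ≤ k := by exact_mod_cast hl.le
        gcongr)
    have e : bad k (fun L : List G => stepSum (psi d) L < D) ≤
        ((Fintype.card G : ℝ) + 2 * (Real.exp 2) * k) ^ k * Real.exp (-D) := by
      refine le_trans (le_of_eq ?_) h
      unfold bad
      congr 2
      ext a
      simp only [mem_filter, mem_univ, true_and, not_lt]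
    refine e.trans ?_
    have h2 : ((Fintype.card G : ℝ) + 2 * (Real.exp 2) * k) ^ k ≤
        (Fintype.card G : ℝ) ^ k * Real.exp 16 := by
      have e1 : (Fintype.card G : ℝ) + 2 * (Real.exp 2) * k =
          Fintype.card G * (1 + 2 * (Real.exp 2) * k / Fintype.card G) := by
        field_simp
      rw [e1, mul_pow]
      apply mul_le_mul_of_nonneg_left _ (by positivity)
      have e2 := Real.add_one_le_exp (2 * (Real.exp 2) * k / (Fintype.card G : ℝ))
      calc (1 + 2 * (Real.exp 2) * k / (Fintype.card G : ℝ)) ^ k ≤
          (Real.exp (2 * (Real.exp 2) * k / (Fintype.card G : ℝ))) ^ k := by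
            apply pow_le_pow_left₀ (by positivity)
            linarith
        _ = Real.exp (k * (2 * (Real.exp 2) * k / (Fintype.card G : ℝ))) := by
            rw [← Real.exp_nat_mul]
        _ ≤ Real.exp 16 := by
            apply Real.exp_le_exp.mpr
            have hk' : (k:ℝ) ^ 2 ≤ Fintype.card G := by exact_mod_cast hk
            have hexp : Real.exp 2 ≤ 8 := by
              have h27 : Real.exp 1 < 2.7182818286 := Real.exp_one_lt_d9
              have : Real.exp 2 = Real.exp 1 * Real.exp 1 := by rw [← Real.exp_add]; norm_num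
              rw [this]
              have h0 := Real.exp_pos 1
              nlinarith
            calc (k:ℝ) * (2 * (Real.exp 2) * k / (Fintype.card G : ℝ)) =
                2 * Real.exp 2 * ((k:ℝ) ^ 2 / Fintype.card G) := by ring
              _ ≤ 2 * Real.exp 2 * 1 := by
                apply mul_le_mul_of_nonneg_left _ (by positivity)
                rw [div_le_one hN]; exact hk'
              _ ≤ 16 := by linarith
    calc _ ≤ (Fintype.card G : ℝ) ^ k * Real.exp 16 * Real.exp (-D) := by gcongr
      _ = _ := by rw [mul_assoc, ← Real.exp_add]; ring_nf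
  · rw [Finset.card_univ]
    exact le_of_eq (by ring)

end Pool.Agent.Helper274.Cover
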