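import Mathlib
import Pool.Agent.Helper274.CoverA
import Pool.Agent.Helper274.CoverB
import Pool.Agent.Helper274.CoverC
import Pool.Agent.Helper274.CoverD
import Pool.Agent.Helper274.CoverE
import Pool.Agent.Helper274.CoverF

set_option autoImplicit false
set_option linter.unusedSectionVars false

open Finset Filter

namespace Pool.Agent.Helper274.Cover

/-! ### Asymptotics -/

def lam (N : ℕ) : ℕ := Nat.log 2 (2 * N + 1) + 1

theorem lam_pos (N : ℕ) : 1 ≤ lam N := by unfold lam; omega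

theorem le_exp_lam (N : ℕ) : (2 * (N:ℝ) + 1) ≤ Real.exp (lam N) := by
  have h1 : 2 * N + 1 < 2 ^ (Nat.log 2 (2 * N + 1) + 1) := Nat.lt_pow_succ_log_self (by norm_num) _
  have h2 : (2 * (N:ℝ) + 1) ≤ (2:ℝ) ^ (lam N) := by
    unfold lam; exact_mod_cast h1.le
  refine h2.trans ?_
  have h3 : (2:ℝ) ≤ Real.exp 1 := by
    have := Real.add_one_le_exp (1:ℝ); linarith
  calc (2:ℝ) ^ (lam N) ≤ (Real.exp 1) ^ (lam N) := pow_le_pow_left₀ (by norm_num) h3 _
    _ = Real.exp (lam N) := by rw [← Real.exp_nat_mul]; ring_nf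

theorem lam_le (N : ℕ) : (lam N : ℝ) ≤ 4 * Real.log ((Nat.sqrt N : ℝ) + 1) + 3 := by
  have h1 : 2 ^ (Nat.log 2 (2 * N + 1)) ≤ 2 * N + 1 := Nat.pow_log_le_self 2 (by omega)
  have h2 : N < (Nat.sqrt N + 1) * (Nat.sqrt N + 1) := Nat.lt_succ_sqrt N
  have h3 : ((2:ℝ)) ^ (Nat.log 2 (2 * N + 1)) ≤ 2 * ((Nat.sqrt N : ℝ) + 1) ^ 2 := by
    have : 2 ^ (Nat.log 2 (2 * N + 1)) ≤ 2 * (Nat.sqrt N + 1) ^ 2 := by nlinarith
    exact_mod_cast this
  have h4 := Real.log_le_log (by positivity) h3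
  rw [Real.log_pow, Real.log_mul (by norm_num) (by positivity), Real.log_pow] at h4
  push_cast at h4
  have h5 : (0.6:ℝ) < Real.log 2 := by
    have := Real.log_two_gt_d9; linarith
  have h6 : Real.log 2 < 0.7 := by
    have := Real.log_two_lt_d9; linarith
  have h7 : 0 ≤ Real.log ((Nat.sqrt N : ℝ) + 1) := Real.log_nonneg (by
    have : (0:ℝ) ≤ Nat.sqrt N := by positivity
    linarith)
  unfold lam
  push_cast
  set x := Real.log ((Nat.sqrt N : ℝ) + 1)
  set n : ℝ := (Nat.log 2 (2 * N + 1) : ℝ)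
  have hn : 0 ≤ n := by positivity
  nlinarith

theorem tendsto_sqrt : Tendsto Nat.sqrt atTop atTop := by
  apply tendsto_atTop_atTop.mpr
  intro b
  exact ⟨b * b, fun a ha => by
    rw [Nat.le_sqrt]; exact ha⟩

theorem eventually_lam_pow_le (E : ℕ) (C : ℝ) :
    ∀ᶠ N : ℕ in atTop, C * (lam N : ℝ) ^ E ≤ Nat.sqrt N := by
  have ht : Tendsto (fun N : ℕ => ((Nat.sqrt N : ℝ) + 1)) atTop atTop :=
    tendsto_atTop_add_const_right _ _ (tendsto_natCast_atTop_atTop.comp tendsto_sqrt)
  have hlog := (Real.tendsto_log_atTop.comp ht).eventually_ge_atTop 1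
  set c : ℝ := 1 / (2 * (|C| + 1) * 7 ^ E) with hc
  have hcpos : 0 < c := by positivity
  have ho := ((Real.isLittleO_pow_log_id_atTop (n := E)).comp_tendsto ht).bound hcpos
  have hk := (tendsto_natCast_atTop_atTop (R := ℝ)).comp tendsto_sqrt |>.eventually_ge_atTop 1
  filter_upwards [hlog, ho, hk] with N h1 h2 h3
  simp only [Function.comp_apply, id_eq, Real.norm_eq_abs] at h1 h2 h3
  set k : ℝ := (Nat.sqrt N : ℝ) with hkdef
  set x := Real.log (k + 1) with hx
  have hx0 : 0 ≤ x := by linarith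
  rw [abs_of_nonneg (by positivity), abs_of_nonneg (by linarith)] at h2
  have h4 : (lam N : ℝ) ≤ 7 * x := by
    have := lam_le N
    rw [← hkdef, ← hx] at this
    linarith
  have h5 : (lam N : ℝ) ^ E ≤ 7 ^ E * x ^ E := by
    rw [← mul_pow]; exact pow_le_pow_left₀ (by positivity) h4 E
  calc C * (lam N : ℝ) ^ E ≤ (|C| + 1) * (7 ^ E * x ^ E) := by
        apply mul_le_mul _ h5 (by positivity) (by positivity)
        have := le_abs_self C; linarith
    _ ≤ (|C| + 1) * (7 ^ E * (c * (k + 1))) := by gcongr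
    _ = (k + 1) / 2 := by
        rw [hc]; field_simp
    _ ≤ k := by linarith

theorem eventually_le_lam (C : ℝ) : ∀ᶠ N : ℕ in atTop, C ≤ lam N := by
  have h : Tendsto (fun N : ℕ => Real.log (N:ℝ)) atTop atTop :=
    Real.tendsto_log_atTop.comp tendsto_natCast_atTop_atTop
  filter_upwards [h.eventually_ge_atTop C, eventually_ge_atTop 1] with N h1 h2
  refine h1.trans ?_
  have h3 := le_exp_lam N
  have hN : (1:ℝ) ≤ N := by exact_mod_cast h2
  rw [← Real.log_exp (lam N : ℝ)]
  apply Real.log_le_log (by linarith)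
  linarith

theorem tendsto_lam : Tendsto lam atTop atTop := by
  rw [tendsto_atTop]
  intro b
  filter_upwards [eventually_le_lam b] with N h
  exact_mod_cast h

/-! ### With high probability -/

def WHP (P : ∀ (G : Type) [AddCommGroup G] [Fintype G] [DecidableEq G], List G → Prop) : Prop :=
  ∀ η : ℝ, 0 < η → ∀ᶠ N : ℕ in atTop,
    ∀ (G : Type) [AddCommGroup G] [Fintype G] [DecidableEq G], Fintype.card G = N →
      bad (Nat.sqrt N) (P G) ≤ η * (N:ℝ) ^ (Nat.sqrt N)

theorem WHP.mono {P Q : ∀ (G : Type) [AddCommGroup G] [Fintype G] [DecidableEq G], List G → Prop}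
    (hP : WHP P) (h : ∀ᶠ N : ℕ in atTop,
      ∀ (G : Type) [AddCommGroup G] [Fintype G] [DecidableEq G], Fintype.card G = N →
        ∀ L : List G, L.length = Nat.sqrt N → P G L → Q G L) : WHP Q := by
  intro η hη
  filter_upwards [hP η hη, h] with N h1 h2 G _ _ _ hG
  exact (bad_mono (h2 G hG)).trans (h1 G hG)

theorem WHP.and {P Q : ∀ (G : Type) [AddCommGroup G] [Fintype G] [DecidableEq G], List G → Prop}
    (hP : WHP P) (hQ : WHP Q) : WHP (fun G _ _ _ L => P G L ∧ Q G L) := by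
  intro η hη
  filter_upwards [hP (η / 2) (by linarith), hQ (η / 2) (by linarith)] with N h1 h2 G _ _ _ hG
  refine (bad_and _ _ _).trans ?_
  have := h1 G hG
  have := h2 G hG
  linarith

theorem whp_DB : WHP (fun G _ _ _ L => L.Nodup → DB ((lam (Fintype.card G)) ^ 2) L.toFinset) := by
  intro η hη
  filter_upwards [eventually_le_lam 6, eventually_le_lam (-Real.log η)] with N h6 hlogη G _ _ _ hG
  subst hG
  set N := Fintype.card G with hN
  have hk : (Nat.sqrt N) ^ 2 ≤ N := Nat.sqrt_le' N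
  refine (bad_DB_le (Nat.sqrt N) ((lam N) ^ 2) hk).trans ?_
  rw [mul_comm]
  apply mul_le_mul_of_nonneg_right _ (by positivity)
  rw [← hN]
  push_cast
  have h1 := le_exp_lam N
  have hN0 : (0:ℝ) ≤ N := by positivity
  calc (N:ℝ) * Real.exp (16 - (lam N : ℝ) ^ 2) ≤ Real.exp (lam N) *
        Real.exp (16 - (lam N : ℝ) ^ 2) := by
        apply mul_le_mul_of_nonneg_right _ (Real.exp_pos _).le
        linarith
    _ = Real.exp (lam N + (16 - (lam N : ℝ) ^ 2)) := by rw [← Real.exp_add]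
    _ ≤ Real.exp (Real.log η) := by
        apply Real.exp_le_exp.mpr
        nlinarith
    _ = η := Real.exp_log hη

end Pool.Agent.Helper274.Cover
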