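import Mathlib
import Pool.Agent.Helper274.CoverG

set_option autoImplicit false
set_option linter.unusedSectionVars false

open Finset Filter

namespace Pool.Agent.Helper274.Cover

theorem whp_AzGood (K g b0 : ℕ) (hK : 1 ≤ K) (hg : 2 * b0 + 2 ≤ g) (ε : ℝ) (hε : 0 < ε)
    (hε1 : ε ≤ 1) (F : ℕ → ℕ → ℝ) :
    WHP (fun G _ _ _ L => AzGood (((lam (Fintype.card G) : ℝ)) ^ g)⁻¹ (F (lam (Fintype.card G)))
      (8 * ((((lam (Fintype.card G) : ℝ)) ^ g)⁻¹ * (K * Nat.sqrt (Fintype.card G))))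
      (((lam (Fintype.card G) : ℝ)) ^ b0 * (K * Nat.sqrt (Fintype.card G)))
      (ε / 4 * K * (Nat.sqrt (Fintype.card G) : ℝ) ^ 2) L) := by
  intro η hη
  filter_upwards [eventually_le_lam (4096 * K / ε ^ 2), eventually_le_lam (-Real.log η),
    eventually_lam_pow_le (2 * b0 + 1) (384 / ε ^ 2), eventually_lam_pow_le 0 1]
    with N hΛ1 hΛ2 hk1 hk0 G _ _ _ hG
  subst hG
  set N := Fintype.card G with hN
  set k : ℕ := Nat.sqrt N with hk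
  set Λ : ℝ := (lam N : ℝ) with hΛ
  have hΛpos : 1 ≤ Λ := by rw [hΛ]; exact_mod_cast lam_pos N
  have hkpos : (1:ℝ) ≤ k := by simpa using hk0
  have hKr : (1:ℝ) ≤ K := by exact_mod_cast hK
  set τ : ℝ := K * k with hτ
  have hτpos : 0 < τ := by positivity
  have hk2 : k ^ 2 ≤ N := Nat.sqrt_le' N
  set w : ℝ := 8 * ((Λ ^ g)⁻¹ * τ) with hw
  have hw0 : 0 ≤ w := by positivity
  set μ : ℝ := ε / (8 * Λ ^ (2 * b0) * τ) with hμ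
  have hμpos : 0 < μ := by positivity
  have hμb : μ * (Λ ^ b0 * τ) = ε / (8 * Λ ^ b0) := by
    rw [hμ]
    have : Λ ^ (2 * b0) = Λ ^ b0 * Λ ^ b0 := by rw [two_mul, pow_add]
    rw [this]
    field_simp
  have hμb1 : μ * (Λ ^ b0 * τ) ≤ 1 := by
    rw [hμb, div_le_one (by positivity)]
    have : 1 ≤ Λ ^ b0 := one_le_pow₀ hΛpos
    linarith
  have h := bad_azGood_le (G := G) k (Λ ^ g)⁻¹ (F (lam N)) w (Λ ^ b0 * τ)
    (ε / 4 * K * (k:ℝ) ^ 2) μ (by positivity) hμpos hμb1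
  refine h.trans ?_
  rw [← hN]
  have hexp : (k:ℝ) * (μ * (Λ ^ b0 * τ)) ^ 2 - μ * (ε / 4 * K * (k:ℝ) ^ 2) =
      - (ε ^ 2 * k / (64 * Λ ^ (2 * b0))) := by
    rw [hμb, hμ, hτ]
    have : Λ ^ (2 * b0) = Λ ^ b0 * Λ ^ b0 := by rw [two_mul, pow_add]
    rw [this]
    field_simp
    ring
  rw [hexp]
  have hNexp : (N:ℝ) + 1 ≤ Real.exp Λ := by
    have := le_exp_lam N
    have h0 : (0:ℝ) ≤ N := by positivity
    rw [← hΛ] at this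
    linarith
  have hkN : (k:ℝ) + 1 ≤ Real.exp Λ := by
    have : k ≤ N := Nat.sqrt_le_self N
    have : (k:ℝ) ≤ N := by exact_mod_cast this
    linarith
  have e1 : ((N:ℝ) + 1) ^ (2 * ⌊w⌋₊) ≤ Real.exp (2 * w * Λ) := by
    calc ((N:ℝ) + 1) ^ (2 * ⌊w⌋₊) ≤ (Real.exp Λ) ^ (2 * ⌊w⌋₊) :=
          pow_le_pow_left₀ (by positivity) hNexp _
      _ = Real.exp ((2 * ⌊w⌋₊ : ℕ) * Λ) := by rw [← Real.exp_nat_mul]
      _ ≤ Real.exp (2 * w * Λ) := by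
          apply Real.exp_le_exp.mpr
          have := Nat.floor_le hw0
          push_cast
          gcongr
  have e2 : ((k:ℝ) + 1) ^ 2 ≤ Real.exp (2 * Λ) := by
    calc ((k:ℝ) + 1) ^ 2 ≤ (Real.exp Λ) ^ 2 := pow_le_pow_left₀ (by positivity) hkN _
      _ = _ := by rw [← Real.exp_nat_mul]; norm_num
  have hmain : 2 * w * Λ + 2 * Λ + - (ε ^ 2 * k / (64 * Λ ^ (2 * b0))) ≤ Real.log η := by
    have f1 : 2 * w * Λ ≤ ε ^ 2 * k / (256 * Λ ^ (2 * b0)) := by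
      rw [le_div_iff₀ (by positivity), hw, hτ]
      have hgpow : Λ ^ (2 * b0 + 2) ≤ Λ ^ g := pow_le_pow_right₀ hΛpos hg
      have h4 : 4096 * K ≤ ε ^ 2 * Λ := by
        rw [div_le_iff₀ (by positivity)] at hΛ1
        linarith
      have h5 : Λ ^ (2 * b0 + 2) = Λ ^ (2 * b0) * Λ * Λ := by ring
      have h6 : 2 * (8 * ((Λ ^ g)⁻¹ * (K * k))) * Λ * (256 * Λ ^ (2 * b0)) =
          (Λ ^ (2 * b0) * Λ) * (4096 * K) * k / Λ ^ g := by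
        field_simp
        ring
      rw [h6, div_le_iff₀ (by positivity)]
      calc (Λ ^ (2 * b0) * Λ) * (4096 * K) * k ≤ (Λ ^ (2 * b0) * Λ) * (ε ^ 2 * Λ) * k := by
            gcongr
        _ = ε ^ 2 * k * Λ ^ (2 * b0 + 2) := by rw [h5]; ring
        _ ≤ ε ^ 2 * k * Λ ^ g := by gcongr
    have f2 : 3 * Λ ≤ ε ^ 2 * k / (128 * Λ ^ (2 * b0)) := by
      rw [le_div_iff₀ (by positivity)]
      have h4 : 384 * Λ ^ (2 * b0 + 1) ≤ ε ^ 2 * k := by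
        rw [div_mul_eq_mul_div, div_le_iff₀ (by positivity)] at hk1
        linarith
      calc 3 * Λ * (128 * Λ ^ (2 * b0)) = 384 * Λ ^ (2 * b0 + 1) := by ring
        _ ≤ _ := h4
    have f3 : ε ^ 2 * k / (256 * Λ ^ (2 * b0)) = (ε ^ 2 * k / (64 * Λ ^ (2 * b0))) / 4 := by
      field_simp; norm_num
    have f4 : ε ^ 2 * k / (128 * Λ ^ (2 * b0)) = (ε ^ 2 * k / (64 * Λ ^ (2 * b0))) / 2 := by
      field_simp; norm_num
    have f5 : 0 ≤ ε ^ 2 * k / (64 * Λ ^ (2 * b0)) := by positivity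
    rw [f3] at f1
    rw [f4] at f2
    linarith
  calc ((N:ℝ) + 1) ^ (2 * ⌊w⌋₊) * ((k:ℝ) + 1) ^ 2 *
        ((N:ℝ) ^ k * Real.exp (- (ε ^ 2 * k / (64 * Λ ^ (2 * b0))))) ≤
      Real.exp (2 * w * Λ) * Real.exp (2 * Λ) *
        ((N:ℝ) ^ k * Real.exp (- (ε ^ 2 * k / (64 * Λ ^ (2 * b0))))) := by gcongr
    _ = Real.exp (2 * w * Λ + 2 * Λ + - (ε ^ 2 * k / (64 * Λ ^ (2 * b0)))) * (N:ℝ) ^ k := by
        rw [Real.exp_add, Real.exp_add]; ring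
    _ ≤ Real.exp (Real.log η) * (N:ℝ) ^ k := by gcongr
    _ = η * (N:ℝ) ^ k := by rw [Real.exp_log hη]

/-! ### numeric lemmas -/

theorem numE2 (A B H D K k ε : ℝ) (hA : 0 < A) (hB : 0 < B) (hH : 0 < H) (hD : 0 < D)
    (hK : 1 ≤ K) (hk : 0 < k) (h1 : 2048 * (A * B) ^ 2 ≤ ε ^ 2 * k)
    (h2 : 2048 * A ^ 2 * (1 + K * D) ≤ ε ^ 2 * H) :
    k * (8 * (8 * (A / B⁻¹) ^ 2 * (K * k) * k + 8 * A ^ 2 * ((K * k) / H) *
      ((K * k) * k + (K * k) ^ 2 * D))) ≤ (ε / 4 * K * k ^ 2) ^ 2 := by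
  have e1 : k * (8 * (8 * (A / B⁻¹) ^ 2 * (K * k) * k + 8 * A ^ 2 * ((K * k) / H) *
      ((K * k) * k + (K * k) ^ 2 * D))) =
      (2048 * (A * B) ^ 2) * (K * k ^ 3) / 32 +
      (2048 * A ^ 2 * (1 + K * D)) / H * (K ^ 2 * k ^ 4) / 32 := by
    field_simp
    ring
  rw [e1]
  have e2 : (2048 * (A * B) ^ 2) * (K * k ^ 3) ≤ ε ^ 2 * K ^ 2 * k ^ 4 := by
    calc (2048 * (A * B) ^ 2) * (K * k ^ 3) ≤ (ε ^ 2 * k) * (K * k ^ 3) := by gcongr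
      _ = ε ^ 2 * K * k ^ 4 := by ring
      _ ≤ ε ^ 2 * K ^ 2 * k ^ 4 := by
        have : K ≤ K ^ 2 := by nlinarith
        gcongr
  have e3 : (2048 * A ^ 2 * (1 + K * D)) / H ≤ ε ^ 2 := by
    rw [div_le_iff₀ hH]; exact h2
  have e4 : (2048 * A ^ 2 * (1 + K * D)) / H * (K ^ 2 * k ^ 4) ≤ ε ^ 2 * (K ^ 2 * k ^ 4) := by
    gcongr
  calc _ ≤ (ε ^ 2 * K ^ 2 * k ^ 4) / 32 + (ε ^ 2 * (K ^ 2 * k ^ 4)) / 32 := by gcongr
    _ = _ := by ring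

theorem numE3 (A B D K k N ε : ℝ) (hA : 0 < A) (hB : 0 < B) (hD : 0 < D)
    (hK : 1 ≤ K) (hk : 0 < k) (hN : k ^ 2 ≤ N) (h1 : 2048 * (A * B) ^ 2 ≤ ε ^ 2 * k)
    (h2 : 2048 * A ^ 2 * (1 + K * D) ≤ ε ^ 2 * k) :
    k * (8 * (8 * (A / B⁻¹) ^ 2 * (K * k) * k + 8 * A ^ 2 * (k * (K * k) / N) *
      ((K * k) * k + (K * k) ^ 2 * D))) ≤ (ε / 4 * K * k ^ 2) ^ 2 := by
  have hNpos : 0 < N := lt_of_lt_of_le (by positivity) hN
  have e0 : k * (K * k) / N ≤ K := by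
    rw [div_le_iff₀ hNpos]
    nlinarith
  calc k * (8 * (8 * (A / B⁻¹) ^ 2 * (K * k) * k + 8 * A ^ 2 * (k * (K * k) / N) *
      ((K * k) * k + (K * k) ^ 2 * D))) ≤ k * (8 * (8 * (A / B⁻¹) ^ 2 * (K * k) * k +
      8 * A ^ 2 * K * ((K * k) * k + (K * k) ^ 2 * D))) := by
        gcongr
    _ = (2048 * (A * B) ^ 2) * (K * k ^ 3) / 32 +
      (2048 * A ^ 2 * (1 + K * D)) * (K ^ 2 * k ^ 3) / 32 := by
        field_simp
        ring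
    _ ≤ (ε ^ 2 * k) * (K * k ^ 3) / 32 + (ε ^ 2 * k) * (K ^ 2 * k ^ 3) / 32 := by gcongr
    _ ≤ (ε ^ 2 * k) * (K ^ 2 * k ^ 3) / 32 + (ε ^ 2 * k) * (K ^ 2 * k ^ 3) / 32 := by
        have : K ≤ K ^ 2 := by nlinarith
        gcongr
    _ = _ := by ring

/-- The transfer property. -/
def TrOK {G : Type*} [AddCommGroup G] [Fintype G] [DecidableEq G]
    (γ : ℝ) (F : ℕ → ℝ) (K s0 : ℕ) (b e : ℝ) (L : List G) : Prop :=
  ∀ T : Finset G, T.card ≤ K * L.length → ∃ S : Finset G, S.card ≤ s0 ∧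
    ∀ i0 j0 : ℕ, i0 ≤ L.length → j0 ≤ L.length →
    stepSum (fun l y => ind i0 j0 l *
      min (phi (bin γ F) T (T.filter (fun t => t - y ∉ S)) l y) b) L ≤
    stepSum (fun l _ => ind i0 j0 l *
      ((T.card : ℝ) / Fintype.card G * ∑ x, bin γ F (cnt T l x))) L + e

theorem whp_transfer (K g m b0 : ℕ) (hK : 1 ≤ K) (hg : 2 * b0 + 2 ≤ g) (ε : ℝ) (hε : 0 < ε)
    (hε1 : ε ≤ 1) (F : ℕ → ℕ → ℝ)
    (hF : ∀ᶠ Λ : ℕ in atTop, ∀ z, |F Λ z| ≤ (Λ:ℝ) ^ m)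
    (hf : ∀ᶠ Λ : ℕ in atTop, ∀ r, 0 ≤ bin ((Λ:ℝ) ^ g)⁻¹ (F Λ) r) :
    WHP (fun G _ _ _ L => L.Nodup → DB ((lam (Fintype.card G)) ^ 2) L.toFinset ∧
      TrOK (((lam (Fintype.card G) : ℝ)) ^ g)⁻¹ (F (lam (Fintype.card G))) K
        (2 * (lam (Fintype.card G)) ^ (2 * m + 3))
        (((lam (Fintype.card G) : ℝ)) ^ b0 * (K * Nat.sqrt (Fintype.card G)))
        (ε * K * (Nat.sqrt (Fintype.card G) : ℝ) ^ 2) L) := by
  refine (whp_DB.and (whp_AzGood K g b0 hK hg ε hε hε1 F)).mono ?_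
  filter_upwards [tendsto_lam.eventually hF, tendsto_lam.eventually hf,
    eventually_lam_pow_le 0 1, eventually_lam_pow_le (2 * (2 * m + 3) + 2) 8,
    eventually_lam_pow_le (2 * (m + g)) (2048 / ε ^ 2),
    eventually_lam_pow_le (2 * m + 2) (2048 * (1 + K) / ε ^ 2),
    eventually_le_lam (2048 * (1 + K) / ε ^ 2), eventually_le_lam (64 * K / ε)]
    with N hFN hfN hk0 hk1 hk2 hk3 hΛ1 hΛ2 G _ _ _ hG L hLlen hP hnd
  subst hG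
  obtain ⟨hDB, hAz⟩ := hP
  have hDB' := hDB hnd
  refine ⟨hDB', ?_⟩
  set N := Fintype.card G with hN
  set k : ℕ := Nat.sqrt N with hk
  set Λ : ℝ := (lam N : ℝ) with hΛ
  have hΛpos : 1 ≤ Λ := by rw [hΛ]; exact_mod_cast lam_pos N
  have hkpos : (1:ℝ) ≤ k := by simpa using hk0
  have hKr : (1:ℝ) ≤ K := by exact_mod_cast hK
  have hkN : k ^ 2 ≤ N := Nat.sqrt_le' N
  have hkN' : (k:ℝ) ^ 2 ≤ N := by exact_mod_cast hkN
  set τ : ℝ := K * k with hτ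
  have hτpos : 0 < τ := by positivity
  set θ : ℝ := τ / Λ ^ (2 * m + 3) with hθ
  have hθ0 : 0 ≤ θ := by positivity
  intro T hT
  have hT' : (T.card : ℝ) ≤ τ := by
    rw [hLlen] at hT
    rw [hτ]; exact_mod_cast hT
  set n0 : ℕ := 2 * (lam N) ^ (2 * m + 3) with hn0
  have hn0r : (n0 : ℝ) = 2 * Λ ^ (2 * m + 3) := by rw [hn0, hΛ]; push_cast; ring
  have hn1 : 2 * τ ≤ n0 * θ := by
    rw [hn0r, hθ]
    apply le_of_eq
    field_simp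
  have hn2 : (n0 : ℝ) ^ 2 * ((lam N ^ 2 : ℕ) : ℝ) < τ := by
    rw [hn0r, hτ]
    push_cast
    rw [← hΛ]
    have : (2 * Λ ^ (2 * m + 3)) ^ 2 * Λ ^ 2 = 4 * Λ ^ (2 * (2 * m + 3) + 2) := by ring
    rw [this]
    have h3 : (0:ℝ) < Λ ^ (2 * (2 * m + 3) + 2) := by positivity
    nlinarith
  have hγpos : 0 < (Λ ^ g)⁻¹ := by positivity
  have hγ1 : (Λ ^ g)⁻¹ ≤ 1 := inv_le_one_of_one_le₀ (one_le_pow₀ hΛpos)
  have hLpos : 0 < L.length := by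
    rw [hLlen]
    exact_mod_cast (lt_of_lt_of_le zero_lt_one hkpos)
  obtain ⟨T0, T', hwin⟩ := exists_window hγpos hγ1 (F (lam N)) (Λ ^ m) (by positivity) hFN L hnd
    hLpos ((lam N) ^ 2) hDB' T θ τ hτpos hT' hθ0 n0 hn1 hn2
  refine ⟨heavy T L.toFinset θ, (heavy_card_lt hDB' T θ τ hT' n0 hn1 hn2).le, ?_⟩
  intro i0 j0 hi0 hj0
  have htr := transfer hwin hAz hfN (by positivity) i0 j0 hi0 hj0
  refine htr.trans ?_
  apply add_le_add le_rfl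
  have hLr : (L.length : ℝ) = k := by exact_mod_cast hLlen
  have hE2 : √((L.length : ℝ) * (8 * (8 * (Λ ^ m / (Λ ^ g)⁻¹) ^ 2 * τ * L.length +
      8 * (Λ ^ m) ^ 2 * θ * (τ * L.length + τ ^ 2 * ((lam N ^ 2 : ℕ) : ℝ))))) ≤
      ε / 4 * K * (k:ℝ) ^ 2 := by
    apply Real.sqrt_le_iff.mpr
    refine ⟨by positivity, ?_⟩
    rw [hLr, hθ, hτ]
    push_cast
    rw [← hΛ]
    apply numE2 (Λ ^ m) (Λ ^ g) (Λ ^ (2 * m + 3)) (Λ ^ 2) K k ε (by positivity) (by positivity)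
      (by positivity) (by positivity) hKr (by positivity)
    · rw [div_mul_eq_mul_div, div_le_iff₀ (by positivity)] at hk2
      calc 2048 * (Λ ^ m * Λ ^ g) ^ 2 = 2048 * Λ ^ (2 * (m + g)) := by ring
        _ ≤ _ := by linarith
    · rw [div_le_iff₀ (by positivity)] at hΛ1
      have h1 : 1 + K * Λ ^ 2 ≤ (1 + K) * Λ ^ 2 := by
        have : (1:ℝ) ≤ Λ ^ 2 := one_le_pow₀ hΛpos
        linarith
      calc 2048 * (Λ ^ m) ^ 2 * (1 + K * Λ ^ 2) ≤ 2048 * (Λ ^ m) ^ 2 * ((1 + K) * Λ ^ 2) := by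
            gcongr
        _ = (2048 * (1 + K)) * Λ ^ (2 * m + 2) := by ring
        _ ≤ (Λ * ε ^ 2) * Λ ^ (2 * m + 2) := by gcongr
        _ = _ := by ring
  have hE3 : √((L.length : ℝ) * (8 * (8 * (Λ ^ m / (Λ ^ g)⁻¹) ^ 2 * τ * L.length +
      8 * (Λ ^ m) ^ 2 * (L.length * τ / N) *
      (τ * L.length + τ ^ 2 * ((lam N ^ 2 : ℕ) : ℝ))))) ≤
      ε / 4 * K * (k:ℝ) ^ 2 := by
    apply Real.sqrt_le_iff.mpr
    refine ⟨by positivity, ?_⟩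
    rw [hLr, hτ]
    push_cast
    rw [← hΛ]
    apply numE3 (Λ ^ m) (Λ ^ g) (Λ ^ 2) K k N ε (by positivity) (by positivity)
      (by positivity) hKr (by positivity) hkN'
    · rw [div_mul_eq_mul_div, div_le_iff₀ (by positivity)] at hk2
      calc 2048 * (Λ ^ m * Λ ^ g) ^ 2 = 2048 * Λ ^ (2 * (m + g)) := by ring
        _ ≤ _ := by linarith
    · rw [div_mul_eq_mul_div, div_le_iff₀ (by positivity)] at hk3
      have h1 : 1 + K * Λ ^ 2 ≤ (1 + K) * Λ ^ 2 := by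
        have : (1:ℝ) ≤ Λ ^ 2 := one_le_pow₀ hΛpos
        linarith
      calc 2048 * (Λ ^ m) ^ 2 * (1 + K * Λ ^ 2) ≤ 2048 * (Λ ^ m) ^ 2 * ((1 + K) * Λ ^ 2) := by
            gcongr
        _ = 2048 * (1 + K) * Λ ^ (2 * m + 2) := by ring
        _ ≤ _ := by linarith
  have hlast : 8 * (2 * ((Λ ^ g)⁻¹ * τ)) * (Λ ^ b0 * τ) ≤ ε / 4 * K * (k:ℝ) ^ 2 := by
    have h1 : 8 * (2 * ((Λ ^ g)⁻¹ * τ)) * (Λ ^ b0 * τ) =
        16 * K * (K * (k:ℝ) ^ 2) * Λ ^ b0 / Λ ^ g := by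
      rw [hτ]; field_simp; ring
    rw [h1, div_le_iff₀ (by positivity)]
    have h2 : 64 * K ≤ ε * Λ := by
      rw [div_le_iff₀ hε] at hΛ2; linarith
    have h3 : Λ ^ b0 * Λ ≤ Λ ^ g := by
      rw [← pow_succ]
      exact pow_le_pow_right₀ hΛpos (by omega)
    calc 16 * K * (K * (k:ℝ) ^ 2) * Λ ^ b0 = (64 * K) * (K * (k:ℝ) ^ 2) * Λ ^ b0 / 4 := by ring
      _ ≤ (ε * Λ) * (K * (k:ℝ) ^ 2) * Λ ^ b0 / 4 := by gcongr
      _ = ε / 4 * K * (k:ℝ) ^ 2 * (Λ ^ b0 * Λ) := by ring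
      _ ≤ ε / 4 * K * (k:ℝ) ^ 2 * Λ ^ g := by gcongr
  linarith

end Pool.Agent.Helper274.Cover
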