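import Mathlib
import Pool.Agent.Helper274.CoverH

set_option autoImplicit false
set_option linter.unusedSectionVars false

open Finset Filter

namespace Pool.Agent.Helper274.Cover

/-! ### The weights -/

noncomputable def wq (Q r : ℕ) : ℝ := ∑ z ∈ Finset.range (Q + 1), (r.choose z : ℝ) * 2 ^ z

theorem wq_zero_left (r : ℕ) : wq 0 r = 1 := by simp [wq]

theorem wq_zero_right (Q : ℕ) : wq Q 0 = 1 := by
  unfold wq
  rw [Finset.sum_range_succ']
  simp

theorem wq_succ_succ (Q r : ℕ) : wq (Q + 1) (r + 1) = wq (Q + 1) r + 2 * wq Q r := by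
  unfold wq
  rw [Finset.sum_range_succ' _ (Q + 1), Finset.sum_range_succ' _ (Q + 1)]
  simp only [Nat.choose_succ_succ, Nat.choose_zero_right]
  push_cast
  rw [Finset.mul_sum]
  have : ∀ x ∈ Finset.range (Q + 1), ((r.choose x : ℝ) + (r.choose (x + 1) : ℝ)) * 2 ^ (x + 1) =
      (r.choose (x + 1) : ℝ) * 2 ^ (x + 1) + 2 * ((r.choose x : ℝ) * 2 ^ x) := by
    intro x _; ring
  rw [Finset.sum_congr rfl this, Finset.sum_add_distrib]
  ring

theorem wq_nonneg (Q r : ℕ) : 0 ≤ wq Q r := by unfold wq; positivity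

theorem wq_mono_left (Q r : ℕ) : wq Q r ≤ wq (Q + 1) r := by
  have : wq (Q + 1) r = wq Q r + (r.choose (Q + 1) : ℝ) * 2 ^ (Q + 1) := by
    unfold wq; rw [Finset.sum_range_succ _ (Q + 1)]
  rw [this]
  have : (0:ℝ) ≤ (r.choose (Q + 1) : ℝ) * 2 ^ (Q + 1) := by positivity
  linarith

theorem wq_le_succ (Q r : ℕ) : wq Q r ≤ wq Q (r + 1) := by
  cases Q with
  | zero => simp [wq_zero_left]
  | succ Q =>
    rw [wq_succ_succ]
    have := wq_nonneg Q r
    linarith

theorem wq_mono_right (Q : ℕ) {r s : ℕ} (h : r ≤ s) : wq Q r ≤ wq Q s :=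
  monotone_nat_of_le_succ (wq_le_succ Q) h

theorem wq_succ_le (Q r : ℕ) : wq Q (r + 1) ≤ 3 * wq Q r := by
  cases Q with
  | zero => simp [wq_zero_left]
  | succ Q =>
    rw [wq_succ_succ]
    have := wq_mono_left Q r
    linarith

theorem wq_le_pow (Q r : ℕ) : wq Q r ≤ (1 + 2 * (r:ℝ)) ^ Q := by
  have h : wq Q r ≤ ∑ z ∈ Finset.range (Q + 1), (2 * (r:ℝ)) ^ z := by
    unfold wq
    apply Finset.sum_le_sum
    intro z _
    have h1 : (r.choose z : ℝ) ≤ (r:ℝ) ^ z := by exact_mod_cast Nat.choose_le_pow r z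
    calc (r.choose z : ℝ) * 2 ^ z ≤ (r:ℝ) ^ z * 2 ^ z := by gcongr
      _ = _ := by rw [← mul_pow]; ring
  refine h.trans ?_
  clear h
  induction Q with
  | zero => simp
  | succ Q ih =>
    rw [Finset.sum_range_succ]
    calc _ ≤ (1 + 2 * (r:ℝ)) ^ Q + (2 * (r:ℝ)) ^ Q * (2 * r) := by
          rw [pow_succ (2 * (r:ℝ)) Q]; linarith
      _ ≤ (1 + 2 * (r:ℝ)) ^ Q + (1 + 2 * (r:ℝ)) ^ Q * (2 * r) := by
          gcongr; linarith
      _ = _ := by ring

theorem sum_range_swap (Q r : ℕ) (g : ℕ → ℝ) :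
    ∑ z ∈ Finset.range (Q + 1), (r.choose z : ℝ) * g z =
    ∑ z ∈ Finset.range (r + 1), (r.choose z : ℝ) * (if z ≤ Q then g z else 0) := by
  have h1 : ∑ z ∈ Finset.range (Q + 1), (r.choose z : ℝ) * g z =
      ∑ z ∈ Finset.range (Q + r + 1), (r.choose z : ℝ) * (if z ≤ Q then g z else 0) := by
    have hs : Finset.range (Q + 1) ⊆ Finset.range (Q + r + 1) := by
      intro z hz; rw [mem_range] at *; omega
    rw [← Finset.sum_subset hs]
    · apply Finset.sum_congr rfl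
      intro z hz
      rw [mem_range] at hz
      rw [if_pos (by omega)]
    · intro z _ hz
      rw [mem_range] at hz
      rw [if_neg (by omega), mul_zero]
  rw [h1]
  have hs : Finset.range (r + 1) ⊆ Finset.range (Q + r + 1) := by
    intro z hz; rw [mem_range] at *; omega
  rw [← Finset.sum_subset hs]
  intro z _ hz
  rw [mem_range] at hz
  rw [Nat.choose_eq_zero_of_lt (by omega)]
  simp

/-- the polynomial weight with parameter `B = 1/γ` -/
noncomputable def FQ (g Q Λ z : ℕ) : ℝ := if z ≤ Q then (2 * (Λ:ℝ) ^ g) ^ z else 0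

theorem FQ_bound (g Q Λ z : ℕ) (hΛ : 2 ≤ Λ) : |FQ g Q Λ z| ≤ (Λ:ℝ) ^ ((g + 1) * Q) := by
  unfold FQ
  have hΛr : (2:ℝ) ≤ Λ := by exact_mod_cast hΛ
  split_ifs with h
  · rw [abs_of_nonneg (by positivity)]
    have h1 : 2 * (Λ:ℝ) ^ g ≤ (Λ:ℝ) ^ (g + 1) := by
      rw [pow_succ, mul_comm]
      gcongr
    calc (2 * (Λ:ℝ) ^ g) ^ z ≤ ((Λ:ℝ) ^ (g + 1)) ^ z := pow_le_pow_left₀ (by positivity) h1 z
      _ ≤ ((Λ:ℝ) ^ (g + 1)) ^ Q := pow_le_pow_right₀ (one_le_pow₀ (by linarith)) h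
      _ = _ := by rw [← pow_mul]
  · simp

theorem bin_FQ (g Q Λ r : ℕ) (hΛ : 1 ≤ Λ) :
    bin ((Λ:ℝ) ^ g)⁻¹ (FQ g Q Λ) r = ∑ z ∈ Finset.range (r + 1), (r.choose z : ℝ) *
      (if z ≤ Q then 2 ^ z * (1 - ((Λ:ℝ) ^ g)⁻¹) ^ (r - z) else 0) := by
  unfold bin FQ
  apply Finset.sum_congr rfl
  intro z _
  congr 1
  have hΛr : (1:ℝ) ≤ Λ := by exact_mod_cast hΛ
  have hpos : (0:ℝ) < (Λ:ℝ) ^ g := by positivity
  split_ifs with h
  · rw [mul_pow]
    have : (((Λ:ℝ) ^ g)⁻¹) ^ z * ((Λ:ℝ) ^ g) ^ z = 1 := by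
      rw [← mul_pow, inv_mul_cancel₀ hpos.ne', one_pow]
    calc _ = (((Λ:ℝ) ^ g)⁻¹) ^ z * ((Λ:ℝ) ^ g) ^ z * (2 ^ z * (1 - ((Λ:ℝ) ^ g)⁻¹) ^ (r - z)) := by
          ring
      _ = _ := by rw [this, one_mul]
  · simp

theorem gamma_bounds (g Λ : ℕ) (hΛ : 1 ≤ Λ) :
    0 ≤ 1 - ((Λ:ℝ) ^ g)⁻¹ ∧ 1 - ((Λ:ℝ) ^ g)⁻¹ ≤ 1 := by
  have hΛr : (1:ℝ) ≤ Λ := by exact_mod_cast hΛ
  have h1 : (1:ℝ) ≤ (Λ:ℝ) ^ g := one_le_pow₀ hΛr
  have h2 : ((Λ:ℝ) ^ g)⁻¹ ≤ 1 := inv_le_one_of_one_le₀ h1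
  have h3 : 0 < ((Λ:ℝ) ^ g)⁻¹ := by positivity
  constructor <;> linarith

theorem bin_FQ_nonneg (g Q Λ r : ℕ) (hΛ : 1 ≤ Λ) : 0 ≤ bin ((Λ:ℝ) ^ g)⁻¹ (FQ g Q Λ) r := by
  rw [bin_FQ g Q Λ r hΛ]
  have h := (gamma_bounds g Λ hΛ).1
  apply Finset.sum_nonneg
  intro z _
  split_ifs
  · positivity
  · simp

theorem le_bin_FQ (g Q Λ r : ℕ) (hΛ : 1 ≤ Λ) :
    (1 - ((Λ:ℝ) ^ g)⁻¹) ^ r * wq Q r ≤ bin ((Λ:ℝ) ^ g)⁻¹ (FQ g Q Λ) r := by
  rw [bin_FQ g Q Λ r hΛ]
  obtain ⟨h0, h1⟩ := gamma_bounds g Λ hΛ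
  unfold wq
  rw [sum_range_swap Q r (fun z => (2:ℝ) ^ z), Finset.mul_sum]
  apply Finset.sum_le_sum
  intro z hz
  split_ifs
  · have : (1 - ((Λ:ℝ) ^ g)⁻¹) ^ r ≤ (1 - ((Λ:ℝ) ^ g)⁻¹) ^ (r - z) :=
      pow_le_pow_of_le_one h0 h1 (Nat.sub_le _ _)
    calc (1 - ((Λ:ℝ) ^ g)⁻¹) ^ r * ((r.choose z : ℝ) * 2 ^ z) ≤
        (1 - ((Λ:ℝ) ^ g)⁻¹) ^ (r - z) * ((r.choose z : ℝ) * 2 ^ z) := by gcongr
      _ = _ := by ring
  · simp

theorem bin_FQ_le (g Q Λ r : ℕ) (hΛ : 1 ≤ Λ) :
    (1 - ((Λ:ℝ) ^ g)⁻¹) ^ Q * bin ((Λ:ℝ) ^ g)⁻¹ (FQ g Q Λ) r ≤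
      (1 - ((Λ:ℝ) ^ g)⁻¹) ^ r * wq Q r := by
  rw [bin_FQ g Q Λ r hΛ]
  obtain ⟨h0, h1⟩ := gamma_bounds g Λ hΛ
  unfold wq
  rw [sum_range_swap Q r (fun z => (2:ℝ) ^ z), Finset.mul_sum, Finset.mul_sum]
  apply Finset.sum_le_sum
  intro z hz
  rw [mem_range] at hz
  split_ifs with hzQ
  · have : (1 - ((Λ:ℝ) ^ g)⁻¹) ^ Q * (1 - ((Λ:ℝ) ^ g)⁻¹) ^ (r - z) ≤
        (1 - ((Λ:ℝ) ^ g)⁻¹) ^ r := by
      rw [← pow_add]
      exact pow_le_pow_of_le_one h0 h1 (by omega)
    calc (1 - ((Λ:ℝ) ^ g)⁻¹) ^ Q * ((r.choose z : ℝ) * (2 ^ z * (1 - ((Λ:ℝ) ^ g)⁻¹) ^ (r - z))) =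
        ((1 - ((Λ:ℝ) ^ g)⁻¹) ^ Q * (1 - ((Λ:ℝ) ^ g)⁻¹) ^ (r - z)) *
          ((r.choose z : ℝ) * 2 ^ z) := by ring
      _ ≤ _ := by gcongr
  · simp

/-! ### Counting functions along the sequence -/

section
variable {G : Type*} [AddCommGroup G] [Fintype G] [DecidableEq G]

theorem cnt_cons (T : Finset G) (l : List G) (y x : G) (hy : y ∉ l) :
    cnt T (y :: l) x = cnt T l x + (if x - y ∈ T then 1 else 0) := by
  unfold cnt rep
  have e : T.filter (fun t => x - t ∈ y :: l) = T.filter (fun t => x - t ∈ l) ∪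
      (if x - y ∈ T then {x - y} else ∅) := by
    ext t
    simp only [mem_filter, List.mem_cons, mem_union]
    constructor
    · rintro ⟨h1, h2 | h2⟩
      · right
        have : x - y = t := by rw [← h2]; abel
        rw [if_pos (this ▸ h1), mem_singleton, this]
      · left; exact ⟨h1, h2⟩
    · rintro (⟨h1, h2⟩ | h)
      · exact ⟨h1, Or.inr h2⟩
      · split_ifs at h with h3
        · rw [mem_singleton] at h
          subst h
          exact ⟨h3, Or.inl (by abel)⟩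
        · simp at h
  rw [e, Finset.card_union_of_disjoint]
  · congr 1
    split_ifs <;> simp
  · rw [Finset.disjoint_left]
    intro t ht h
    split_ifs at h with h3
    · rw [mem_singleton] at h
      subst h
      rw [mem_filter] at ht
      apply hy
      have : x - (x - y) = y := by abel
      rw [← this]; exact ht.2
    · simp at h

theorem cnt_le_length (T : Finset G) (l : List G) (x : G) : cnt T l x ≤ l.length := by
  unfold cnt rep
  refine le_trans ?_ (List.toFinset_card_le l)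
  apply Finset.card_le_card_of_injOn (fun t => x - t)
  · intro t ht
    have := (mem_filter.mp (mem_coe.mp ht)).2
    simpa using this
  · intro t _ t' _ h
    simpa using h

/-- truncated moment -/
noncomputable def Psi (Q Z : ℕ) (T : Finset G) (l : List G) : ℝ :=
  ∑ x, if cnt T l x ≤ Z then wq Q (cnt T l x) else 0

theorem Psi_nil (Q Z : ℕ) (T : Finset G) : Psi Q Z T [] = Fintype.card G := by
  unfold Psi
  have : ∀ x, cnt T ([] : List G) x = 0 := by
    intro x; unfold cnt rep; simp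
  simp [this, wq_zero_right]

theorem Psi_zero_le (Z : ℕ) (T : Finset G) (l : List G) : Psi 0 Z T l ≤ Fintype.card G := by
  unfold Psi
  calc _ ≤ ∑ _x : G, (1:ℝ) := by
        apply Finset.sum_le_sum
        intro x _
        split_ifs
        · rw [wq_zero_left]
        · norm_num
    _ = _ := by simp

theorem Psi_cons_le (Q Z : ℕ) (T : Finset G) (l : List G) (y : G) (hy : y ∉ l) :
    Psi (Q + 1) Z T (y :: l) ≤ Psi (Q + 1) Z T l +
      2 * ∑ t0 ∈ T, (if cnt T l (y + t0) ≤ Z then wq Q (cnt T l (y + t0)) else 0) := by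
  have h1 : Psi (Q + 1) Z T (y :: l) ≤ ∑ x, ((if cnt T l x ≤ Z then wq (Q + 1) (cnt T l x) else 0) +
      (if x - y ∈ T then 2 * (if cnt T l x ≤ Z then wq Q (cnt T l x) else 0) else 0)) := by
    unfold Psi
    apply Finset.sum_le_sum
    intro x _
    rw [cnt_cons T l y x hy]
    have hw0 := wq_nonneg (Q + 1) (cnt T l x)
    have hw1 := wq_nonneg Q (cnt T l x)
    by_cases hx : x - y ∈ T
    · rw [if_pos hx, if_pos hx]
      by_cases h2 : cnt T l x + 1 ≤ Z
      · rw [if_pos h2, if_pos (by omega), if_pos (by omega), wq_succ_succ]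
      · rw [if_neg h2]
        split_ifs <;> linarith
    · rw [if_neg hx, if_neg hx]
      simp
  refine h1.trans (le_of_eq ?_)
  rw [Finset.sum_add_distrib]
  congr 1
  have h2 : ∑ x, (if x - y ∈ T then 2 * (if cnt T l x ≤ Z then wq Q (cnt T l x) else 0) else 0) =
      ∑ t0, (if (y + t0) - y ∈ T then 2 * (if cnt T l (y + t0) ≤ Z then
        wq Q (cnt T l (y + t0)) else 0) else 0) :=
    (Equiv.sum_comp (Equiv.addLeft y) (fun x => if x - y ∈ T then
      2 * (if cnt T l x ≤ Z then wq Q (cnt T l x) else 0) else 0)).symm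
  rw [h2, Finset.mul_sum]
  simp only [add_sub_cancel_left]
  rw [Finset.sum_ite_mem, Finset.univ_inter]

theorem cnt_split (T S : Finset G) (l : List G) (y x : G) :
    cnt T l x = cnt (T.filter (fun t => t - y ∉ S)) l x +
      (T.filter (fun t => t - y ∈ S ∧ x - t ∈ l)).card := by
  unfold cnt rep
  rw [← Finset.card_union_of_disjoint]
  · congr 1
    ext t
    simp only [mem_filter, mem_union]
    tauto
  · rw [Finset.disjoint_left]
    intro t h1 h2
    simp only [mem_filter] at h1 h2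
    exact h1.1.2 h2.2.1

theorem planted_le (Q Z : ℕ) (T S : Finset G) (l : List G) (y : G) (E : ℕ)
    (hE : (T.filter (fun t0 => 2 ≤ (T.filter (fun t => t - y ∈ S ∧ y + t0 - t ∈ l)).card)).card
      ≤ E) :
    ∑ t0 ∈ T, (if cnt T l (y + t0) ≤ Z then wq Q (cnt T l (y + t0)) else 0) ≤
      3 * ∑ t0 ∈ T, (if cnt (T.filter (fun t => t - y ∉ S)) l (y + t0) ≤ Z then
        wq Q (cnt (T.filter (fun t => t - y ∉ S)) l (y + t0)) else 0) + E * wq Q Z := by
  have h1 : ∀ t0 ∈ T, (if cnt T l (y + t0) ≤ Z then wq Q (cnt T l (y + t0)) else 0) ≤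
      3 * (if cnt (T.filter (fun t => t - y ∉ S)) l (y + t0) ≤ Z then
        wq Q (cnt (T.filter (fun t => t - y ∉ S)) l (y + t0)) else 0) +
      (if 2 ≤ (T.filter (fun t => t - y ∈ S ∧ y + t0 - t ∈ l)).card then wq Q Z else 0) := by
    intro t0 _
    have hs := cnt_split T S l y (y + t0)
    set r := cnt T l (y + t0)
    set r' := cnt (T.filter (fun t => t - y ∉ S)) l (y + t0)
    set m := (T.filter (fun t => t - y ∈ S ∧ y + t0 - t ∈ l)).card
    have hw0 := wq_nonneg Q r'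
    have hw1 := wq_nonneg Q Z
    by_cases hr : r ≤ Z
    · rw [if_pos hr, if_pos (show r' ≤ Z by omega)]
      by_cases hm : 2 ≤ m
      · rw [if_pos hm]
        have := wq_mono_right Q hr
        linarith
      · rw [if_neg hm]
        have h2 : r ≤ r' + 1 := by omega
        have h3 := wq_mono_right Q h2
        have h4 := wq_succ_le Q r'
        linarith
    · rw [if_neg hr]
      split_ifs <;> linarith
  refine (Finset.sum_le_sum h1).trans ?_
  rw [Finset.sum_add_distrib, ← Finset.mul_sum]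
  apply add_le_add le_rfl
  rw [← Finset.sum_filter, Finset.sum_const, nsmul_eq_mul]
  have hw1 := wq_nonneg Q Z
  have : (((T.filter (fun t0 => 2 ≤ (T.filter (fun t => t - y ∈ S ∧ y + t0 - t ∈ l)).card)).card
    : ℕ) : ℝ) ≤ E := by exact_mod_cast hE
  exact mul_le_mul_of_nonneg_right this hw1

theorem trunc_le_min (g Q Λ Z : ℕ) (hΛ : 1 ≤ Λ) (T T1 : Finset G) (l : List G) (y : G) (b : ℝ)
    (hb : (T.card : ℝ) * wq Q Z ≤ b) :
    (1 - ((Λ:ℝ) ^ g)⁻¹) ^ Z * ∑ t0 ∈ T, (if cnt T1 l (y + t0) ≤ Z then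
        wq Q (cnt T1 l (y + t0)) else 0) ≤
      min (phi (bin ((Λ:ℝ) ^ g)⁻¹ (FQ g Q Λ)) T T1 l y) b := by
  obtain ⟨h0, h1⟩ := gamma_bounds g Λ hΛ
  have hsum0 : 0 ≤ ∑ t0 ∈ T, (if cnt T1 l (y + t0) ≤ Z then
        wq Q (cnt T1 l (y + t0)) else 0) := by
    apply Finset.sum_nonneg
    intro t _
    split_ifs
    · exact wq_nonneg _ _
    · exact le_rfl
  apply le_min
  · rw [Finset.mul_sum]
    unfold phi
    apply Finset.sum_le_sum
    intro t0 _
    split_ifs with h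
    · refine le_trans ?_ (le_bin_FQ g Q Λ _ hΛ)
      apply mul_le_mul_of_nonneg_right _ (wq_nonneg _ _)
      exact pow_le_pow_of_le_one h0 h1 h
    · rw [mul_zero]
      exact bin_FQ_nonneg g Q Λ _ hΛ
  · have h2 : (1 - ((Λ:ℝ) ^ g)⁻¹) ^ Z ≤ 1 := pow_le_one₀ h0 h1
    have h3 : ∑ t0 ∈ T, (if cnt T1 l (y + t0) ≤ Z then wq Q (cnt T1 l (y + t0)) else 0) ≤
        (T.card : ℝ) * wq Q Z := by
      rw [← nsmul_eq_mul, ← Finset.sum_const]
      apply Finset.sum_le_sum
      intro t0 _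
      split_ifs with h
      · exact wq_mono_right Q h
      · exact wq_nonneg _ _
    calc _ ≤ 1 * ∑ t0 ∈ T, (if cnt T1 l (y + t0) ≤ Z then wq Q (cnt T1 l (y + t0)) else 0) :=
          mul_le_mul_of_nonneg_right h2 hsum0
      _ ≤ b := by linarith

/-- bound for the sum of `bin` over all points -/
theorem sum_bin_FQ_le (g Q Λ Z : ℕ) (hΛ : 1 ≤ Λ) (T : Finset G) (l : List G) :
    (1 - ((Λ:ℝ) ^ g)⁻¹) ^ Q * ∑ x, bin ((Λ:ℝ) ^ g)⁻¹ (FQ g Q Λ) (cnt T l x) ≤
      Psi Q Z T l + Fintype.card G * ((1 - ((Λ:ℝ) ^ g)⁻¹) ^ Z * (1 + 2 * (l.length:ℝ)) ^ Q) := by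
  obtain ⟨h0, h1⟩ := gamma_bounds g Λ hΛ
  have hpt : ∀ x, (1 - ((Λ:ℝ) ^ g)⁻¹) ^ Q * bin ((Λ:ℝ) ^ g)⁻¹ (FQ g Q Λ) (cnt T l x) ≤
      (if cnt T l x ≤ Z then wq Q (cnt T l x) else 0) +
        (1 - ((Λ:ℝ) ^ g)⁻¹) ^ Z * (1 + 2 * (l.length:ℝ)) ^ Q := by
    intro x
    refine (bin_FQ_le g Q Λ _ hΛ).trans ?_
    have hw := wq_nonneg Q (cnt T l x)
    have htail : 0 ≤ (1 - ((Λ:ℝ) ^ g)⁻¹) ^ Z * (1 + 2 * (l.length:ℝ)) ^ Q := by positivity
    split_ifs with h
    · have : (1 - ((Λ:ℝ) ^ g)⁻¹) ^ (cnt T l x) ≤ 1 := pow_le_one₀ h0 h1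
      have := mul_le_mul_of_nonneg_right this hw
      linarith
    · rw [zero_add]
      have e1 : (1 - ((Λ:ℝ) ^ g)⁻¹) ^ (cnt T l x) ≤ (1 - ((Λ:ℝ) ^ g)⁻¹) ^ Z :=
        pow_le_pow_of_le_one h0 h1 (by omega)
      have e2 : wq Q (cnt T l x) ≤ (1 + 2 * (l.length:ℝ)) ^ Q := by
        refine (wq_le_pow Q _).trans ?_
        have : ((cnt T l x : ℕ) : ℝ) ≤ l.length := by exact_mod_cast cnt_le_length T l x
        gcongr
      gcongr
  rw [Finset.mul_sum]
  refine (Finset.sum_le_sum (fun x _ => hpt x)).trans (le_of_eq ?_)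
  rw [Finset.sum_add_distrib]
  unfold Psi
  simp

end

/-! ### Telescoping -/

/-- the suffix of length `j` -/
def suf {α : Type*} (j : ℕ) (L : List α) : List α := L.drop (L.length - j)

theorem suf_cons_of_le {α : Type*} {j : ℕ} {L : List α} (y : α) (h : j ≤ L.length) :
    suf j (y :: L) = suf j L := by
  unfold suf
  have : (y :: L).length - j = (L.length - j) + 1 := by simp; omega
  rw [this, List.drop_succ_cons]

theorem suf_length_self {α : Type*} (L : List α) : suf L.length L = L := by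
  unfold suf; simp

theorem suf_zero {α : Type*} (L : List α) : suf 0 L = [] := by
  unfold suf; simp

theorem suf_suffix {α : Type*} (j : ℕ) (L : List α) : suf j L <:+ L := List.drop_suffix _ _

theorem length_suf {α : Type*} {j : ℕ} {L : List α} (h : j ≤ L.length) :
    (suf j L).length = j := by
  unfold suf; rw [List.length_drop]; omega

theorem suf_eq_of_suffix {α : Type*} {l L : List α} (h : l <:+ L) : suf l.length L = l := by
  obtain ⟨p, hp⟩ := h
  subst hp
  unfold suf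
  simp

theorem telescope {G : Type*} [AddCommGroup G] [Fintype G] [DecidableEq G]
    (V : List G → ℝ) (g : List G → G → ℝ) (L : List G)
    (H : ∀ l y, (y :: l) <:+ L → V l - V (y :: l) ≤ g l y) (i j : ℕ) (hij : i ≤ j)
    (hj : j ≤ L.length) :
    V (suf i L) - V (suf j L) ≤ stepSum (fun l y => ind i j l * g l y) L := by
  induction L generalizing i j with
  | nil =>
    have : j = 0 := by simpa using hj
    have : i = 0 := by omega
    subst this; subst j
    simp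
  | cons y M ih =>
    have ih' := ih (fun l y' h => H l y' (h.trans (List.suffix_cons y M)))
    rw [stepSum_cons]
    by_cases hjM : j ≤ M.length
    · rw [suf_cons_of_le y hjM, suf_cons_of_le y (hij.trans hjM)]
      have h1 : ind i j M = 0 := by
        unfold ind; rw [if_neg]; omega
      rw [h1, zero_mul, zero_add]
      exact ih' i j hij hjM
    · have hj' : j = (y :: M).length := by simp at hj ⊢; omega
      by_cases hi : i = j
      · subst hi
        have : stepSum (fun l y => ind i i l * g l y) M = stepSum (fun (_ : List G) (_ : G) => (0:ℝ)) M := by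
          apply stepSum_congr
          intro l y' _
          unfold ind; rw [if_neg (by omega), zero_mul]
        rw [this, stepSum_const]
        have h1 : ind i i M = 0 := by
          unfold ind; rw [if_neg]; omega
        rw [h1]; simp
      · have hiM : i ≤ M.length := by simp at hj'; omega
        rw [hj', suf_length_self, suf_cons_of_le y hiM]
        have h1 := ih' i M.length hiM le_rfl
        rw [suf_length_self] at h1
        have h2 : stepSum (fun l y => ind i M.length l * g l y) M =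
            stepSum (fun l y' => ind i (y :: M).length l * g l y') M := by
          apply stepSum_congr
          intro l y' hs
          have hl : l.length < M.length := by
            have := hs.length_le
            simp at this; omega
          have : ind i M.length l = ind i (y :: M).length l := by
            unfold ind
            simp only [List.length_cons]
            by_cases hil : i ≤ l.length
            · rw [if_pos ⟨hil, hl⟩, if_pos ⟨hil, by omega⟩]
            · rw [if_neg (fun h => hil h.1), if_neg (fun h => hil h.1)]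
          rw [this]
        rw [h2] at h1
        have h3 := H M y (List.suffix_refl _)
        have h4 : ind i (y :: M).length M = 1 := by
          unfold ind; rw [if_pos]; simp; omega
        rw [h4]
        linarith

end Pool.Agent.Helper274.Cover
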