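import Mathlib
import Pool.Agent.Helper274.CoverI

set_option autoImplicit false
set_option linter.unusedSectionVars false

open Finset Filter

namespace Pool.Agent.Helper274.Cover

theorem geo_stepSum {G : Type*} [AddCommGroup G] [Fintype G] [DecidableEq G]
    (c k : ℝ) (hc : 0 < c) (hk : 0 < k) (L : List G) (j : ℕ) (hj : j ≤ L.length) :
    stepSum (fun l (_ : G) => ind 0 j l * (1 + c / k) ^ l.length) L ≤
      (k / c) * ((1 + c / k) ^ j - 1) := by
  have h := telescope (fun l : List G => (k / c) * (1 + c / k) ^ l.length)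
    (fun l _ => - (1 + c / k) ^ l.length) L (by
      intro l y _
      simp only [List.length_cons, pow_succ]
      apply le_of_eq
      field_simp
      ring) 0 j (Nat.zero_le _) hj
  rw [suf_zero, length_suf hj] at h
  have h2 : stepSum (fun l (_ : G) => ind 0 j l * - (1 + c / k) ^ l.length) L =
      - stepSum (fun l (_ : G) => ind 0 j l * (1 + c / k) ^ l.length) L := by
    have := stepSum_mul (-1) (fun l (_ : G) => ind 0 j l * (1 + c / k) ^ l.length) L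
    rw [neg_one_mul] at this
    rw [← this]
    apply stepSum_congr
    intro l y _
    ring
  rw [h2] at h
  simp only [List.length_nil, pow_zero, mul_one] at h
  linarith

theorem stepSum_ind_add_le {G : Type*} [AddCommGroup G] [Fintype G] [DecidableEq G]
    (i j : ℕ) (A B : ℝ) (hB : 0 ≤ B) (g : List G → G → ℝ) (L : List G) :
    stepSum (fun l y => ind i j l * (A * g l y + B)) L ≤
      A * stepSum (fun l y => ind i j l * g l y) L + B * L.length := by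
  have h1 : stepSum (fun l y => ind i j l * (A * g l y + B)) L =
      stepSum (fun l y => A * (ind i j l * g l y) + B * ind i j l) L := by
    apply stepSum_congr
    intro l y _
    ring
  rw [h1, stepSum_add, stepSum_mul, stepSum_mul]
  apply add_le_add le_rfl
  apply mul_le_mul_of_nonneg_left _ hB
  have := stepSum_mono (g := fun (l : List G) (_ : G) => ind i j l) (h := fun _ _ => (1:ℝ)) (L := L)
    (fun l y _ => ind_le_one i j l)
  rw [stepSum_const, one_mul] at this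
  exact this

def MomOK {G : Type*} [AddCommGroup G] [Fintype G] [DecidableEq G]
    (K Q Z : ℕ) (c δ : ℝ) (L : List G) : Prop :=
  ∀ T : Finset G, T.card ≤ K * L.length → ∀ l, l <:+ L →
    Psi Q Z T l ≤ Fintype.card G * ((1 + c / L.length) ^ l.length + δ)

/-- deterministic moment step -/
theorem mom_step {G : Type*} [AddCommGroup G] [Fintype G] [DecidableEq G]
    (K Q Z Z' g Λ s0 D : ℕ) (δ ε b : ℝ) (L : List G) (hnd : L.Nodup) (hK : 1 ≤ K)
    (hΛ : 1 ≤ Λ) (hL : 1 ≤ L.length) (hLN : L.length ^ 2 ≤ Fintype.card G)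
    (hε : 0 < ε) (hεδ : 48 * K * ε ≤ δ)
    (hDB : DB D L.toFinset)
    (hTr : TrOK ((Λ:ℝ) ^ g)⁻¹ (FQ g Q Λ) K s0 b (ε * K * (L.length : ℝ) ^ 2) L)
    (hMom : MomOK K Q Z' (12 * K) ε L)
    (hρ : 1 / 2 ≤ (1 - ((Λ:ℝ) ^ g)⁻¹) ^ (Z + Q))
    (htail : (1 - ((Λ:ℝ) ^ g)⁻¹) ^ Z' * (1 + 2 * (L.length:ℝ)) ^ Q ≤ ε)
    (hb : (K * L.length : ℝ) * wq Q Z ≤ b)
    (hexc : 2 * (((s0 ^ 2 * D : ℕ) : ℝ) * wq Q Z) ≤ δ / 4 * L.length) :
    MomOK K (Q + 1) Z (12 * K) δ L := by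
  intro T hT l' hl'
  obtain ⟨S, hSc, hS⟩ := hTr T hT
  set j := l'.length with hj
  have hjL : j ≤ L.length := hl'.length_le
  have htr := hS 0 j (Nat.zero_le _) hjL
  set k : ℝ := (L.length : ℝ) with hk
  set N : ℝ := (Fintype.card G : ℝ) with hN
  have hkpos : (1:ℝ) ≤ k := by rw [hk]; exact_mod_cast hL
  have hkN : k ^ 2 ≤ N := by rw [hk, hN]; exact_mod_cast hLN
  have hKr : (1:ℝ) ≤ K := by exact_mod_cast hK
  have hNpos : 0 < N := lt_of_lt_of_le (by positivity) hkN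
  obtain ⟨hγ0, hγ1⟩ := gamma_bounds g Λ hΛ
  set q : ℝ := 1 - ((Λ:ℝ) ^ g)⁻¹ with hq
  have hqZQ : 1 / 2 ≤ q ^ Z * q ^ Q := by rw [← pow_add]; exact hρ
  have hqZ0 : 0 ≤ q ^ Z := by positivity
  have hqQ0 : 0 ≤ q ^ Q := by positivity
  have hqZ1 : q ^ Z ≤ 1 := pow_le_one₀ hγ0 hγ1
  have hqQ1 : q ^ Q ≤ 1 := pow_le_one₀ hγ0 hγ1
  have hqZ : 1 / 2 ≤ q ^ Z := by nlinarith
  have hqQ : 1 / 2 ≤ q ^ Q := by nlinarith
  have hqZpos : 0 < q ^ Z := by linarith
  have hqQpos : 0 < q ^ Q := by linarith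
  set ρZ : ℝ := (q ^ Z)⁻¹ with hρZ
  set ρQ : ℝ := (q ^ Q)⁻¹ with hρQ
  have hρZpos : 0 < ρZ := by positivity
  have hρQpos : 0 < ρQ := by positivity
  have hρZ2 : ρZ ≤ 2 := by
    rw [hρZ]
    calc (q ^ Z)⁻¹ ≤ (1 / 2 : ℝ)⁻¹ := inv_anti₀ (by norm_num) hqZ
      _ = 2 := by norm_num
  have hρZQ : ρZ * ρQ ≤ 2 := by
    rw [hρZ, hρQ, ← mul_inv]
    calc (q ^ Z * q ^ Q)⁻¹ ≤ (1 / 2 : ℝ)⁻¹ := inv_anti₀ (by norm_num) hqZQ
      _ = 2 := by norm_num
  set E : ℝ := ((s0 ^ 2 * D : ℕ) : ℝ) with hE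
  have hwqZ := wq_nonneg Q Z
  have hTr' : (T.card : ℝ) ≤ K * k := by rw [hk]; exact_mod_cast hT
  have hstep : ∀ l y, (y :: l) <:+ L →
      (- Psi (Q + 1) Z T l) - (- Psi (Q + 1) Z T (y :: l)) ≤
      (6 * ρZ) * min (phi (bin ((Λ:ℝ) ^ g)⁻¹ (FQ g Q Λ)) T
        (T.filter (fun t => t - y ∉ S)) l y) b + 2 * (E * wq Q Z) := by
    intro l y hs
    have hnd' : (y :: l).Nodup := hnd.sublist hs.sublist
    have hy : y ∉ l := (List.nodup_cons.mp hnd').1
    have h1 := Psi_cons_le Q Z T l y hy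
    have hl : ∀ a ∈ l, a ∈ L.toFinset := by
      intro a ha
      rw [List.mem_toFinset]
      exact hs.subset (List.mem_cons_of_mem _ ha)
    have hexcept := exceptional_le hDB T S l hl y
    have hexcept' : (T.filter (fun t0 => 2 ≤ (T.filter (fun t => t - y ∈ S ∧
        y + t0 - t ∈ l)).card)).card ≤ s0 ^ 2 * D :=
      hexcept.trans (Nat.mul_le_mul_right _ (Nat.pow_le_pow_left hSc 2))
    have h2 := planted_le Q Z T S l y (s0 ^ 2 * D) hexcept'
    have hb' : (T.card : ℝ) * wq Q Z ≤ b :=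
      (mul_le_mul_of_nonneg_right hTr' hwqZ).trans hb
    have h3 := trunc_le_min g Q Λ Z hΛ T (T.filter (fun t => t - y ∉ S)) l y b hb'
    rw [← hq] at h3
    set Sg := ∑ t0 ∈ T, (if cnt (T.filter (fun t => t - y ∉ S)) l (y + t0) ≤ Z then
        wq Q (cnt (T.filter (fun t => t - y ∉ S)) l (y + t0)) else 0)
    set mn := min (phi (bin ((Λ:ℝ) ^ g)⁻¹ (FQ g Q Λ)) T (T.filter (fun t => t - y ∉ S)) l y) b
    have h4 : Sg ≤ ρZ * mn := by
      rw [hρZ, inv_mul_eq_div, le_div_iff₀ hqZpos]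
      linarith
    linarith
  have htel := telescope (fun l => - Psi (Q + 1) Z T l)
    (fun l y => (6 * ρZ) * min (phi (bin ((Λ:ℝ) ^ g)⁻¹ (FQ g Q Λ)) T
        (T.filter (fun t => t - y ∉ S)) l y) b + 2 * (E * wq Q Z)) L hstep 0 j (Nat.zero_le _) hjL
  rw [suf_zero, suf_eq_of_suffix hl', Psi_nil] at htel
  have hsplit := stepSum_ind_add_le 0 j (6 * ρZ) (2 * (E * wq Q Z)) (by positivity)
    (fun l y => min (phi (bin ((Λ:ℝ) ^ g)⁻¹ (FQ g Q Λ)) T
        (T.filter (fun t => t - y ∉ S)) l y) b) L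
  -- the right side of the transfer
  have hrhs : stepSum (fun l (_ : G) => ind 0 j l *
      ((T.card : ℝ) / Fintype.card G * ∑ x, bin ((Λ:ℝ) ^ g)⁻¹ (FQ g Q Λ) (cnt T l x))) L ≤
      stepSum (fun l (_ : G) => ind 0 j l *
        ((ρQ * K * k) * (1 + 12 * K / k) ^ l.length + (ρQ * K * k) * (2 * ε))) L := by
    apply stepSum_mono
    intro l y hs
    apply mul_le_mul_of_nonneg_left _ (ind_nonneg _ _ _)
    have hl : l <:+ L := (List.suffix_cons y l).trans hs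
    have h1 := sum_bin_FQ_le g Q Λ Z' hΛ T l
    rw [← hq] at h1
    have h2 := hMom T hT l hl
    rw [← hk, ← hN] at h2
    have h3 : q ^ Z' * (1 + 2 * (l.length:ℝ)) ^ Q ≤ ε := by
      refine le_trans ?_ htail
      have : (l.length : ℝ) ≤ k := by rw [hk]; exact_mod_cast hl.length_le
      gcongr
    rw [← hN] at h1
    have h4 : q ^ Q * ∑ x, bin ((Λ:ℝ) ^ g)⁻¹ (FQ g Q Λ) (cnt T l x) ≤
        N * ((1 + 12 * K / k) ^ l.length + ε) + N * ε := by
      have : N * (q ^ Z' * (1 + 2 * (l.length:ℝ)) ^ Q) ≤ N * ε :=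
        mul_le_mul_of_nonneg_left h3 hNpos.le
      linarith
    have h5 : ∑ x, bin ((Λ:ℝ) ^ g)⁻¹ (FQ g Q Λ) (cnt T l x) ≤
        ρQ * (N * ((1 + 12 * K / k) ^ l.length + 2 * ε)) := by
      rw [hρQ, inv_mul_eq_div, le_div_iff₀ hqQpos]
      linarith
    have h6 : (T.card : ℝ) / N ≤ K * k / N := by gcongr
    have h7 : 0 ≤ ∑ x, bin ((Λ:ℝ) ^ g)⁻¹ (FQ g Q Λ) (cnt T l x) :=
      Finset.sum_nonneg (fun x _ => bin_FQ_nonneg g Q Λ _ hΛ)
    calc (T.card : ℝ) / N * ∑ x, bin ((Λ:ℝ) ^ g)⁻¹ (FQ g Q Λ) (cnt T l x) ≤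
        (K * k / N) * (ρQ * (N * ((1 + 12 * K / k) ^ l.length + 2 * ε))) :=
          mul_le_mul h6 h5 h7 (by positivity)
      _ = _ := by field_simp
  have hrhs2 := stepSum_ind_add_le 0 j (ρQ * K * k) ((ρQ * K * k) * (2 * ε)) (by positivity)
    (fun l (_ : G) => (1 + 12 * K / k) ^ l.length) L
  have hgeo := geo_stepSum (12 * K : ℝ) k (by positivity) (by positivity) L j hjL
  rw [← hk] at hsplit hrhs2
  set x : ℝ := 1 + 12 * K / k with hx
  have hx1 : 1 ≤ x := by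
    rw [hx]
    have : 0 ≤ 12 * (K:ℝ) / k := by positivity
    linarith
  have hxj : 1 ≤ x ^ j := one_le_pow₀ hx1
  set M := stepSum (fun l y => ind 0 j l * min (phi (bin ((Λ:ℝ) ^ g)⁻¹ (FQ g Q Λ)) T
        (T.filter (fun t => t - y ∉ S)) l y) b) L with hM
  -- M bound
  have hMle : M ≤ (ρQ * K * k) * ((k / (12 * K)) * (x ^ j - 1)) + (ρQ * K * k) * (2 * ε) * k +
      ε * K * k ^ 2 := by
    have := mul_le_mul_of_nonneg_left hgeo (show 0 ≤ ρQ * K * k by positivity)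
    linarith
  have hPsi : Psi (Q + 1) Z T l' ≤ N + (6 * ρZ) * M + 2 * (E * wq Q Z) * k := by
    linarith
  have hfin1 : (6 * ρZ) * M ≤ k ^ 2 * (x ^ j - 1) + 36 * K * ε * k ^ 2 := by
    calc (6 * ρZ) * M ≤ (6 * ρZ) * ((ρQ * K * k) * ((k / (12 * K)) * (x ^ j - 1)) +
          (ρQ * K * k) * (2 * ε) * k + ε * K * k ^ 2) :=
          mul_le_mul_of_nonneg_left hMle (by positivity)
      _ = (ρZ * ρQ) * (k ^ 2 * (x ^ j - 1) / 2) + (ρZ * ρQ) * (12 * K * ε * k ^ 2) +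
          ρZ * (6 * ε * K * k ^ 2) := by
          field_simp
          ring
      _ ≤ 2 * (k ^ 2 * (x ^ j - 1) / 2) + 2 * (12 * K * ε * k ^ 2) + 2 * (6 * ε * K * k ^ 2) := by
          have h0 : 0 ≤ k ^ 2 * (x ^ j - 1) / 2 := by
            have : 0 ≤ x ^ j - 1 := by linarith
            positivity
          gcongr
      _ = _ := by ring
  have hfin2 : k ^ 2 * (x ^ j - 1) ≤ N * (x ^ j - 1) :=
    mul_le_mul_of_nonneg_right hkN (by linarith)
  have hδ0 : 0 ≤ δ := le_trans (by positivity) hεδ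
  have hfin3 : 36 * K * ε * k ^ 2 ≤ 3 / 4 * δ * N := by
    calc 36 * K * ε * k ^ 2 = 3 / 4 * (48 * K * ε) * k ^ 2 := by ring
      _ ≤ 3 / 4 * δ * N := by gcongr
  have hfin4 : 2 * (E * wq Q Z) * k ≤ δ / 4 * N := by
    calc 2 * (E * wq Q Z) * k ≤ (δ / 4 * k) * k := by gcongr
      _ = δ / 4 * k ^ 2 := by ring
      _ ≤ δ / 4 * N := by gcongr
  calc Psi (Q + 1) Z T l' ≤ N + (N * (x ^ j - 1) + 3 / 4 * δ * N) + δ / 4 * N := by linarith
    _ = N * (x ^ j + δ) := by ring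

theorem whp_mom (K : ℕ) (hK : 1 ≤ K) (Q : ℕ) : ∀ (e : ℕ) (δ : ℝ), 0 < δ →
    WHP (fun G _ _ _ L => L.Nodup → MomOK K Q ((lam (Fintype.card G)) ^ e) (12 * K) δ L) := by
  induction Q with
  | zero =>
    intro e δ hδ η hη
    filter_upwards with N G _ _ _ hG
    have : bad (Nat.sqrt N) (fun L : List G => L.Nodup →
        MomOK K 0 ((lam (Fintype.card G)) ^ e) (12 * K) δ L) ≤ 0 := by
      have h0 : bad (Nat.sqrt N) (fun _ : List G => True) = 0 := by simp [bad]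
      rw [← h0]
      apply bad_mono
      intro L _ _ _ T _ l _
      refine (Psi_zero_le _ T l).trans ?_
      have hN : (0:ℝ) ≤ Fintype.card G := by positivity
      have h1 : (1:ℝ) ≤ (1 + 12 * (K:ℝ) / L.length) ^ l.length := by
        apply one_le_pow₀
        have : (0:ℝ) ≤ 12 * (K:ℝ) / L.length := by positivity
        linarith
      nlinarith
    refine this.trans (by positivity)
  | succ Q ih =>
    intro e δ hδ
    have hKr : (1:ℝ) ≤ K := by exact_mod_cast hK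
    set ε : ℝ := min (δ / (48 * K)) 1 with hε
    have hεpos : 0 < ε := lt_min (by positivity) one_pos
    have hε1 : ε ≤ 1 := min_le_right _ _
    have hεδ : 48 * K * ε ≤ δ := by
      have : ε ≤ δ / (48 * K) := min_le_left _ _
      rw [le_div_iff₀ (by positivity)] at this
      linarith
    set b0 : ℕ := (e + 1) * Q with hb0
    set g : ℕ := 2 * b0 + e + 3 with hg
    set m : ℕ := (g + 1) * Q with hm
    have h1 := whp_transfer K g m b0 hK (by omega) ε hεpos hε1 (FQ g Q)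
      (by
        filter_upwards [eventually_ge_atTop 2] with Λ hΛ z
        exact FQ_bound g Q Λ z hΛ)
      (by
        filter_upwards [eventually_ge_atTop 1] with Λ hΛ r
        exact bin_FQ_nonneg g Q Λ r hΛ)
    have h2 := ih (g + 2) ε hεpos
    refine (h1.and h2).mono ?_
    filter_upwards [eventually_lam_pow_le 0 1, eventually_le_lam (2 + 2 * Q),
      eventually_le_lam 3, eventually_le_lam (-Real.log ε),
      eventually_lam_pow_le (2 * (2 * m + 3) + 2 + b0) (32 / δ)]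
      with N hk0 hΛQ hΛ3 hΛε hkb G _ _ _ hG L hLlen hP hnd
    subst hG
    set N := Fintype.card G with hN
    obtain ⟨hDB, hTr⟩ := hP.1 hnd
    have hMom := hP.2 hnd
    have hk1 : 1 ≤ L.length := by
      rw [hLlen]
      have : (1:ℝ) ≤ Nat.sqrt N := by simpa using hk0
      exact_mod_cast this
    have hΛ1 : 1 ≤ lam N := lam_pos N
    have hLN : L.length ^ 2 ≤ N := by rw [hLlen]; exact Nat.sqrt_le' N
    set Λ : ℕ := lam N with hΛdef
    have hΛr : (1:ℝ) ≤ Λ := by exact_mod_cast hΛ1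
    obtain ⟨hγ0, hγ1⟩ := gamma_bounds g Λ hΛ1
    have hwq : wq Q (Λ ^ e) ≤ (Λ:ℝ) ^ b0 := by
      refine (wq_le_pow Q _).trans ?_
      rw [hb0, pow_mul]
      apply pow_le_pow_left₀ (by positivity)
      push_cast
      have h1e : (1:ℝ) ≤ (Λ:ℝ) ^ e := one_le_pow₀ hΛr
      calc 1 + 2 * (Λ:ℝ) ^ e ≤ 3 * (Λ:ℝ) ^ e := by linarith
        _ ≤ Λ * (Λ:ℝ) ^ e := by gcongr
        _ = _ := by ring
    have hwq0 := wq_nonneg Q (Λ ^ e)
    rw [← hLlen] at hTr
    refine mom_step K Q (Λ ^ e) (Λ ^ (g + 2)) g Λ (2 * Λ ^ (2 * m + 3)) (Λ ^ 2) δ ε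
      ((Λ:ℝ) ^ b0 * (K * L.length)) L hnd hK hΛ1 hk1 hLN hεpos hεδ hDB hTr hMom ?_ ?_ ?_ ?_
    · -- 1/2 ≤ (1-γ)^(Z+Q)
      have hB := one_add_mul_le_pow (a := - ((Λ:ℝ) ^ g)⁻¹) (by linarith) (Λ ^ e + Q)
      have h3 : (1:ℝ) + -((Λ:ℝ) ^ g)⁻¹ = 1 - ((Λ:ℝ) ^ g)⁻¹ := by ring
      rw [h3] at hB
      refine le_trans ?_ hB
      have h4 : ((Λ ^ e + Q : ℕ) : ℝ) * ((Λ:ℝ) ^ g)⁻¹ ≤ 1 / 2 := by
        rw [← div_eq_mul_inv, div_le_iff₀ (by positivity)]
        push_cast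
        have h1e : (1:ℝ) ≤ (Λ:ℝ) ^ e := one_le_pow₀ hΛr
        have hQ0 : (0:ℝ) ≤ Q := by positivity
        have h5 : 2 * ((Λ:ℝ) ^ e + Q) ≤ (Λ:ℝ) ^ g := by
          calc 2 * ((Λ:ℝ) ^ e + Q) ≤ (2 + 2 * Q) * (Λ:ℝ) ^ e := by nlinarith
            _ ≤ Λ * (Λ:ℝ) ^ e := by gcongr
            _ = (Λ:ℝ) ^ (e + 1) := by ring
            _ ≤ (Λ:ℝ) ^ g := pow_le_pow_right₀ hΛr (by omega)
        linarith
      linarith
    · -- tail
      have h3 : (1 - ((Λ:ℝ) ^ g)⁻¹) ^ (Λ ^ (g + 2)) ≤ Real.exp (-(Λ:ℝ) ^ 2) := by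
        calc (1 - ((Λ:ℝ) ^ g)⁻¹) ^ (Λ ^ (g + 2)) ≤
            (Real.exp (-((Λ:ℝ) ^ g)⁻¹)) ^ (Λ ^ (g + 2)) := by
              apply pow_le_pow_left₀ hγ0
              have := Real.add_one_le_exp (-((Λ:ℝ) ^ g)⁻¹)
              linarith
          _ = Real.exp ((Λ ^ (g + 2) : ℕ) * (-((Λ:ℝ) ^ g)⁻¹)) := by rw [← Real.exp_nat_mul]
          _ = Real.exp (-(Λ:ℝ) ^ 2) := by
              congr 1
              push_cast
              rw [pow_add]
              field_simp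
      have h4 : (1 + 2 * (L.length:ℝ)) ^ Q ≤ Real.exp (Q * Λ) := by
        have h5 : 1 + 2 * (L.length:ℝ) ≤ Real.exp Λ := by
          have h6 := le_exp_lam N
          have h7 : (L.length : ℝ) ≤ N := by
            rw [hLlen]; exact_mod_cast Nat.sqrt_le_self N
          linarith
        calc (1 + 2 * (L.length:ℝ)) ^ Q ≤ (Real.exp Λ) ^ Q := by gcongr
          _ = _ := by rw [← Real.exp_nat_mul]
      calc _ ≤ Real.exp (-(Λ:ℝ) ^ 2) * Real.exp (Q * Λ) := by gcongr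
        _ = Real.exp (-(Λ:ℝ) ^ 2 + Q * Λ) := by rw [← Real.exp_add]
        _ ≤ Real.exp (Real.log ε) := by
            apply Real.exp_le_exp.mpr
            have hQ0 : (0:ℝ) ≤ Q := by positivity
            have : (Λ:ℝ) * (2 + 2 * Q) ≤ Λ * Λ := by gcongr
            nlinarith
        _ = ε := Real.exp_log hεpos
    · -- b
      calc (K * L.length : ℝ) * wq Q (Λ ^ e) ≤ (K * L.length : ℝ) * (Λ:ℝ) ^ b0 := by gcongr
        _ = _ := by ring
    · -- exceptional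
      push_cast
      rw [div_mul_eq_mul_div, div_le_iff₀ hδ] at hkb
      rw [← hLlen] at hkb
      calc 2 * ((2 * (Λ:ℝ) ^ (2 * m + 3)) ^ 2 * (Λ:ℝ) ^ 2 * wq Q (Λ ^ e)) ≤
          2 * ((2 * (Λ:ℝ) ^ (2 * m + 3)) ^ 2 * (Λ:ℝ) ^ 2 * (Λ:ℝ) ^ b0) := by gcongr
        _ = 8 * (Λ:ℝ) ^ (2 * (2 * m + 3) + 2 + b0) := by ring
        _ ≤ _ := by linarith

end Pool.Agent.Helper274.Cover
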