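import Mathlib
import Pool.Agent.Helper274.CoverJ

set_option autoImplicit false
set_option linter.unusedSectionVars false

open Finset Filter

namespace Pool.Agent.Helper274.Cover

/-- the alternating weight -/
noncomputable def FL (g q Λ z : ℕ) : ℝ := if z ≤ q then (1 - (Λ:ℝ) ^ g) ^ z else 0

theorem FL_bound (g q Λ z : ℕ) (hΛ : 1 ≤ Λ) : |FL g q Λ z| ≤ (Λ:ℝ) ^ (g * q) := by
  unfold FL
  have hΛr : (1:ℝ) ≤ Λ := by exact_mod_cast hΛ
  have h1 : (1:ℝ) ≤ (Λ:ℝ) ^ g := one_le_pow₀ hΛr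
  split_ifs with h
  · rw [abs_pow]
    have h2 : |1 - (Λ:ℝ) ^ g| ≤ (Λ:ℝ) ^ g := by
      rw [abs_le]; constructor <;> linarith
    calc |1 - (Λ:ℝ) ^ g| ^ z ≤ ((Λ:ℝ) ^ g) ^ z := pow_le_pow_left₀ (abs_nonneg _) h2 z
      _ ≤ ((Λ:ℝ) ^ g) ^ q := pow_le_pow_right₀ h1 h
      _ = _ := by rw [← pow_mul]
  · simp

theorem bin_FL (g q Λ r : ℕ) (hΛ : 1 ≤ Λ) :
    bin ((Λ:ℝ) ^ g)⁻¹ (FL g q Λ) r = (1 - ((Λ:ℝ) ^ g)⁻¹) ^ r *
      ∑ z ∈ Finset.range (q + 1), (r.choose z : ℝ) * (-1) ^ z := by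
  rw [sum_range_swap q r (fun z => (-1 : ℝ) ^ z), Finset.mul_sum]
  unfold bin FL
  apply Finset.sum_congr rfl
  intro z hz
  rw [mem_range] at hz
  have hΛr : (1:ℝ) ≤ Λ := by exact_mod_cast hΛ
  have hpos : (0:ℝ) < (Λ:ℝ) ^ g := by positivity
  set γ : ℝ := ((Λ:ℝ) ^ g)⁻¹ with hγ
  have hγpos : 0 < γ := by positivity
  split_ifs with h
  · have e1 : γ ^ z * (1 - (Λ:ℝ) ^ g) ^ z = (-1) ^ z * (1 - γ) ^ z := by
      rw [← mul_pow, ← mul_pow]
      congr 1
      rw [hγ]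
      field_simp
      ring
    have e2 : (1 - γ) ^ z * (1 - γ) ^ (r - z) = (1 - γ) ^ r := by
      rw [← pow_add]; congr 1; omega
    calc (r.choose z : ℝ) * (γ ^ z * (1 - γ) ^ (r - z) * (1 - (Λ:ℝ) ^ g) ^ z) =
        (r.choose z : ℝ) * ((γ ^ z * (1 - (Λ:ℝ) ^ g) ^ z) * (1 - γ) ^ (r - z)) := by ring
      _ = (r.choose z : ℝ) * ((-1) ^ z * ((1 - γ) ^ z * (1 - γ) ^ (r - z))) := by rw [e1]; ring
      _ = _ := by rw [e2]; ring
  · simp

theorem bin_FL_zero (g q Λ : ℕ) (hΛ : 1 ≤ Λ) : bin ((Λ:ℝ) ^ g)⁻¹ (FL g q Λ) 0 = 1 := by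
  rw [bin_FL g q Λ 0 hΛ, Finset.sum_range_succ']
  simp

theorem bin_FL_succ (g n Λ r : ℕ) (hΛ : 1 ≤ Λ) :
    bin ((Λ:ℝ) ^ g)⁻¹ (FL g (2 * n) Λ) (r + 1) =
      (1 - ((Λ:ℝ) ^ g)⁻¹) ^ (r + 1) * (r.choose (2 * n) : ℝ) := by
  rw [bin_FL g (2 * n) Λ (r + 1) hΛ]
  congr 1
  have h := Int.alternating_sum_range_choose_eq_choose (n := r) (m := 2 * n)
  have h2 : (((∑ i ∈ Finset.range (2 * n + 1), ((-1) ^ i * ((r + 1).choose i : ℤ)) : ℤ)) : ℝ) =
      (((-1) ^ (2 * n) * (r.choose (2 * n) : ℤ) : ℤ) : ℝ) := by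
    exact_mod_cast h
  push_cast at h2
  rw [pow_mul] at h2
  simp only [even_two, Even.neg_pow, one_pow, one_mul] at h2
  rw [← h2]
  apply Finset.sum_congr rfl
  intro z _
  ring

theorem bin_FL_nonneg (g n Λ r : ℕ) (hΛ : 1 ≤ Λ) :
    0 ≤ bin ((Λ:ℝ) ^ g)⁻¹ (FL g (2 * n) Λ) r := by
  cases r with
  | zero => rw [bin_FL_zero _ _ _ hΛ]; norm_num
  | succ r =>
    rw [bin_FL_succ g n Λ r hΛ]
    have := (gamma_bounds g Λ hΛ).1
    positivity

theorem bin_FL_le (g n Λ r : ℕ) (hΛ : 1 ≤ Λ) :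
    bin ((Λ:ℝ) ^ g)⁻¹ (FL g (2 * n) Λ) (r + 1) ≤
      (1 / 4) ^ n * ((1 - ((Λ:ℝ) ^ g)⁻¹) ^ (r + 1) * wq (2 * n) (r + 1)) := by
  rw [bin_FL_succ g n Λ r hΛ]
  have h0 := (gamma_bounds g Λ hΛ).1
  have h1 : (r.choose (2 * n) : ℝ) ≤ (1 / 4) ^ n * wq (2 * n) (r + 1) := by
    have h2 : (((r + 1).choose (2 * n) : ℕ) : ℝ) * 2 ^ (2 * n) ≤ wq (2 * n) (r + 1) := by
      unfold wq
      exact Finset.single_le_sum (f := fun z => (((r + 1).choose z : ℕ) : ℝ) * 2 ^ z)
        (fun z _ => by positivity) (mem_range.mpr (by omega))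
    have h3 : (r.choose (2 * n) : ℝ) ≤ (((r + 1).choose (2 * n) : ℕ) : ℝ) := by
      exact_mod_cast Nat.choose_le_choose _ (Nat.le_succ r)
    have h4 : ((1:ℝ) / 4) ^ n * 2 ^ (2 * n) = 1 := by
      rw [pow_mul, ← mul_pow]; norm_num
    calc (r.choose (2 * n) : ℝ) ≤ (((r + 1).choose (2 * n) : ℕ) : ℝ) := h3
      _ = (1 / 4) ^ n * ((((r + 1).choose (2 * n) : ℕ) : ℝ) * 2 ^ (2 * n)) := by
          rw [mul_comm ((((r + 1).choose (2 * n) : ℕ) : ℝ)), ← mul_assoc, h4, one_mul]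
      _ ≤ _ := by gcongr
  calc (1 - ((Λ:ℝ) ^ g)⁻¹) ^ (r + 1) * (r.choose (2 * n) : ℝ) ≤
      (1 - ((Λ:ℝ) ^ g)⁻¹) ^ (r + 1) * ((1 / 4) ^ n * wq (2 * n) (r + 1)) := by gcongr
    _ = _ := by ring

section
variable {G : Type*} [AddCommGroup G] [Fintype G] [DecidableEq G]

/-- number of uncovered points -/
noncomputable def unc (T : Finset G) (l : List G) : ℝ :=
  ((univ.filter (fun x => cnt T l x = 0)).card : ℝ)

theorem unc_nil (T : Finset G) : unc T [] = Fintype.card G := by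
  unfold unc
  have : ∀ x, cnt T ([] : List G) x = 0 := by
    intro x; unfold cnt rep; simp
  simp [this]

theorem unc_cons_le (T : Finset G) (l : List G) (y : G) : unc T (y :: l) ≤ unc T l := by
  unfold unc
  norm_cast
  apply Finset.card_le_card
  intro x hx
  rw [mem_filter] at hx ⊢
  refine ⟨mem_univ _, ?_⟩
  have h := hx.2
  unfold cnt rep at h ⊢
  rw [Finset.card_eq_zero, Finset.filter_eq_empty_iff] at h ⊢
  intro t ht htl
  exact h ht (List.mem_cons_of_mem _ htl)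

theorem unc_le_of_suffix (T : Finset G) (l l' : List G) (h : l <:+ l') : unc T l' ≤ unc T l := by
  obtain ⟨p, rfl⟩ := h
  induction p with
  | nil => exact le_rfl
  | cons y p ih => exact (unc_cons_le T (p ++ l) y).trans ih

theorem unc_step (g n Λ : ℕ) (hΛ : 1 ≤ Λ) (T : Finset G) (l : List G) (y : G) (hy : y ∉ l)
    (S : Finset G) (b : ℝ) (hb : (T.card : ℝ) ≤ b) :
    unc T l - unc T (y :: l) ≤
      min (phi (bin ((Λ:ℝ) ^ g)⁻¹ (FL g (2 * n) Λ)) T (T.filter (fun t => t - y ∉ S)) l y) b := by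
  have h1 : unc T l ≤ unc T (y :: l) + ((T.filter (fun t0 => cnt T l (y + t0) = 0)).card : ℝ) := by
    unfold unc
    have hsub : univ.filter (fun x => cnt T l x = 0) ⊆ univ.filter (fun x => cnt T (y :: l) x = 0) ∪
        (T.filter (fun t0 => cnt T l (y + t0) = 0)).image (fun t0 => y + t0) := by
      intro x hx
      rw [mem_filter] at hx
      rw [mem_union, mem_filter, mem_image]
      by_cases hxT : x - y ∈ T
      · right
        refine ⟨x - y, ?_, by abel⟩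
        rw [mem_filter]
        have : y + (x - y) = x := by abel
        rw [this]
        exact ⟨hxT, hx.2⟩
      · left
        refine ⟨mem_univ _, ?_⟩
        rw [cnt_cons T l y x hy, hx.2, if_neg hxT]
    have h2 := (Finset.card_le_card hsub).trans (Finset.card_union_le _ _)
    have h3 := h2.trans (Nat.add_le_add_left Finset.card_image_le _)
    exact_mod_cast h3
  have h2 : ((T.filter (fun t0 => cnt T l (y + t0) = 0)).card : ℝ) ≤
      phi (bin ((Λ:ℝ) ^ g)⁻¹ (FL g (2 * n) Λ)) T (T.filter (fun t => t - y ∉ S)) l y := by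
    unfold phi
    rw [Finset.card_filter]
    push_cast
    apply Finset.sum_le_sum
    intro t0 _
    split_ifs with h
    · have h3 := cnt_split T S l y (y + t0)
      have h4 : cnt (T.filter (fun t => t - y ∉ S)) l (y + t0) = 0 := by omega
      rw [h4, bin_FL_zero _ _ _ hΛ]
    · exact bin_FL_nonneg g n Λ _ hΛ
  have h3 : ((T.filter (fun t0 => cnt T l (y + t0) = 0)).card : ℝ) ≤ b := by
    refine le_trans ?_ hb
    exact_mod_cast Finset.card_filter_le _ _
  apply le_min <;> linarith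

theorem sum_bin_FL_le (g n Λ Z : ℕ) (hΛ : 1 ≤ Λ) (T : Finset G) (l : List G) :
    ∑ x, bin ((Λ:ℝ) ^ g)⁻¹ (FL g (2 * n) Λ) (cnt T l x) ≤
      unc T l + (1 / 4) ^ n * (Psi (2 * n) Z T l +
        Fintype.card G * ((1 - ((Λ:ℝ) ^ g)⁻¹) ^ Z * (1 + 2 * (l.length:ℝ)) ^ (2 * n))) := by
  obtain ⟨h0, h1⟩ := gamma_bounds g Λ hΛ
  have hpt : ∀ x, bin ((Λ:ℝ) ^ g)⁻¹ (FL g (2 * n) Λ) (cnt T l x) ≤
      (if cnt T l x = 0 then 1 else 0) + (1 / 4) ^ n * ((if cnt T l x ≤ Z then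
        wq (2 * n) (cnt T l x) else 0) +
        (1 - ((Λ:ℝ) ^ g)⁻¹) ^ Z * (1 + 2 * (l.length:ℝ)) ^ (2 * n)) := by
    intro x
    have hlen := cnt_le_length T l x
    set r := cnt T l x
    have hw := wq_nonneg (2 * n) r
    have htail : 0 ≤ (1 - ((Λ:ℝ) ^ g)⁻¹) ^ Z * (1 + 2 * (l.length:ℝ)) ^ (2 * n) := by positivity
    have hq : (0:ℝ) ≤ (1 / 4) ^ n := by positivity
    by_cases hr : r = 0
    · rw [hr, bin_FL_zero _ _ _ hΛ, if_pos rfl]
      have : 0 ≤ (1 / 4 : ℝ) ^ n * ((if 0 ≤ Z then wq (2 * n) 0 else 0) +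
        (1 - ((Λ:ℝ) ^ g)⁻¹) ^ Z * (1 + 2 * (l.length:ℝ)) ^ (2 * n)) := by
        apply mul_nonneg hq
        apply add_nonneg _ htail
        split_ifs
        · exact wq_nonneg _ _
        · exact le_rfl
      linarith
    · obtain ⟨r', hr'⟩ : ∃ r', r = r' + 1 := ⟨r - 1, by omega⟩
      rw [if_neg hr, zero_add]
      have h2 := bin_FL_le g n Λ r' hΛ
      rw [← hr'] at h2
      refine h2.trans ?_
      apply mul_le_mul_of_nonneg_left _ hq
      split_ifs with h
      · have : (1 - ((Λ:ℝ) ^ g)⁻¹) ^ r ≤ 1 := pow_le_one₀ h0 h1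
        have := mul_le_mul_of_nonneg_right this hw
        linarith
      · rw [zero_add]
        have e1 : (1 - ((Λ:ℝ) ^ g)⁻¹) ^ r ≤ (1 - ((Λ:ℝ) ^ g)⁻¹) ^ Z :=
          pow_le_pow_of_le_one h0 h1 (by omega)
        have e2 : wq (2 * n) r ≤ (1 + 2 * (l.length:ℝ)) ^ (2 * n) := by
          refine (wq_le_pow _ _).trans ?_
          have : (r : ℝ) ≤ l.length := by exact_mod_cast hlen
          gcongr
        gcongr
  refine (Finset.sum_le_sum (fun x _ => hpt x)).trans (le_of_eq ?_)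
  rw [Finset.sum_add_distrib, ← Finset.mul_sum, Finset.sum_add_distrib]
  unfold Psi unc
  simp

/-- One block. -/
theorem block_step
    (K n Z' g Λ s0 : ℕ) (ε b β : ℝ) (L : List G) (hnd : L.Nodup) (hK : 1 ≤ K)
    (hΛ : 1 ≤ Λ) (hL : 1 ≤ L.length) (hLN : L.length ^ 2 ≤ Fintype.card G)
    (hβ : (1 / 4) ^ n * (Real.exp (12 * K) + 2) ≤ β)
    (hTr : TrOK ((Λ:ℝ) ^ g)⁻¹ (FL g (2 * n) Λ) K s0 b (ε * K * (L.length : ℝ) ^ 2) L)
    (hε : 0 ≤ ε)
    (hMom : MomOK K (2 * n) Z' (12 * K) 1 L)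
    (htail : (1 - ((Λ:ℝ) ^ g)⁻¹) ^ Z' * (1 + 2 * (L.length:ℝ)) ^ (2 * n) ≤ 1)
    (hb : (K * L.length : ℝ) ≤ b)
    (T : Finset G) (hT : T.card ≤ K * L.length) (i j : ℕ) (hij : i ≤ j) (hj : j ≤ L.length)
    (hblock : 2 * K * (j - i) ≤ L.length) :
    1 / 2 * (unc T (suf i L) / Fintype.card G) - (β / 2 + ε * K) ≤
      unc T (suf j L) / Fintype.card G := by
  obtain ⟨S, hSc, hS⟩ := hTr T hT
  have htr := hS i j (hij.trans hj) hj
  set k : ℝ := (L.length : ℝ) with hk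
  set N : ℝ := (Fintype.card G : ℝ) with hN
  have hkpos : (1:ℝ) ≤ k := by rw [hk]; exact_mod_cast hL
  have hkN : k ^ 2 ≤ N := by rw [hk, hN]; exact_mod_cast hLN
  have hKr : (1:ℝ) ≤ K := by exact_mod_cast hK
  have hNpos : 0 < N := lt_of_lt_of_le (by positivity) hkN
  have hTr' : (T.card : ℝ) ≤ K * k := by rw [hk]; exact_mod_cast hT
  have hstep : ∀ l y, (y :: l) <:+ L → unc T l - unc T (y :: l) ≤
      min (phi (bin ((Λ:ℝ) ^ g)⁻¹ (FL g (2 * n) Λ)) T
        (T.filter (fun t => t - y ∉ S)) l y) b := by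
    intro l y hs
    have hnd' : (y :: l).Nodup := hnd.sublist hs.sublist
    have hy : y ∉ l := (List.nodup_cons.mp hnd').1
    exact unc_step g n Λ hΛ T l y hy S b (hTr'.trans hb)
  have htel := telescope (fun l => unc T l)
    (fun l y => min (phi (bin ((Λ:ℝ) ^ g)⁻¹ (FL g (2 * n) Λ)) T
        (T.filter (fun t => t - y ∉ S)) l y) b) L hstep i j hij hj
  set u : ℝ := unc T (suf i L) / N with hu
  have hrhs : stepSum (fun l (_ : G) => ind i j l *
      ((T.card : ℝ) / Fintype.card G * ∑ x, bin ((Λ:ℝ) ^ g)⁻¹ (FL g (2 * n) Λ) (cnt T l x))) L ≤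
      stepSum (fun l (_ : G) => ind i j l * ((K * k) * (u + β))) L := by
    apply stepSum_mono
    intro l y hs
    by_cases hil : i ≤ l.length ∧ l.length < j
    · have hind : ind i j l = 1 := by unfold ind; rw [if_pos hil]
      rw [hind, one_mul, one_mul]
      have hl : l <:+ L := (List.suffix_cons y l).trans hs
      have hsuf : suf i L <:+ l := by
        have e1 := suf_suffix i L
        exact List.suffix_of_suffix_length_le e1 hl (by rw [length_suf (hij.trans hj)]; exact hil.1)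
      have hmono : unc T l ≤ unc T (suf i L) := unc_le_of_suffix T _ _ hsuf
      have h1 := sum_bin_FL_le g n Λ Z' hΛ T l
      have h2 := hMom T hT l hl
      rw [← hk, ← hN] at h2
      rw [← hN] at h1
      have h3 : (1 - ((Λ:ℝ) ^ g)⁻¹) ^ Z' * (1 + 2 * (l.length:ℝ)) ^ (2 * n) ≤ 1 := by
        refine le_trans ?_ htail
        have : (l.length : ℝ) ≤ k := by rw [hk]; exact_mod_cast hl.length_le
        have h0 := (gamma_bounds g Λ hΛ).1
        gcongr
      have h4 : (1 + 12 * K / k) ^ l.length ≤ Real.exp (12 * K) := by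
        calc (1 + 12 * K / k) ^ l.length ≤ (Real.exp (12 * K / k)) ^ l.length := by
              apply pow_le_pow_left₀ (by positivity)
              have := Real.add_one_le_exp (12 * (K:ℝ) / k)
              linarith
          _ = Real.exp (l.length * (12 * K / k)) := by rw [← Real.exp_nat_mul]
          _ ≤ Real.exp (12 * K) := by
              apply Real.exp_le_exp.mpr
              have : (l.length : ℝ) ≤ k := by rw [hk]; exact_mod_cast hl.length_le
              calc (l.length : ℝ) * (12 * K / k) ≤ k * (12 * K / k) := by gcongr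
                _ = 12 * K := by field_simp
      have h5 : ∑ x, bin ((Λ:ℝ) ^ g)⁻¹ (FL g (2 * n) Λ) (cnt T l x) ≤ N * (u + β) := by
        have h6 : Psi (2 * n) Z' T l + N * ((1 - ((Λ:ℝ) ^ g)⁻¹) ^ Z' *
            (1 + 2 * (l.length:ℝ)) ^ (2 * n)) ≤ N * (Real.exp (12 * K) + 2) := by
          have h7 : N * ((1 - ((Λ:ℝ) ^ g)⁻¹) ^ Z' * (1 + 2 * (l.length:ℝ)) ^ (2 * n)) ≤ N * 1 :=
            mul_le_mul_of_nonneg_left h3 hNpos.le
          have h8 : N * ((1 + 12 * K / k) ^ l.length + 1) ≤ N * (Real.exp (12 * K) + 1) :=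
            mul_le_mul_of_nonneg_left (by linarith) hNpos.le
          linarith
        calc ∑ x, bin ((Λ:ℝ) ^ g)⁻¹ (FL g (2 * n) Λ) (cnt T l x) ≤ unc T (suf i L) +
              (1 / 4) ^ n * (N * (Real.exp (12 * K) + 2)) := by
              have := mul_le_mul_of_nonneg_left h6 (show (0:ℝ) ≤ (1 / 4) ^ n by positivity)
              linarith
          _ = N * u + N * ((1 / 4) ^ n * (Real.exp (12 * K) + 2)) := by
              rw [hu]; field_simp
          _ ≤ N * u + N * β := by gcongr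
          _ = _ := by ring
      have h6 : (T.card : ℝ) / N ≤ K * k / N := by gcongr
      have h7 : 0 ≤ ∑ x, bin ((Λ:ℝ) ^ g)⁻¹ (FL g (2 * n) Λ) (cnt T l x) :=
        Finset.sum_nonneg (fun x _ => bin_FL_nonneg g n Λ _ hΛ)
      calc (T.card : ℝ) / N * ∑ x, bin ((Λ:ℝ) ^ g)⁻¹ (FL g (2 * n) Λ) (cnt T l x) ≤
          (K * k / N) * (N * (u + β)) := mul_le_mul h6 h5 h7 (by positivity)
        _ = _ := by field_simp
    · have hind : ind i j l = 0 := by unfold ind; rw [if_neg hil]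
      rw [hind, zero_mul, zero_mul]
  -- length of the window
  have hwin : stepSum (fun l (_ : G) => ind i j l) L ≤ (j:ℝ) - i := by
    have h := telescope (fun l : List G => (l.length : ℝ)) (fun _ _ => (-1:ℝ)) L (by
      intro l y _
      simp) i j hij hj
    rw [length_suf hj, length_suf (hij.trans hj)] at h
    have h2 := stepSum_mul (-1) (fun l (_ : G) => ind i j l) L
    have h3 : stepSum (fun l (_ : G) => ind i j l * (-1:ℝ)) L =
        stepSum (fun l (_ : G) => (-1) * ind i j l) L := by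
      apply stepSum_congr; intro l y _; ring
    rw [h3, h2] at h
    linarith
  have hβ0 : 0 ≤ β := le_trans (by positivity) hβ
  have hu0 : 0 ≤ u := by rw [hu]; unfold unc; positivity
  have hrhs2 : stepSum (fun l (_ : G) => ind i j l * ((K * k) * (u + β))) L ≤
      ((j:ℝ) - i) * ((K * k) * (u + β)) := by
    have h1 : stepSum (fun l (_ : G) => ind i j l * ((K * k) * (u + β))) L =
        ((K * k) * (u + β)) * stepSum (fun l (_ : G) => ind i j l) L := by
      rw [← stepSum_mul]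
      apply stepSum_congr; intro l y _; ring
    rw [h1, mul_comm]
    apply mul_le_mul_of_nonneg_right hwin (by positivity)
  have hblock' : 2 * K * ((j:ℝ) - i) ≤ k := by
    have : (2 * K * (j - i) : ℕ) ≤ L.length := hblock
    have h1 : ((2 * K * (j - i) : ℕ) : ℝ) ≤ (L.length : ℝ) := by exact_mod_cast this
    push_cast [Nat.cast_sub hij] at h1
    rw [hk]; exact h1
  have hmain : unc T (suf i L) - unc T (suf j L) ≤ N * ((u + β) / 2) + N * (ε * K) := by
    have e1 : ((j:ℝ) - i) * ((K * k) * (u + β)) = (2 * K * ((j:ℝ) - i)) * k * ((u + β) / 2) := by ring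
    have e2 : (2 * K * ((j:ℝ) - i)) * k * ((u + β) / 2) ≤ k * k * ((u + β) / 2) := by gcongr
    have e3 : k * k * ((u + β) / 2) ≤ N * ((u + β) / 2) := by
      have : k * k ≤ N := by nlinarith
      gcongr
    have e4 : ε * K * k ^ 2 ≤ N * (ε * K) := by
      calc ε * K * k ^ 2 ≤ ε * K * N := by gcongr
        _ = _ := by ring
    linarith
  have hdiv : u - unc T (suf j L) / N ≤ (u + β) / 2 + ε * K := by
    rw [hu, ← sub_div, div_le_iff₀ hNpos]
    rw [hu] at hmain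
    linarith
  linarith

end

theorem min_sub_min_le (x m k : ℕ) : min (x + m) k - min x k ≤ m := by omega

theorem whp_final (K : ℕ) (hK : 1 ≤ K) :
    WHP (fun G _ _ _ L => L.Nodup → ∀ T : Finset G, T.card ≤ K * L.length →
      ∃ x, ∀ t ∈ T, x - t ∉ L) := by
  have hKr : (1:ℝ) ≤ K := by exact_mod_cast hK
  -- choose n
  obtain ⟨n, hn⟩ := exists_pow_lt_of_lt_one
    (show (0:ℝ) < (1 / 2) ^ (4 * K) / 4 / (Real.exp (12 * K) + 2) by positivity)
    (show (1 / 4 : ℝ) < 1 by norm_num)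
  have hβ : (1 / 4 : ℝ) ^ n * (Real.exp (12 * K) + 2) ≤ (1 / 2) ^ (4 * K) / 4 := by
    rw [lt_div_iff₀ (by positivity)] at hn
    exact hn.le
  set β : ℝ := (1 / 2) ^ (4 * K) / 4 with hβdef
  set ε : ℝ := (1 / 2) ^ (4 * K) / (8 * K) with hε
  have hεpos : 0 < ε := by positivity
  have hε1 : ε ≤ 1 := by
    rw [hε, div_le_one (by positivity)]
    have : (1 / 2 : ℝ) ^ (4 * K) ≤ 1 := pow_le_one₀ (by norm_num) (by norm_num)
    linarith
  have hεK : 2 * (ε * K) = (1 / 2) ^ (4 * K) / 4 := by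
    rw [hε]; field_simp; norm_num
  have h1 := whp_transfer K 2 (2 * (2 * n)) 0 hK (by omega) ε hεpos hε1 (FL 2 (2 * n))
    (by
      filter_upwards [eventually_ge_atTop 1] with Λ hΛ z
      exact FL_bound 2 (2 * n) Λ z hΛ)
    (by
      filter_upwards [eventually_ge_atTop 1] with Λ hΛ r
      exact bin_FL_nonneg 2 n Λ r hΛ)
  have h2 := whp_mom K hK (2 * n) 4 1 one_pos
  refine (h1.and h2).mono ?_
  filter_upwards [eventually_lam_pow_le 0 (4 * K), eventually_le_lam (2 + 2 * (2 * n : ℕ))]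
    with N hk0 hΛn G _ _ _ hG L hLlen hP hnd T hT
  subst hG
  set N := Fintype.card G with hN
  obtain ⟨_, hTr⟩ := hP.1 hnd
  have hMom := hP.2 hnd
  have hk4 : 4 * K ≤ L.length := by
    rw [hLlen]
    have : (4 * K : ℝ) ≤ Nat.sqrt N := by simpa using hk0
    exact_mod_cast this
  have hk1 : 1 ≤ L.length := by omega
  have hΛ1 : 1 ≤ lam N := lam_pos N
  have hLN : L.length ^ 2 ≤ N := by rw [hLlen]; exact Nat.sqrt_le' N
  set Λ : ℕ := lam N with hΛdef
  have hΛr : (1:ℝ) ≤ Λ := by exact_mod_cast hΛ1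
  obtain ⟨hγ0, hγ1⟩ := gamma_bounds 2 Λ hΛ1
  rw [← hLlen] at hTr
  have htail : (1 - ((Λ:ℝ) ^ 2)⁻¹) ^ (Λ ^ 4) * (1 + 2 * (L.length:ℝ)) ^ (2 * n) ≤ 1 := by
    have h3 : (1 - ((Λ:ℝ) ^ 2)⁻¹) ^ (Λ ^ 4) ≤ Real.exp (-(Λ:ℝ) ^ 2) := by
      calc (1 - ((Λ:ℝ) ^ 2)⁻¹) ^ (Λ ^ 4) ≤
          (Real.exp (-((Λ:ℝ) ^ 2)⁻¹)) ^ (Λ ^ 4) := by
            apply pow_le_pow_left₀ hγ0
            have := Real.add_one_le_exp (-((Λ:ℝ) ^ 2)⁻¹)
            linarith
        _ = Real.exp ((Λ ^ 4 : ℕ) * (-((Λ:ℝ) ^ 2)⁻¹)) := by rw [← Real.exp_nat_mul]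
        _ = Real.exp (-(Λ:ℝ) ^ 2) := by
            congr 1
            push_cast
            field_simp
    have h4 : (1 + 2 * (L.length:ℝ)) ^ (2 * n) ≤ Real.exp ((2 * n : ℕ) * Λ) := by
      have h5 : 1 + 2 * (L.length:ℝ) ≤ Real.exp Λ := by
        have h6 := le_exp_lam N
        have h7 : (L.length : ℝ) ≤ N := by
          rw [hLlen]; exact_mod_cast Nat.sqrt_le_self N
        linarith
      calc (1 + 2 * (L.length:ℝ)) ^ (2 * n) ≤ (Real.exp Λ) ^ (2 * n) := by gcongr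
        _ = _ := by rw [← Real.exp_nat_mul]
    calc _ ≤ Real.exp (-(Λ:ℝ) ^ 2) * Real.exp ((2 * n : ℕ) * Λ) := by gcongr
      _ = Real.exp (-(Λ:ℝ) ^ 2 + (2 * n : ℕ) * Λ) := by rw [← Real.exp_add]
      _ ≤ Real.exp 0 := by
          apply Real.exp_le_exp.mpr
          have hQ0 : (0:ℝ) ≤ (2 * n : ℕ) := by positivity
          have : (Λ:ℝ) * (2 + 2 * (2 * n : ℕ)) ≤ Λ * Λ := by gcongr
          nlinarith
      _ = 1 := Real.exp_zero
  set k := L.length with hk
  set M : ℕ := k / (2 * K) with hM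
  have hMle : 2 * K * M ≤ k := Nat.mul_div_le k (2 * K)
  have hMge : k ≤ 4 * K * M := by
    have h3 : k < 2 * K * (M + 1) := by
      have := Nat.lt_mul_div_succ k (show 0 < 2 * K by omega)
      simpa [hM] using this
    have h4 : 1 ≤ M := by
      rw [hM, Nat.le_div_iff_mul_le (by omega)]
      omega
    nlinarith
  -- induction over the blocks
  have hblocks : ∀ a : ℕ, (1 / 2 : ℝ) ^ a - (β + 2 * (ε * K)) ≤
      unc T (suf (min (a * M) k) L) / N := by
    intro a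
    induction a with
    | zero =>
      have h3 : min (0 * M) k = 0 := by simp
      rw [h3, suf_zero, unc_nil, ← hN]
      have hNpos : (0:ℝ) < N := by
        rw [hN]; exact_mod_cast Fintype.card_pos
      rw [div_self hNpos.ne']
      have : 0 ≤ β + 2 * (ε * K) := by positivity
      simp
      linarith
    | succ a ih =>
      have hb1 := block_step K n (Λ ^ 4) 2 Λ (2 * Λ ^ (2 * (2 * (2 * n)) + 3)) ε
        ((Λ:ℝ) ^ 0 * (K * L.length)) β L hnd hK hΛ1 hk1 hLN hβ hTr hεpos.le hMom htail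
        (by simp) T hT (min (a * M) k) (min ((a + 1) * M) k)
        (min_le_min_right _ (Nat.mul_le_mul_right _ (Nat.le_succ a))) (min_le_right _ _)
        (by
          have : min ((a + 1) * M) k - min (a * M) k ≤ M := by
            have h5 : (a + 1) * M = a * M + M := by ring
            rw [h5]
            exact min_sub_min_le _ _ _
          calc 2 * K * (min ((a + 1) * M) k - min (a * M) k) ≤ 2 * K * M :=
                Nat.mul_le_mul_left _ this
            _ ≤ k := hMle)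
      rw [← hN] at hb1
      rw [pow_succ]
      linarith
  have hfin := hblocks (4 * K)
  have hmin : min (4 * K * M) k = L.length := min_eq_right hMge
  rw [hmin, suf_length_self, hεK, hβdef] at hfin
  have hpow : (0:ℝ) < (1 / 2) ^ (4 * K) := by positivity
  have hunc : 0 < unc T L / N := by linarith
  have hunc2 : 0 < unc T L := by
    by_contra hcon
    push Not at hcon
    have : unc T L / N ≤ 0 := div_nonpos_of_nonpos_of_nonneg hcon (by positivity)
    linarith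
  unfold unc at hunc2
  have hpos : 0 < (univ.filter (fun x => cnt T L x = 0)).card := by exact_mod_cast hunc2
  obtain ⟨x, hx⟩ := Finset.card_pos.mp hpos
  refine ⟨x, fun t ht hxt => ?_⟩
  have h3 := (mem_filter.mp hx).2
  unfold cnt rep at h3
  rw [Finset.card_eq_zero, Finset.filter_eq_empty_iff] at h3
  exact h3 ht hxt

end Pool.Agent.Helper274.Cover
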