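import Mathlib
import Pool.Agent.Helper274.CoverK

set_option autoImplicit false
set_option linter.unusedSectionVars false

open Finset Filter

namespace Pool.Agent.Helper274.Cover

theorem fiber_card {G : Type*} [Fintype G] [DecidableEq G] (k : ℕ) (A : Finset G)
    (hA : A.card = k) :
    k.factorial ≤ ((univ : Finset (Fin k → G)).filter
      (fun a => Function.Injective a ∧ univ.image a = A)).card := by
  classical
  have h1 : Fintype.card (Fin k ≃ A) = k.factorial := by
    have e : Fin k ≃ A := (Finset.equivFinOfCardEq hA).symm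
    rw [Fintype.card_equiv e, Fintype.card_fin]
  rw [← h1, ← Finset.card_univ]
  apply Finset.card_le_card_of_injOn (fun (e : Fin k ≃ A) (i : Fin k) => ((e i : A) : G))
  · intro e _
    rw [Finset.mem_coe, mem_filter]
    refine ⟨mem_univ _, ?_, ?_⟩
    · intro i j hij
      exact e.injective (Subtype.ext hij)
    · ext x
      rw [mem_image]
      constructor
      · rintro ⟨i, _, rfl⟩
        exact (e i).2
      · intro hx
        exact ⟨e.symm ⟨x, hx⟩, mem_univ _, by simp⟩
  · intro e _ e' _ h
    ext i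
    exact congrFun h i

theorem factorial_mul_le {G : Type*} [Fintype G] [DecidableEq G] (k : ℕ)
    (B : Finset (Finset G)) (hB : ∀ A ∈ B, A.card = k) :
    k.factorial * B.card ≤ ((univ : Finset (Fin k → G)).filter
      (fun a => Function.Injective a ∧ univ.image a ∈ B)).card := by
  classical
  have h1 := Finset.card_eq_sum_card_fiberwise (f := fun a : Fin k → G => univ.image a)
    (s := (univ : Finset (Fin k → G)).filter
      (fun a => Function.Injective a ∧ univ.image a ∈ B)) (t := B) (by
        intro a ha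
        have := (mem_filter.mp (Finset.mem_coe.mp ha)).2.2
        exact this)
  rw [h1]
  calc k.factorial * B.card = ∑ _A ∈ B, k.factorial := by
        rw [Finset.sum_const, smul_eq_mul, mul_comm]
    _ ≤ _ := by
        apply Finset.sum_le_sum
        intro A hA
        refine (fiber_card k A (hB A hA)).trans ?_
        apply Finset.card_le_card
        intro a ha
        rw [mem_filter] at ha ⊢
        refine ⟨?_, ha.2.2⟩
        rw [mem_filter]
        exact ⟨mem_univ _, ha.2.1, by rw [ha.2.2]; exact hA⟩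

/-- `N^k ≤ 2 * N (N-1) ... (N-k+1)` when `k^2 ≤ N`. -/
theorem pow_le_two_descFactorial (N k : ℕ) (h : k ^ 2 ≤ N) (hN : 1 ≤ N) :
    (N:ℝ) ^ k ≤ 2 * (N.descFactorial k : ℝ) := by
  have hNpos : (0:ℝ) < N := by exact_mod_cast hN
  have hkN : (k:ℝ) ^ 2 ≤ N := by exact_mod_cast h
  have key : ∀ j : ℕ, j ≤ k → (N:ℝ) ^ j * (1 - (j:ℝ) * (j - 1) / (2 * N)) ≤
      (N.descFactorial j : ℝ) := by
    intro j
    induction j with
    | zero => intro _; simp
    | succ j ih =>
      intro hj
      have ih' := ih (by omega)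
      rw [Nat.descFactorial_succ]
      push_cast
      have hjN : j ≤ N := by nlinarith
      rw [Nat.cast_sub hjN]
      have hj0 : (0:ℝ) ≤ j := by positivity
      have hjN' : (j:ℝ) ≤ N := by exact_mod_cast hjN
      have hfac : (0:ℝ) ≤ (N:ℝ) - j := by linarith
      have h1 := mul_le_mul_of_nonneg_left ih' hfac
      refine le_trans ?_ h1
      have h2 : (N:ℝ) - j = N * (1 - j / N) := by field_simp
      have h3 : ((N:ℝ) - j) * ((N:ℝ) ^ j * (1 - (j:ℝ) * (j - 1) / (2 * N))) =
          (N:ℝ) ^ (j + 1) * ((1 - j / N) * (1 - (j:ℝ) * (j - 1) / (2 * N))) := by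
        rw [h2]; ring
      rw [h3]
      apply mul_le_mul_of_nonneg_left _ (by positivity)
      have h4 : (1 - (j:ℝ) / N) * (1 - (j:ℝ) * (j - 1) / (2 * N)) -
          (1 - ((j:ℝ) + 1) * ((j:ℝ) + 1 - 1) / (2 * N)) =
          (j:ℝ) * ((j:ℝ) * (j - 1)) / (2 * N ^ 2) := by
        field_simp
        ring
      have h5 : 0 ≤ (j:ℝ) * ((j:ℝ) * (j - 1)) / (2 * N ^ 2) := by
        rcases Nat.eq_zero_or_pos j with h0 | h0
        · subst h0; simp
        · have : (1:ℝ) ≤ j := by exact_mod_cast h0
          have h6 : 0 ≤ (j:ℝ) - 1 := by linarith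
          positivity
      linarith
  have hkey := key k le_rfl
  have hk : (k:ℝ) * (k - 1) / (2 * N) ≤ 1 / 2 := by
    rw [div_le_iff₀ (by positivity)]
    have : (0:ℝ) ≤ k := by positivity
    nlinarith
  have h2 : (N:ℝ) ^ k * (1 / 2) ≤ (N:ℝ) ^ k * (1 - (k:ℝ) * (k - 1) / (2 * N)) := by
    apply mul_le_mul_of_nonneg_left _ (by positivity)
    linarith
  linarith

theorem card_le_bad {G : Type*} [Fintype G] {k : ℕ} {P : List G → Prop}
    (X : Finset (Fin k → G)) (h : ∀ a ∈ X, ¬ P (List.ofFn a)) : (X.card : ℝ) ≤ bad k P := by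
  classical
  unfold bad
  norm_cast
  apply Finset.card_le_card
  intro a ha
  simp only [mem_filter, mem_univ, true_and]
  exact h a ha

open Classical in
/-- the `k`-subsets (`k = ⌊√|G|⌋`) having an efficient covering by translates -/
noncomputable def coverable (G : Type) [AddCommGroup G] [Fintype G] (K : ℕ) :
    Finset (Finset G) :=
  (univ : Finset (Finset G)).filter (fun A => A.card = Nat.sqrt (Fintype.card G) ∧
    ∃ T : Finset G, T.card ≤ K * Nat.sqrt (Fintype.card G) ∧ ∀ x : G, ∃ t ∈ T, ∃ a ∈ A, t + a = x)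

theorem coverable_card_le (K : ℕ) (hK : 1 ≤ K) (η : ℝ) (hη : 0 < η) :
    ∀ᶠ N : ℕ in atTop, ∀ (G : Type) [AddCommGroup G] [Fintype G], Fintype.card G = N →
      ((coverable G K).card : ℝ) ≤ η * (N.choose (Nat.sqrt N) : ℝ) := by
  filter_upwards [whp_final K hK (η / 2) (by linarith), eventually_ge_atTop 1]
    with N hN hN1 G _ _ hG
  classical
  have h1 := hN G hG
  subst hG
  set N := Fintype.card G with hNdef
  set k := Nat.sqrt N with hk
  have h2 := factorial_mul_le k (coverable G K) (by
    intro A hA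
    unfold coverable at hA
    exact (mem_filter.mp hA).2.1)
  have h3 : (((univ : Finset (Fin k → G)).filter
      (fun a => Function.Injective a ∧ univ.image a ∈ coverable G K)).card : ℝ) ≤
      bad k (fun L : List G => L.Nodup → ∀ T : Finset G, T.card ≤ K * L.length →
        ∃ x, ∀ t ∈ T, x - t ∉ L) := by
    apply card_le_bad
    intro a ha hP
    obtain ⟨_, hinj, hcov⟩ := mem_filter.mp ha
    unfold coverable at hcov
    obtain ⟨_, _, T, hT, hTcov⟩ := mem_filter.mp hcov
    obtain ⟨x, hx⟩ := hP (List.nodup_ofFn.mpr hinj) T (by simpa using hT)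
    obtain ⟨t, ht, b, hb, htb⟩ := hTcov x
    apply hx t ht
    rw [mem_image] at hb
    obtain ⟨i, _, rfl⟩ := hb
    have : x - t = a i := by rw [← htb]; abel
    rw [this]
    exact List.mem_ofFn.mpr ⟨i, rfl⟩
  have hkN : k ^ 2 ≤ N := Nat.sqrt_le' N
  have h4 := pow_le_two_descFactorial N k hkN hN1
  have h5 : (N.descFactorial k : ℝ) = k.factorial * (N.choose k : ℝ) := by
    rw [Nat.descFactorial_eq_factorial_mul_choose]; push_cast; ring
  have hfact : (0:ℝ) < k.factorial := by exact_mod_cast Nat.factorial_pos k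
  have h6 : (k.factorial : ℝ) * ((coverable G K).card : ℝ) ≤
      (k.factorial : ℝ) * (η * (N.choose k : ℝ)) := by
    calc (k.factorial : ℝ) * ((coverable G K).card : ℝ) ≤
        (((univ : Finset (Fin k → G)).filter
          (fun a => Function.Injective a ∧ univ.image a ∈ coverable G K)).card : ℝ) := by
          exact_mod_cast h2
      _ ≤ _ := h3
      _ ≤ η / 2 * (N:ℝ) ^ k := h1
      _ ≤ η / 2 * (2 * (N.descFactorial k : ℝ)) := by gcongr
      _ = _ := by rw [h5]; ring
  exact le_of_mul_le_mul_left h6 hfact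

end Pool.Agent.Helper274.Cover
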